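import Mathlib

/-! Sums of unimodal functions over separated sets, and fibres of finite sets of pairs. -/

set_option autoImplicit false

namespace Pool.Agent.K4H52.DH

/-- elements at distance at least `s` -/
def Sep (s : ℤ) (T : Finset ℤ) : Prop := ∀ x ∈ T, ∀ y ∈ T, x < y → x + s ≤ y

lemma Sep.subset {s : ℤ} {T T' : Finset ℤ} (h : Sep s T) (h' : T' ⊆ T) : Sep s T' :=
  fun x hx y hy hxy => h x (h' hx) y (h' hy) hxy

lemma tele {s : ℤ} {W : ℤ → ℝ} {lo : ℤ} (hs : 0 ≤ s)
    (hW : ∀ x y, lo ≤ x → x ≤ y → W x ≤ W y) (T : Finset ℤ) :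
    Sep s T → (∀ x ∈ T, lo ≤ x) → ∀ hi, lo ≤ hi → (∀ x ∈ T, x + s ≤ hi) →
    ∑ x ∈ T, (W (x + s) - W x) ≤ W hi - W lo := by
  induction T using Finset.induction_on_max with
  | empty =>
    intro _ _ hi hlo _
    have := hW lo hi le_rfl hlo
    simpa using this
  | insert a T hmax ih =>
    intro hsep hT hi hlo hhi
    have ha : a ∉ T := fun h => lt_irrefl _ (hmax a h)
    rw [Finset.sum_insert ha]
    have h1 := ih (hsep.subset (Finset.subset_insert _ _))
      (fun x hx => hT x (Finset.mem_insert_of_mem hx)) a (hT a (Finset.mem_insert_self _ _))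
      (fun x hx => hsep x (Finset.mem_insert_of_mem hx) a (Finset.mem_insert_self _ _) (hmax x hx))
    have h2 := hW (a + s) hi (by have := hT a (Finset.mem_insert_self _ _); omega)
      (hhi a (Finset.mem_insert_self _ _))
    linarith

lemma tele_bdd {s : ℤ} {W : ℤ → ℝ} {lo : ℤ} {C : ℝ} (hs : 0 ≤ s)
    (hW : ∀ x y, lo ≤ x → x ≤ y → W x ≤ W y) (T : Finset ℤ) (hsep : Sep s T)
    (hlo : ∀ x ∈ T, lo ≤ x) (h0 : 0 ≤ W lo) (hC : ∀ x, lo ≤ x → W x ≤ C) :
    ∑ x ∈ T, (W (x + s) - W x) ≤ C := by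
  obtain ⟨B, hB⟩ := (T.image (fun x => x + s)).bddAbove
  have h1 := tele hs hW T hsep hlo (max lo B) (le_max_left _ _) (fun x hx =>
    le_trans (hB (by simpa using hx)) (le_max_right _ _))
  have h2 := hC (max lo B) (le_max_left _ _)
  linarith

lemma card_sep {s : ℤ} (hs : 0 < s) {T : Finset ℤ} (hsep : Sep s T) {x y : ℝ} (hxy : x ≤ y)
    (h : ∀ t ∈ T, x ≤ t ∧ (t : ℝ) ≤ y) : (T.card : ℝ) ≤ (y - x) / s + 1 := by
  have hs' : (0 : ℝ) < s := by exact_mod_cast hs
  rcases T.eq_empty_or_nonempty with rfl | hT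
  · simp only [Finset.card_empty, Nat.cast_zero]
    have : 0 ≤ (y - x) / s := div_nonneg (by linarith) hs'.le
    linarith
  · have h1 := tele (W := fun z => (z : ℝ)) (lo := T.min' hT) hs.le
      (fun a b _ hab => by exact_mod_cast hab) T hsep (fun t ht => T.min'_le t ht)
      (T.max' hT + s) (by have := T.min'_le _ (T.max'_mem hT); omega)
      (fun t ht => by have := T.le_max' t ht; omega)
    have h2 : ∑ t ∈ T, (((t + s : ℤ) : ℝ) - (t : ℝ)) = T.card * s := by
      rw [Finset.sum_congr rfl (g := fun _ => (s : ℝ)) (fun t _ => by push_cast; ring)]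
      simp
    rw [h2] at h1
    have h3 := (h _ (T.min'_mem hT)).1
    have h4 := (h _ (T.max'_mem hT)).2
    push_cast at h1
    have h5 : (T.card : ℝ) * s ≤ (y - x) + s := by linarith
    rw [div_add_one hs'.ne', le_div_iff₀ hs']
    exact h5

/-- at most two elements of a separated set are within distance less than `s` of a point -/
lemma card_near {s : ℤ} (hs : 0 < s) {T : Finset ℤ} (hsep : Sep s T) (p : ℝ)
    (h : ∀ t ∈ T, p - s < t ∧ (t : ℝ) < p + s) : T.card ≤ 2 := by
  rcases T.eq_empty_or_nonempty with rfl | hT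
  · simp
  · have hs' : (0 : ℝ) < s := by exact_mod_cast hs
    have h1 := tele (W := fun z => (z : ℝ)) (lo := T.min' hT) hs.le
      (fun a b _ hab => by exact_mod_cast hab) T hsep (fun t ht => T.min'_le t ht)
      (T.max' hT + s) (by have := T.min'_le _ (T.max'_mem hT); omega)
      (fun t ht => by have := T.le_max' t ht; omega)
    have h2 : ∑ t ∈ T, (((t + s : ℤ) : ℝ) - (t : ℝ)) = T.card * s := by
      rw [Finset.sum_congr rfl (g := fun _ => (s : ℝ)) (fun t _ => by push_cast; ring)]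
      simp
    rw [h2] at h1
    have h3 := (h _ (T.min'_mem hT)).1
    have h4 := (h _ (T.max'_mem hT)).2
    push_cast at h1
    have h5 : (T.card : ℝ) * s < 3 * s := by linarith
    have h6 : (T.card : ℝ) < 3 := lt_of_mul_lt_mul_right h5 hs'.le
    have h7 : T.card < 3 := by exact_mod_cast h6
    omega

/-- The sum of a unimodal function over a separated set. -/
theorem sum_unimodal {s : ℤ} (hs : 0 < s) {T : Finset ℤ} (hsep : Sep s T) {lo : ℤ}
    (hlo : ∀ x ∈ T, lo ≤ x) {p : ℝ} (hlop : (lo : ℝ) ≤ p) {w W : ℤ → ℝ} {C M : ℝ} (hM0 : 0 ≤ M)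
    (hW : ∀ x y, lo ≤ x → x ≤ y → W x ≤ W y) (h0 : 0 ≤ W lo) (hC : ∀ x, lo ≤ x → W x ≤ C)
    (hM : ∀ x ∈ T, w x ≤ M)
    (h1 : ∀ x ∈ T, (x : ℝ) + s ≤ p → s * w x ≤ W (x + s) - W x)
    (h2 : ∀ x ∈ T, p ≤ (x : ℝ) - s → s * w x ≤ W x - W (x - s)) :
    s * ∑ x ∈ T, w x ≤ C + 2 * s * M := by
  classical
  have hs' : (0 : ℝ) < s := by exact_mod_cast hs
  set T1 := T.filter (fun x : ℤ => (x : ℝ) + s ≤ p) with hT1
  set R := T.filter (fun x : ℤ => ¬ ((x : ℝ) + s ≤ p)) with hR
  set T2 := R.filter (fun x : ℤ => p ≤ (x : ℝ) - s) with hT2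
  set T3 := R.filter (fun x : ℤ => ¬ (p ≤ (x : ℝ) - s)) with hT3
  have hR_sub : R ⊆ T := Finset.filter_subset _ _
  have hT2_sub : T2 ⊆ T := (Finset.filter_subset _ _).trans hR_sub
  have hT3_sub : T3 ⊆ T := (Finset.filter_subset _ _).trans hR_sub
  have hT1_sub : T1 ⊆ T := Finset.filter_subset _ _
  have e1 : ∑ x ∈ T, w x = ∑ x ∈ T1, w x + (∑ x ∈ T2, w x + ∑ x ∈ T3, w x) := by
    rw [hT1, ← Finset.sum_filter_add_sum_filter_not T (fun x : ℤ => (x : ℝ) + s ≤ p), ← hR,
      hT2, hT3, ← Finset.sum_filter_add_sum_filter_not R (fun x : ℤ => p ≤ (x : ℝ) - s)]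
  -- T3
  have hT3c : T3.card ≤ 2 := by
    apply card_near hs (hsep.subset hT3_sub) p
    intro t ht
    rw [hT3, Finset.mem_filter, hR, Finset.mem_filter] at ht
    obtain ⟨⟨_, h4⟩, h5⟩ := ht
    push Not at h4 h5
    constructor <;> linarith
  have hT3s : ∑ x ∈ T3, w x ≤ 2 * M := by
    calc ∑ x ∈ T3, w x ≤ ∑ x ∈ T3, M := Finset.sum_le_sum fun x hx => hM x (hT3_sub hx)
      _ = T3.card * M := by simp
      _ ≤ 2 * M := mul_le_mul_of_nonneg_right (by exact_mod_cast hT3c) hM0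
  -- windows
  set T2' := T2.image (fun x => x - s) with hT2'
  have hinj : Set.InjOn (fun x : ℤ => x - s) (T2 : Set ℤ) := fun x _ y _ h => by
    have : x - s = y - s := h
    omega
  have hdisj : Disjoint T1 T2' := by
    rw [Finset.disjoint_left]
    intro x hx hx'
    rw [hT2', Finset.mem_image] at hx'
    obtain ⟨y, hy, rfl⟩ := hx'
    rw [hT1, Finset.mem_filter] at hx
    rw [hT2, Finset.mem_filter] at hy
    have h4 := hx.2
    have h5 := hy.2
    push_cast at h4
    linarith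
  have hS : Sep s (T1 ∪ T2') := by
    intro x hx y hy hxy
    rw [Finset.mem_union] at hx hy
    rcases hx with hx | hx <;> rcases hy with hy | hy
    · exact hsep x (hT1_sub hx) y (hT1_sub hy) hxy
    · rw [hT2', Finset.mem_image] at hy
      obtain ⟨z, hz, rfl⟩ := hy
      rw [hT1, Finset.mem_filter] at hx
      rw [hT2, Finset.mem_filter] at hz
      have h4 := hx.2
      have h5 := hz.2
      have : (x : ℝ) + s ≤ (z : ℝ) - s := by linarith
      have h6 : x + s ≤ z - s := by exact_mod_cast this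
      omega
    · exfalso
      rw [hT2', Finset.mem_image] at hx
      obtain ⟨z, hz, rfl⟩ := hx
      rw [hT1, Finset.mem_filter] at hy
      rw [hT2, Finset.mem_filter] at hz
      have h4 := hy.2
      have h5 := hz.2
      have : (y : ℝ) + s ≤ (z : ℝ) - s := by linarith
      have h6 : y + s ≤ z - s := by exact_mod_cast this
      omega
    · rw [hT2', Finset.mem_image] at hx hy
      obtain ⟨z, hz, rfl⟩ := hx
      obtain ⟨z', hz', rfl⟩ := hy
      have := hsep z (hT2_sub hz) z' (hT2_sub hz') (by omega)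
      omega
  have hlo' : ∀ x ∈ T1 ∪ T2', lo ≤ x := by
    intro x hx
    rw [Finset.mem_union] at hx
    rcases hx with hx | hx
    · exact hlo x (hT1_sub hx)
    · rw [hT2', Finset.mem_image] at hx
      obtain ⟨z, hz, rfl⟩ := hx
      rw [hT2, Finset.mem_filter] at hz
      have h5 := hz.2
      have : (lo : ℝ) ≤ (z : ℝ) - s := by linarith
      exact_mod_cast this
  have key := tele_bdd hs.le hW (T1 ∪ T2') hS hlo' h0 hC
  rw [Finset.sum_union hdisj, hT2', Finset.sum_image hinj] at key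
  have k1 : s * ∑ x ∈ T1, w x ≤ ∑ x ∈ T1, (W (x + s) - W x) := by
    rw [Finset.mul_sum]
    refine Finset.sum_le_sum fun x hx => ?_
    rw [hT1, Finset.mem_filter] at hx
    exact h1 x hx.1 hx.2
  have k2 : s * ∑ x ∈ T2, w x ≤ ∑ x ∈ T2, (W (x - s + s) - W (x - s)) := by
    rw [Finset.mul_sum]
    refine Finset.sum_le_sum fun x hx => ?_
    have hx' := hT2_sub hx
    rw [hT2, Finset.mem_filter] at hx
    rw [sub_add_cancel]
    exact h2 x hx' hx.2
  have k3 : s * ∑ x ∈ T3, w x ≤ 2 * s * M := by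
    have := mul_le_mul_of_nonneg_left hT3s hs'.le
    linarith
  rw [e1]
  linarith

section fib
variable {β : Type*} [DecidableEq β]

/-- the fibre over the first coordinate -/
def fib (T : Finset (ℤ × β)) (a : ℤ) : Finset β := (T.filter (fun q => q.1 = a)).image Prod.snd

lemma mem_fib {T : Finset (ℤ × β)} {a : ℤ} {y : β} : y ∈ fib T a ↔ (a, y) ∈ T := by
  unfold fib
  rw [Finset.mem_image]
  constructor
  · rintro ⟨⟨a', y'⟩, h, rfl⟩
    rw [Finset.mem_filter] at h
    obtain ⟨h, h'⟩ := h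
    simp only at h'
    subst h'
    exact h
  · intro h
    exact ⟨(a, y), by rw [Finset.mem_filter]; exact ⟨h, rfl⟩, rfl⟩

lemma card_fib (T : Finset (ℤ × β)) : T.card = ∑ a ∈ T.image Prod.fst, (fib T a).card := by
  rw [Finset.card_eq_sum_card_fiberwise (f := Prod.fst) (t := T.image Prod.fst)
    (fun x hx => Finset.mem_coe.2 (Finset.mem_image_of_mem _ hx))]
  refine Finset.sum_congr rfl fun a _ => ?_
  unfold fib
  rw [Finset.card_image_of_injOn]
  rintro ⟨x, y⟩ hx ⟨x', y'⟩ hx' h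
  simp only [Finset.coe_filter, Set.mem_ofPred_eq] at hx hx' h
  rw [Prod.mk.injEq]
  exact ⟨hx.2.trans hx'.2.symm, h⟩

end fib

end Pool.Agent.K4H52.DH
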