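import Mathlib

/-! Binary cubic forms `(a, 3b, 3c, d)` with reduced data, and an involution on them. -/

set_option autoImplicit false

namespace Pool.Agent.K4H52.DH

/-- first coefficient of the Hessian of the cubic form `(a, 3b, 3c, d)` -/
def hA (a b c : ℤ) : ℤ := b ^ 2 - a * c
/-- middle coefficient -/
def hB (a b c d : ℤ) : ℤ := b * c - a * d
/-- last coefficient -/
def hC (b c d : ℤ) : ℤ := c ^ 2 - b * d
/-- minus the discriminant of the Hessian -/
def hn (a b c d : ℤ) : ℤ := 4 * hA a b c * hC b c d - hB a b c d ^ 2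

/-- the forms we count -/
def Quad (n a b c d : ℤ) : Prop :=
  1 ≤ a ∧ 0 ≤ b ∧ b < a ∧ 1 ≤ hA a b c ∧ 3 * hA a b c ^ 2 ≤ n ∧ hn a b c d = n

lemma hA_shift (a b c k : ℤ) : hA a (b + k * a) (c + 2 * k * b + k ^ 2 * a) = hA a b c := by
  unfold hA; ring

lemma hn_shift (a b c d k : ℤ) : hn a (b + k * a) (c + 2 * k * b + k ^ 2 * a)
    (d + 3 * k * c + 3 * k ^ 2 * b + k ^ 3 * a) = hn a b c d := by
  unfold hn hA hB hC; ring

lemma hA_neg (a b c : ℤ) : hA (-a) (-b) (-c) = hA a b c := by
  unfold hA; ring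

lemma hn_neg (a b c d : ℤ) : hn (-a) (-b) (-c) (-d) = hn a b c d := by
  unfold hn hA hB hC; ring

lemma exists_quad_aux (n a b c d : ℤ) (ha : 1 ≤ a) (h1 : 1 ≤ hA a b c)
    (h3 : 3 * hA a b c ^ 2 ≤ n) (h : hn a b c d = n) : ∃ b' c' d', Quad n a b' c' d' := by
  set k : ℤ := -(b / a) with hk
  refine ⟨b + k * a, c + 2 * k * b + k ^ 2 * a, d + 3 * k * c + 3 * k ^ 2 * b + k ^ 3 * a, ha,
    ?_, ?_, ?_, ?_, ?_⟩
  · have := Int.emod_nonneg b (show a ≠ 0 by omega)
    have h2 := Int.emod_add_mul_ediv b a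
    have : b + k * a = b % a := by rw [hk]; linear_combination -h2
    omega
  · have := Int.emod_lt_of_pos b (show 0 < a by omega)
    have h2 := Int.emod_add_mul_ediv b a
    have : b + k * a = b % a := by rw [hk]; linear_combination -h2
    omega
  · rw [hA_shift]; exact h1
  · rw [hA_shift]; exact h3
  · rw [hn_shift]; exact h

lemma exists_quad (n a b c d : ℤ) (ha : a ≠ 0) (h1 : 1 ≤ hA a b c)
    (h3 : 3 * hA a b c ^ 2 ≤ n) (h : hn a b c d = n) : ∃ a' b' c' d', Quad n a' b' c' d' := by
  rcases lt_or_gt_of_ne ha with h' | h'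
  · have e1 := hA_neg a b c
    have e2 := hn_neg a b c d
    obtain ⟨b', c', d', hq⟩ := exists_quad_aux n (-a) (-b) (-c) (-d) (by omega) (by rw [e1]; exact h1)
      (by rw [e1]; exact h3) (by rw [e2]; exact h)
    exact ⟨_, b', c', d', hq⟩
  · obtain ⟨b', c', d', hq⟩ := exists_quad_aux n a b c d (by omega) h1 h3 h
    exact ⟨_, b', c', d', hq⟩

/-- The forms come in pairs. -/
lemma exists_other (n a b c d : ℤ) (hs : Squarefree n) (h4 : n % 4 = 3) (h : Quad n a b c d) :
    ∃ b' c' d', Quad n a b' c' d' ∧ (a, b', c', d') ≠ (a, b, c, d) := by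
  obtain ⟨ha, hb, hba, h1, h3, hn'⟩ := h
  rcases eq_or_lt_of_le hb with h0 | h0
  · subst h0
    refine ⟨0, c, -d, ⟨ha, le_refl _, hba, h1, h3, ?_⟩, ?_⟩
    · rw [← hn']; unfold hn hA hB hC; ring
    · intro e
      simp only [Prod.mk.injEq, true_and] at e
      have hd : d = 0 := by omega
      subst hd
      unfold hn hA hB hC at hn'
      have : n = 4 * (-(a * c) * c ^ 2) := by linear_combination -hn'
      omega
  · refine ⟨a - b, c - 2 * b + a, -d + 3 * c - 3 * b + a, ⟨ha, by omega, by omega, ?_, ?_, ?_⟩, ?_⟩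
    · have : hA a (a - b) (c - 2 * b + a) = hA a b c := by unfold hA; ring
      rw [this]; exact h1
    · have : hA a (a - b) (c - 2 * b + a) = hA a b c := by unfold hA; ring
      rw [this]; exact h3
    · rw [← hn']; unfold hn hA hB hC; ring
    · intro e
      simp only [Prod.mk.injEq, true_and] at e
      obtain ⟨e1, e2, e3⟩ := e
      have ea : a = 2 * b := by omega
      have ed : 2 * d = 3 * c - b := by omega
      subst ea
      have hnn : n = b * (b - 2 * c) ^ 3 := by
        have : 2 * n = 2 * (b * (b - 2 * c) ^ 3) := by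
          rw [← hn']
          unfold hn hA hB hC
          have e5 : (2 * d) = 3 * c - b := ed
          have : 2 * (4 * (b ^ 2 - 2 * b * c) * (c ^ 2 - b * d) - (b * c - 2 * b * d) ^ 2) =
            2 * (2 * (b ^ 2 - 2 * b * c) * (2 * c ^ 2 - b * (2 * d)) - (b * c - b * (2 * d)) ^ 2) := by
            ring
          rw [this, e5]
          ring
        omega
      have hu : IsUnit (b - 2 * c) := by
        apply hs
        rw [hnn]
        exact ⟨b * (b - 2 * c), by ring⟩
      have hA1 : hA (2 * b) b c = b * (b - 2 * c) := by unfold hA; ring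
      rw [hA1] at h1 h3
      rcases Int.isUnit_iff.1 hu with h | h
      · rw [h] at hnn h3
        nlinarith
      · rw [h] at h1
        omega

end Pool.Agent.K4H52.DH
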