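import Pool.Agent.K4H1.EXT.P2a
import Pool.Agent.K4H52.DH.Quad

/-! From a class of order three in `ℚ(√-n)` to a cubic form. -/

set_option autoImplicit false

namespace Pool.Agent.K4H52.DH

open NumberField Module Pool.Agent.R441.CN Pool.Agent.K4H1.EXT

section alg

/-- The algebraic identities. -/
lemma key_identities {β E1 E2 F1 F2 a a' : ℂ} {Z W : Fin 4 → ℂ} {q : Fin 4 → ℤ} {M N1 N2 T n : ℤ}
    (hβ : β ≠ 0) (hβ2 : β ^ 2 = -(n : ℂ)) (hM : (M : ℂ) ≠ 0)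
    (hZ0 : a * Z 0 = E1 ^ 3) (hZ1 : a * Z 1 = E1 ^ 2 * E2) (hZ2 : a * Z 2 = E1 * E2 ^ 2)
    (hZ3 : a * Z 3 = E2 ^ 3)
    (hW0 : a' * W 0 = F1 ^ 3) (hW1 : a' * W 1 = F1 ^ 2 * F2) (hW2 : a' * W 2 = F1 * F2 ^ 2)
    (hW3 : a' * W 3 = F2 ^ 3)
    (hq : ∀ i, (q i : ℂ) * β = Z i - W i)
    (haa : a * a' = (M : ℂ) ^ 3) (hN1 : E1 * F1 = N1) (hN2 : E2 * F2 = N2)
    (hT : E1 * F2 + F1 * E2 = T)
    (hdet : (E1 * F2 - F1 * E2) ^ 2 = β ^ 2 * (M : ℂ) ^ 2) :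
    M * hA (q 0) (q 1) (q 2) = N1 ∧ hn (q 0) (q 1) (q 2) (q 3) = n := by
  have haa0 : a * a' ≠ 0 := by rw [haa]; exact pow_ne_zero _ hM
  -- the three identities, multiplied by β² (a a')
  have p0 : (q 0 : ℂ) * β * (a * a') = a' * E1 ^ 3 - a * F1 ^ 3 := by
    rw [hq]; linear_combination a' * hZ0 - a * hW0
  have p1 : (q 1 : ℂ) * β * (a * a') = a' * (E1 ^ 2 * E2) - a * (F1 ^ 2 * F2) := by
    rw [hq]; linear_combination a' * hZ1 - a * hW1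
  have p2 : (q 2 : ℂ) * β * (a * a') = a' * (E1 * E2 ^ 2) - a * (F1 * F2 ^ 2) := by
    rw [hq]; linear_combination a' * hZ2 - a * hW2
  have p3 : (q 3 : ℂ) * β * (a * a') = a' * E2 ^ 3 - a * F2 ^ 3 := by
    rw [hq]; linear_combination a' * hZ3 - a * hW3
  have hM3 : (M : ℂ) ^ 3 ≠ 0 := pow_ne_zero _ hM
  have hβ2' : β ^ 2 ≠ 0 := pow_ne_zero _ hβ
  -- A
  have A1 : ((q 1 : ℂ) ^ 2 - q 0 * q 2) * (M : ℂ) = N1 := by
    have h1 : (((q 1 : ℂ) ^ 2 - q 0 * q 2) * (a * a')) * (β ^ 2 * (a * a')) =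
        (E1 * F1) * (E1 * F2 - F1 * E2) ^ 2 * (a * a') := by
      have : (((q 1 : ℂ) ^ 2 - q 0 * q 2) * (a * a')) * (β ^ 2 * (a * a')) =
        ((q 1 : ℂ) * β * (a * a')) ^ 2 - ((q 0 : ℂ) * β * (a * a')) * ((q 2 : ℂ) * β * (a * a')) := by
        ring
      rw [this, p0, p1, p2]
      ring
    rw [hdet, hN1, haa] at h1
    have h2 : (β ^ 2 * (M : ℂ) ^ 3 * (M : ℂ) ^ 2) *
        (((q 1 : ℂ) ^ 2 - q 0 * q 2) * (M : ℂ) - N1) = 0 := by linear_combination h1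
    rcases mul_eq_zero.1 h2 with h | h
    · exact absurd h (mul_ne_zero (mul_ne_zero hβ2' hM3) (pow_ne_zero _ hM))
    · exact sub_eq_zero.1 h
  have C1 : ((q 2 : ℂ) ^ 2 - q 1 * q 3) * (M : ℂ) = N2 := by
    have h1 : (((q 2 : ℂ) ^ 2 - q 1 * q 3) * (a * a')) * (β ^ 2 * (a * a')) =
        (E2 * F2) * (E1 * F2 - F1 * E2) ^ 2 * (a * a') := by
      have : (((q 2 : ℂ) ^ 2 - q 1 * q 3) * (a * a')) * (β ^ 2 * (a * a')) =
        ((q 2 : ℂ) * β * (a * a')) ^ 2 - ((q 1 : ℂ) * β * (a * a')) * ((q 3 : ℂ) * β * (a * a')) := by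
        ring
      rw [this, p1, p2, p3]
      ring
    rw [hdet, hN2, haa] at h1
    have h2 : (β ^ 2 * (M : ℂ) ^ 3 * (M : ℂ) ^ 2) *
        (((q 2 : ℂ) ^ 2 - q 1 * q 3) * (M : ℂ) - N2) = 0 := by linear_combination h1
    rcases mul_eq_zero.1 h2 with h | h
    · exact absurd h (mul_ne_zero (mul_ne_zero hβ2' hM3) (pow_ne_zero _ hM))
    · exact sub_eq_zero.1 h
  have B1 : ((q 1 : ℂ) * q 2 - q 0 * q 3) * (M : ℂ) = T := by
    have h1 : (((q 1 : ℂ) * q 2 - q 0 * q 3) * (a * a')) * (β ^ 2 * (a * a')) =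
        (E1 * F2 + F1 * E2) * (E1 * F2 - F1 * E2) ^ 2 * (a * a') := by
      have : (((q 1 : ℂ) * q 2 - q 0 * q 3) * (a * a')) * (β ^ 2 * (a * a')) =
        ((q 1 : ℂ) * β * (a * a')) * ((q 2 : ℂ) * β * (a * a')) -
          ((q 0 : ℂ) * β * (a * a')) * ((q 3 : ℂ) * β * (a * a')) := by
        ring
      rw [this, p0, p1, p2, p3]
      ring
    rw [hdet, hT, haa] at h1
    have h2 : (β ^ 2 * (M : ℂ) ^ 3 * (M : ℂ) ^ 2) *
        (((q 1 : ℂ) * q 2 - q 0 * q 3) * (M : ℂ) - T) = 0 := by linear_combination h1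
    rcases mul_eq_zero.1 h2 with h | h
    · exact absurd h (mul_ne_zero (mul_ne_zero hβ2' hM3) (pow_ne_zero _ hM))
    · exact sub_eq_zero.1 h
  have hTN : 4 * (N1 : ℂ) * N2 - (T : ℂ) ^ 2 = n * (M : ℂ) ^ 2 := by
    rw [← hN1, ← hN2, ← hT]
    linear_combination -hdet - (M : ℂ) ^ 2 * hβ2
  constructor
  · have : ((M * hA (q 0) (q 1) (q 2) : ℤ) : ℂ) = (N1 : ℤ) := by
      unfold hA; push_cast; linear_combination A1
    exact_mod_cast this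
  · have : ((hn (q 0) (q 1) (q 2) (q 3) : ℤ) : ℂ) = (n : ℤ) := by
      have h2 : ((hn (q 0) (q 1) (q 2) (q 3) : ℤ) : ℂ) * (M : ℂ) ^ 2 = n * (M : ℂ) ^ 2 := by
        rw [← hTN, ← A1, ← B1, ← C1]
        unfold hn hA hB hC
        push_cast
        ring
      exact mul_right_cancel₀ (pow_ne_zero 2 hM) h2
    exact_mod_cast this

end alg

end Pool.Agent.K4H52.DH
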