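import Pool.Agent.K4H52.DH.Alg

/-! From a class of order three in `ℚ(√-n)` to a cubic form: the ring of integers. -/

set_option autoImplicit false

namespace Pool.Agent.K4H52.DH

open NumberField Module Pool.Agent.R441.CN Pool.Agent.K4H1.EXT

section
variable {K : Type*} [Field K] [NumberField K] {n : ℕ} {α : K}

/-- An integral basis `1, θ`. -/
lemma exists_basis (h2 : finrank ℚ K = 2) (hs : Squarefree n) (h4 : n % 4 = 3)
    (hα : α ^ 2 = -(n : K)) :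
    ∃ b : Basis (Fin 2) ℤ (𝓞 K), ∀ x : 𝓞 K,
      2 * (x : K) = ((2 * b.repr x 0 + b.repr x 1 : ℤ) : K) + ((b.repr x 1 : ℤ) : K) * α := by
  have hp0 : 0 < n := by omega
  obtain ⟨θ, hθ⟩ : ∃ θ : 𝓞 K, (θ : K) = (1 + α) / 2 := ⟨⟨_, int_omega hα h4⟩, rfl⟩
  have hθ' : (1 + α) / 2 = algebraMap ℚ K (1 / 2) + algebraMap ℚ K (1 / 2) * α := by
    simp only [map_div₀, map_one, map_ofNat]
    ring
  have hli := linInd_int hp0 hα _ (1 / 2) (1 / 2) (by norm_num) (by rw [hθ, hθ'])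
  have hsp : ∀ x : 𝓞 K, ∃ m u : ℤ, x = m + u * θ := by
    intro x
    obtain ⟨t, u, hd, hx⟩ := coords' h2 hp0 hs hα (x : K) x.2
    have hpz : (n : ℤ) % 4 = 3 := by omega
    have ht : (t - u) % 2 = 0 := by
      obtain ⟨c, hc⟩ := hd
      obtain ⟨q, hq⟩ : ∃ q : ℤ, (n : ℤ) = 4 * q + 3 := ⟨(n : ℤ) / 4, by omega⟩
      rw [hq] at hc
      rcases Int.emod_two_eq_zero_or_one t with h | h <;>
        rcases Int.emod_two_eq_zero_or_one u with h' | h'
      · omega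
      · exfalso
        obtain ⟨t', rfl⟩ : ∃ t', t = 2 * t' := ⟨t / 2, by omega⟩
        obtain ⟨u', rfl⟩ : ∃ u', u = 2 * u' + 1 := ⟨u / 2, by omega⟩
        have : 4 * (t' ^ 2 + q * (2 * u' + 1) ^ 2 + 3 * u' ^ 2 + 3 * u' - c) = -3 := by
          linear_combination hc
        omega
      · exfalso
        obtain ⟨t', rfl⟩ : ∃ t', t = 2 * t' + 1 := ⟨t / 2, by omega⟩
        obtain ⟨u', rfl⟩ : ∃ u', u = 2 * u' := ⟨u / 2, by omega⟩
        have : 4 * (t' ^ 2 + t' + 4 * q * u' ^ 2 + 3 * u' ^ 2 - c) = -1 := by linear_combination hc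
        omega
      · omega
    obtain ⟨m, hm⟩ : ∃ m, t = 2 * m + u := ⟨(t - u) / 2, by omega⟩
    subst hm
    refine ⟨m, u, ?_⟩
    apply RingOfIntegers.ext
    have e1 : (((m : 𝓞 K) + (u : 𝓞 K) * θ : 𝓞 K) : K) = m + u * ((1 + α) / 2) := by
      rw [coe_lin, hθ]
    rw [e1]
    have : (2 : K) ≠ 0 := two_ne_zero
    apply mul_left_cancel₀ this
    rw [hx]
    push_cast
    field_simp
    ring
  set b : Basis (Fin 2) ℤ (𝓞 K) := Basis.mk hli (by
    intro x _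
    obtain ⟨m, n, h⟩ := hsp x
    rw [h]
    have e1 : (m : 𝓞 K) = m • (1 : 𝓞 K) := by simp
    have e2 : (n : 𝓞 K) * θ = n • θ := by simp
    rw [e1, e2]
    apply Submodule.add_mem
    · apply Submodule.smul_mem
      apply Submodule.subset_span
      exact ⟨0, by simp⟩
    · apply Submodule.smul_mem
      apply Submodule.subset_span
      exact ⟨1, by simp⟩) with hb
  have hb0 : b 0 = 1 := by rw [hb, Basis.mk_apply]; simp
  have hb1 : b 1 = θ := by rw [hb, Basis.mk_apply]; simp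
  refine ⟨b, fun x => ?_⟩
  have h := b.sum_repr x
  rw [Fin.sum_univ_two, hb0, hb1] at h
  have h3 := congrArg (algebraMap (𝓞 K) K) h
  rw [map_add, map_zsmul, map_zsmul, map_one] at h3
  have h5 : (x : K) = (b.repr x 0 : K) + (b.repr x 1 : K) * ((1 + α) / 2) := by
    have h6 : (x : K) = algebraMap (𝓞 K) K x := rfl
    have h7 : algebraMap (𝓞 K) K θ = (1 + α) / 2 := hθ
    rw [h6, ← h3, h7]
    simp
  rw [h5]
  have : (2 : K) ≠ 0 := two_ne_zero
  push_cast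
  field_simp
  ring

/-- the norm form -/
def Nf (k m u : ℤ) : ℤ := m ^ 2 + m * u + k * u ^ 2

lemma Nf_nonneg {k : ℤ} (hk : 1 ≤ k) (m u : ℤ) : 0 ≤ Nf k m u := by
  unfold Nf; nlinarith [sq_nonneg (2 * m + u), sq_nonneg u]

lemma Nf_pos {k : ℤ} (hk : 1 ≤ k) {m u : ℤ} (h : m ≠ 0 ∨ u ≠ 0) : 0 < Nf k m u := by
  unfold Nf
  by_cases hu : u = 0
  · subst hu
    have hm : m ≠ 0 := by tauto
    have := sq_pos_of_ne_zero (R := ℤ) hm
    nlinarith
  · have := sq_pos_of_ne_zero (R := ℤ) hu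
    nlinarith [sq_nonneg (2 * m + u)]

/-- data of the integral basis used below -/
structure Dat (K : Type*) [Field K] [NumberField K] (n : ℕ) (α : K) (k : ℤ) where
  /-- the basis -/
  b : Basis (Fin 2) ℤ (𝓞 K)
  hb : ∀ x : 𝓞 K,
      2 * (x : K) = ((2 * b.repr x 0 + b.repr x 1 : ℤ) : K) + ((b.repr x 1 : ℤ) : K) * α
  hk : (n : ℤ) + 1 = 4 * k
  hk1 : 1 ≤ k
  h2 : finrank ℚ K = 2
  hs : Squarefree n
  hα : α ^ 2 = -(n : K)

namespace Dat
variable {k : ℤ} (D : Dat K n α k)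
include D

lemma n_pos : 0 < n := by have := D.hk; have := D.hk1; omega

lemma norm_eq (x : 𝓞 K) : Algebra.norm ℤ x = Nf k (D.b.repr x 0) (D.b.repr x 1) := by
  have h := norm_coords' D.h2 D.n_pos D.hα (x : K) _ _ (D.hb x)
  have h8 : ((Algebra.norm ℤ x : ℤ) : ℚ) = Algebra.norm ℚ (x : K) := Algebra.coe_norm_int _
  rw [← h8] at h
  have h9 : 4 * Algebra.norm ℤ x = (2 * D.b.repr x 0 + D.b.repr x 1) ^ 2 +
      n * (D.b.repr x 1) ^ 2 := by exact_mod_cast h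
  have hk := D.hk
  have hn : (n : ℤ) = 4 * k - 1 := by omega
  rw [hn] at h9
  unfold Nf
  have : 4 * Algebra.norm ℤ x = 4 * ((D.b.repr x 0) ^ 2 + D.b.repr x 0 * D.b.repr x 1 +
    k * (D.b.repr x 1) ^ 2) := by rw [h9]; ring
  omega

lemma norm_pos (x : 𝓞 K) (hx : x ≠ 0) : 0 < Algebra.norm ℤ x := by
  rw [D.norm_eq]
  apply Nf_pos D.hk1
  by_contra h
  push Not at h
  apply hx
  apply D.b.repr.injective
  ext i
  fin_cases i
  · simpa using h.1
  · simpa using h.2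

lemma absNorm_span (x : 𝓞 K) : (Ideal.absNorm (Ideal.span {x}) : ℤ) = Algebra.norm ℤ x := by
  rw [Ideal.absNorm_span_singleton]
  have : 0 ≤ Algebra.norm ℤ x := by rw [D.norm_eq]; exact Nf_nonneg D.hk1 _ _
  omega

/-- A vector of minimal norm in an ideal, and a complement. -/
lemma exists_min (I : Ideal (𝓞 K)) (hI : I ≠ ⊥) :
    ∃ e1 e2 : 𝓞 K, e1 ∈ I ∧ e2 ∈ I ∧ e1 ≠ 0 ∧
      (∀ e ∈ I, e ≠ 0 → Algebra.norm ℤ e1 ≤ Algebra.norm ℤ e) ∧
      (D.b.repr e1 0 * D.b.repr e2 1 - D.b.repr e2 0 * D.b.repr e1 1).natAbs =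
        Ideal.absNorm I := by
  classical
  have hex : ∃ m : ℕ, ∃ e ∈ I, e ≠ 0 ∧ (Algebra.norm ℤ e).toNat = m := by
    obtain ⟨e, he, he0⟩ := Submodule.exists_mem_ne_zero_of_ne_bot hI
    exact ⟨_, e, he, he0, rfl⟩
  obtain ⟨e1, he1, he10, he1m⟩ := Nat.find_spec hex
  have hmin : ∀ e ∈ I, e ≠ 0 → Algebra.norm ℤ e1 ≤ Algebra.norm ℤ e := by
    intro e he he0
    have h1 := Nat.find_min' hex ⟨e, he, he0, rfl⟩
    rw [← he1m] at h1
    have := D.norm_pos e he0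
    have := D.norm_pos e1 he10
    omega
  set f := Ideal.selfBasis D.b I hI with hf
  have hdet := Ideal.natAbs_det_basis_change D.b I f
  obtain ⟨x, y, hxy⟩ : ∃ x y : ℤ, e1 = x • (f 0 : 𝓞 K) + y • (f 1 : 𝓞 K) := by
    have h := f.sum_repr ⟨e1, he1⟩
    rw [Fin.sum_univ_two] at h
    have h3 := congrArg (Subtype.val) h
    exact ⟨_, _, by simpa using h3.symm⟩
  have hg : Int.gcd x y = 1 := by
    by_contra hg
    have hg0 : Int.gcd x y ≠ 0 := by
      intro h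
      rw [Int.gcd_eq_zero_iff] at h
      apply he10
      rw [hxy, h.1, h.2]
      simp
    obtain ⟨g, hgd⟩ : ∃ g : ℤ, g = ((Int.gcd x y : ℕ) : ℤ) := ⟨_, rfl⟩
    have hg2 : 2 ≤ g := by omega
    obtain ⟨x', hx'⟩ : g ∣ x := hgd ▸ Int.gcd_dvd_left x y
    obtain ⟨y', hy'⟩ : g ∣ y := hgd ▸ Int.gcd_dvd_right x y
    set e' : 𝓞 K := x' • (f 0 : 𝓞 K) + y' • (f 1 : 𝓞 K) with he'
    have he'I : e' ∈ I := I.add_mem (by
        rw [zsmul_eq_mul]; exact I.mul_mem_left _ (f 0).2) (by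
        rw [zsmul_eq_mul]; exact I.mul_mem_left _ (f 1).2)
    have h1 : e1 = g • e' := by
      rw [hxy, he', smul_add, smul_smul, smul_smul, ← hx', ← hy']
    have he'0 : e' ≠ 0 := by
      intro h
      apply he10
      rw [h1, h, smul_zero]
    have h2 := hmin e' he'I he'0
    have h3 : Algebra.norm ℤ e1 = g ^ 2 * Algebra.norm ℤ e' := by
      rw [D.norm_eq, D.norm_eq, h1, map_zsmul]
      simp only [Finsupp.smul_apply, smul_eq_mul]
      unfold Nf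
      ring
    have h4 := D.norm_pos e' he'0
    have h5 : 4 ≤ g ^ 2 := by nlinarith
    have h6 := mul_le_mul_of_nonneg_right h5 h4.le
    linarith
  have hco : IsCoprime x y := Int.isCoprime_iff_gcd_eq_one.2 hg
  obtain ⟨s, r, hsr⟩ := hco
  refine ⟨e1, (-r) • (f 0 : 𝓞 K) + s • (f 1 : 𝓞 K), he1, I.add_mem (by
        rw [zsmul_eq_mul]; exact I.mul_mem_left _ (f 0).2) (by
        rw [zsmul_eq_mul]; exact I.mul_mem_left _ (f 1).2), he10, hmin, ?_⟩
  rw [← hdet, Basis.det_apply, Matrix.det_fin_two, hxy]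
  simp only [map_add, map_zsmul, Finsupp.add_apply, Finsupp.smul_apply, smul_eq_mul,
    Basis.toMatrix_apply, Function.comp]
  congr 1
  linear_combination (D.b.repr (f 0 : 𝓞 K) 0 * D.b.repr (f 1 : 𝓞 K) 1 -
    D.b.repr (f 1 : 𝓞 K) 0 * D.b.repr (f 0 : 𝓞 K) 1) * hsr

end Dat
end

end Pool.Agent.K4H52.DH
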