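import Pool.Agent.K4H52.DH.Alg2

/-! From a class of order three in `ℚ(√-n)` to a cubic form: the main statement. -/

set_option autoImplicit false

namespace Pool.Agent.K4H52.DH

open NumberField Module Pool.Agent.R441.CN Pool.Agent.K4H1.EXT ComplexConjugate

section
variable {K : Type*} [Field K] [NumberField K] {n : ℕ} {α : K} {k : ℤ}

lemma exists_dat (h2 : finrank ℚ K = 2) (hs : Squarefree n) (h4 : n % 4 = 3)
    (hα : α ^ 2 = -(n : K)) : ∃ k : ℤ, Nonempty (Dat K n α k) := by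
  obtain ⟨b, hb⟩ := exists_basis h2 hs h4 hα
  exact ⟨((n : ℤ) + 1) / 4, ⟨⟨b, hb, by omega, by omega, h2, hs, hα⟩⟩⟩

namespace Dat
variable (D : Dat K n α k)
include D

lemma conj_beta (φ : K →+* ℂ) : conj (φ α) = -φ α := by
  have h : (φ α) ^ 2 = -(n : ℂ) := by rw [← map_pow, D.hα]; simp
  have hn : (0 : ℝ) < n := by exact_mod_cast D.n_pos
  have h1 := congrArg Complex.re h
  have h2 := congrArg Complex.im h
  simp only [sq, Complex.mul_re, Complex.mul_im, Complex.neg_re, Complex.neg_im, Complex.natCast_re,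
    Complex.natCast_im, neg_zero] at h1 h2
  have h3 : (φ α).re * (φ α).im = 0 := by linarith
  rcases mul_eq_zero.1 h3 with h | h
  · apply Complex.ext
    · simp [h]
    · simp
  · exfalso
    rw [h] at h1
    nlinarith [mul_self_nonneg (φ α).re]

/-- the key computation -/
lemma main_identities (I : Ideal (𝓞 K)) (hI : I ≠ ⊥) (a0 : 𝓞 K) (hI3 : I ^ 3 = Ideal.span {a0})
    (e1 e2 : 𝓞 K) (he1 : e1 ∈ I) (he2 : e2 ∈ I)
    (hdet : (D.b.repr e1 0 * D.b.repr e2 1 - D.b.repr e2 0 * D.b.repr e1 1).natAbs =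
        Ideal.absNorm I) :
    ∃ a b c d : ℤ, Ideal.absNorm I * hA a b c = Algebra.norm ℤ e1 ∧ hn a b c d = n := by
  obtain ⟨φ⟩ : Nonempty (K →+* ℂ) := inferInstance
  have hβ2 : (φ α) ^ 2 = -((n : ℤ) : ℂ) := by rw [← map_pow, D.hα]; simp
  have hn0 : (n : ℂ) ≠ 0 := by exact_mod_cast D.n_pos.ne'
  have hβ : φ α ≠ 0 := by
    intro h
    rw [h] at hβ2
    apply hn0
    have : (0 : ℂ) ^ 2 = -(n : ℂ) := by simpa using hβ2
    linear_combination this
  have hcβ := D.conj_beta φ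
  -- coordinates of the image
  have hφ : ∀ x : 𝓞 K, 2 * φ (x : K) = ((2 * D.b.repr x 0 + D.b.repr x 1 : ℤ) : ℂ) +
      ((D.b.repr x 1 : ℤ) : ℂ) * φ α := by
    intro x
    have h := congrArg φ (D.hb x)
    rw [map_mul, map_add, map_mul, map_intCast, map_intCast, map_ofNat] at h
    exact h
  have hφc : ∀ x : 𝓞 K, 2 * conj (φ (x : K)) = ((2 * D.b.repr x 0 + D.b.repr x 1 : ℤ) : ℂ) -
      ((D.b.repr x 1 : ℤ) : ℂ) * φ α := by
    intro x
    have h := congrArg (starRingEnd ℂ) (hφ x)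
    rw [map_mul, map_add, map_mul, hcβ, Complex.conj_ofNat] at h
    rw [h, map_intCast, map_intCast]
    ring
  have hk : ((n : ℤ) : ℂ) + 1 = 4 * (k : ℂ) := by exact_mod_cast congrArg (Int.cast : ℤ → ℂ) D.hk
  have hN : ∀ x : 𝓞 K, φ (x : K) * conj (φ (x : K)) = ((Algebra.norm ℤ x : ℤ) : ℂ) := by
    intro x
    have h1 := hφ x
    have h2 := hφc x
    have h3 : 4 * (φ (x : K) * conj (φ (x : K))) = 4 * ((Algebra.norm ℤ x : ℤ) : ℂ) := by
      have : 4 * (φ (x : K) * conj (φ (x : K))) = (2 * φ (x : K)) * (2 * conj (φ (x : K))) := by ring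
      rw [this, h1, h2, D.norm_eq]
      unfold Nf
      push_cast
      linear_combination -((D.b.repr x 1 : ℤ) : ℂ) ^ 2 * hβ2 + ((D.b.repr x 1 : ℤ) : ℂ) ^ 2 * hk
    exact mul_left_cancel₀ (by norm_num) h3
  -- membership in the cube
  have hmem : ∀ x y z : 𝓞 K, x ∈ I → y ∈ I → z ∈ I → ∃ w : 𝓞 K, a0 * w = x * y * z := by
    intro x y z hx hy hz
    have h : x * y * z ∈ I ^ 3 := by
      have e : I ^ 3 = I * I * I := by ring
      rw [e]
      exact Ideal.mul_mem_mul (Ideal.mul_mem_mul hx hy) hz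
    rw [hI3, Ideal.mem_span_singleton] at h
    obtain ⟨w, hw⟩ := h
    exact ⟨w, hw.symm⟩
  obtain ⟨z0, hz0⟩ := hmem e1 e1 e1 he1 he1 he1
  obtain ⟨z1, hz1⟩ := hmem e1 e1 e2 he1 he1 he2
  obtain ⟨z2, hz2⟩ := hmem e1 e2 e2 he1 he2 he2
  obtain ⟨z3, hz3⟩ := hmem e2 e2 e2 he2 he2 he2
  obtain ⟨M, hM⟩ : ∃ M : ℤ, M = ((Ideal.absNorm I : ℕ) : ℤ) := ⟨_, rfl⟩
  have hM0 : (M : ℂ) ≠ 0 := by
    have : Ideal.absNorm I ≠ 0 := by
      intro h
      exact hI (Ideal.absNorm_eq_zero_iff.1 h)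
    rw [hM]
    exact_mod_cast this
  have haa : φ (a0 : K) * conj (φ (a0 : K)) = (M : ℂ) ^ 3 := by
    rw [hN, ← D.absNorm_span, ← hI3, map_pow, hM]
    push_cast
    ring
  -- the trace form
  set T : ℤ := 2 * D.b.repr e1 0 * D.b.repr e2 0 + D.b.repr e1 0 * D.b.repr e2 1 +
    D.b.repr e2 0 * D.b.repr e1 1 + 2 * k * (D.b.repr e1 1 * D.b.repr e2 1) with hT
  have hTe : φ (e1 : K) * conj (φ (e2 : K)) + conj (φ (e1 : K)) * φ (e2 : K) = (T : ℂ) := by
    have h3 : 4 * (φ (e1 : K) * conj (φ (e2 : K)) + conj (φ (e1 : K)) * φ (e2 : K)) = 4 * (T : ℂ) := by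
      have : 4 * (φ (e1 : K) * conj (φ (e2 : K)) + conj (φ (e1 : K)) * φ (e2 : K)) =
        (2 * φ (e1 : K)) * (2 * conj (φ (e2 : K))) + (2 * conj (φ (e1 : K))) * (2 * φ (e2 : K)) := by
        ring
      rw [this, hφ, hφ, hφc, hφc, hT]
      push_cast
      linear_combination -2 * ((D.b.repr e1 1 : ℤ) : ℂ) * ((D.b.repr e2 1 : ℤ) : ℂ) * hβ2 +
        2 * ((D.b.repr e1 1 : ℤ) : ℂ) * ((D.b.repr e2 1 : ℤ) : ℂ) * hk
    exact mul_left_cancel₀ (by norm_num) h3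
  have hdetC : (φ (e1 : K) * conj (φ (e2 : K)) - conj (φ (e1 : K)) * φ (e2 : K)) ^ 2 =
      (φ α) ^ 2 * (M : ℂ) ^ 2 := by
    have h3 : 4 * (φ (e1 : K) * conj (φ (e2 : K)) - conj (φ (e1 : K)) * φ (e2 : K)) =
        4 * (-(φ α) * ((D.b.repr e1 0 * D.b.repr e2 1 - D.b.repr e2 0 * D.b.repr e1 1 : ℤ) : ℂ)) := by
      have : 4 * (φ (e1 : K) * conj (φ (e2 : K)) - conj (φ (e1 : K)) * φ (e2 : K)) =
        (2 * φ (e1 : K)) * (2 * conj (φ (e2 : K))) - (2 * conj (φ (e1 : K))) * (2 * φ (e2 : K)) := by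
        ring
      rw [this, hφ, hφ, hφc, hφc]
      push_cast
      ring
    have h4 := mul_left_cancel₀ (by norm_num) h3
    rw [h4]
    have h5 : (D.b.repr e1 0 * D.b.repr e2 1 - D.b.repr e2 0 * D.b.repr e1 1 : ℤ) ^ 2 = M ^ 2 := by
      rw [hM, ← hdet, Int.natCast_natAbs, sq_abs]
    have h6 : (((D.b.repr e1 0 * D.b.repr e2 1 - D.b.repr e2 0 * D.b.repr e1 1 : ℤ) : ℂ)) ^ 2 =
        (M : ℂ) ^ 2 := by exact_mod_cast congrArg (Int.cast : ℤ → ℂ) h5
    rw [mul_pow, h6]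
    ring
  have hcoe : ∀ x y z w : 𝓞 K, a0 * w = x * y * z → φ (a0 : K) * φ (w : K) =
      φ (x : K) * φ (y : K) * φ (z : K) := by
    intro x y z w h
    have h1 := congrArg (fun t : 𝓞 K => φ (t : K)) h
    simpa using h1
  have hq : ∀ z : 𝓞 K, ((D.b.repr z 1 : ℤ) : ℂ) * φ α = φ (z : K) - conj (φ (z : K)) := by
    intro z
    have h1 := hφ z
    have h2 := hφc z
    have h3 : 2 * (((D.b.repr z 1 : ℤ) : ℂ) * φ α) = 2 * (φ (z : K) - conj (φ (z : K))) := by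
      linear_combination h2 - h1
    exact mul_left_cancel₀ (by norm_num) h3
  have c0 := hcoe _ _ _ _ hz0
  have c1 := hcoe _ _ _ _ hz1
  have c2 := hcoe _ _ _ _ hz2
  have c3 := hcoe _ _ _ _ hz3
  have d0 := congrArg (starRingEnd ℂ) c0
  have d1 := congrArg (starRingEnd ℂ) c1
  have d2 := congrArg (starRingEnd ℂ) c2
  have d3 := congrArg (starRingEnd ℂ) c3
  simp only [map_mul] at d0 d1 d2 d3
  have key := key_identities (β := φ α) (E1 := φ (e1 : K)) (E2 := φ (e2 : K))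
    (F1 := conj (φ (e1 : K))) (F2 := conj (φ (e2 : K))) (a := φ (a0 : K)) (a' := conj (φ (a0 : K)))
    (Z := ![φ (z0 : K), φ (z1 : K), φ (z2 : K), φ (z3 : K)])
    (W := ![conj (φ (z0 : K)), conj (φ (z1 : K)), conj (φ (z2 : K)), conj (φ (z3 : K))])
    (q := ![D.b.repr z0 1, D.b.repr z1 1, D.b.repr z2 1, D.b.repr z3 1])
    (M := M) (N1 := Algebra.norm ℤ e1) (N2 := Algebra.norm ℤ e2) (T := T) (n := (n : ℤ))
    hβ hβ2 hM0 (by simp only [Matrix.cons_val]; rw [c0]; ring)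
    (by simp only [Matrix.cons_val]; rw [c1]; ring)
    (by simp only [Matrix.cons_val]; rw [c2]; ring)
    (by simp only [Matrix.cons_val]; rw [c3]; ring)
    (by simp only [Matrix.cons_val]; rw [d0]; ring)
    (by simp only [Matrix.cons_val]; rw [d1]; ring)
    (by simp only [Matrix.cons_val]; rw [d2]; ring)
    (by simp only [Matrix.cons_val]; rw [d3]; ring)
    (by intro i; fin_cases i <;> exact hq _) haa (hN e1) (hN e2) hTe hdetC
  rw [hM] at key
  exact ⟨_, _, _, _, key⟩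

end Dat
end

end Pool.Agent.K4H52.DH
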