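import Pool.Agent.K4H52.DH.Alg3

/-! From a class of order three in `ℚ(√-n)` to a cubic form: conclusion. -/

set_option autoImplicit false

namespace Pool.Agent.K4H52.DH

open NumberField Module Pool.Agent.R441.CN Pool.Agent.K4H1.EXT ComplexConjugate

section
variable {K : Type*} [Field K] [NumberField K] {n : ℕ} {α : K} {k : ℤ}

namespace Dat
variable (D : Dat K n α k)
include D

lemma reduced (I : Ideal (𝓞 K)) (hI : I ≠ ⊥) (e1 e2 : 𝓞 K) (he1 : e1 ∈ I) (he2 : e2 ∈ I)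
    (h10 : e1 ≠ 0) (hmin : ∀ e ∈ I, e ≠ 0 → Algebra.norm ℤ e1 ≤ Algebra.norm ℤ e)
    (hdet : (D.b.repr e1 0 * D.b.repr e2 1 - D.b.repr e2 0 * D.b.repr e1 1).natAbs =
        Ideal.absNorm I) : 3 * (Algebra.norm ℤ e1) ^ 2 ≤ n * (Ideal.absNorm I : ℤ) ^ 2 := by
  have hM0 : Ideal.absNorm I ≠ 0 := fun h => hI (Ideal.absNorm_eq_zero_iff.1 h)
  have hN1 := D.norm_pos e1 h10
  have hk := D.hk
  have hsq : (Ideal.absNorm I : ℤ) ^ 2 =
      (D.b.repr e1 0 * D.b.repr e2 1 - D.b.repr e2 0 * D.b.repr e1 1) ^ 2 := by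
    rw [← hdet, Int.natCast_natAbs, sq_abs]
  have hdet0 : D.b.repr e1 0 * D.b.repr e2 1 - D.b.repr e2 0 * D.b.repr e1 1 ≠ 0 := by
    intro h
    rw [h] at hdet
    simp at hdet
    exact hM0 hdet.symm
  set m1 := D.b.repr e1 0 with hm1
  set u1 := D.b.repr e1 1 with hu1
  set m2 := D.b.repr e2 0 with hm2
  set u2 := D.b.repr e2 1 with hu2
  have hN1e : Algebra.norm ℤ e1 = Nf k m1 u1 := D.norm_eq e1
  set N1 := Algebra.norm ℤ e1 with hN1d
  set T : ℤ := 2 * m1 * m2 + m1 * u2 + m2 * u1 + 2 * k * (u1 * u2) with hT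
  -- the shift
  obtain ⟨j, hj1, hj2⟩ : ∃ j : ℤ, -N1 ≤ T + 2 * j * N1 ∧ T + 2 * j * N1 ≤ N1 := by
    refine ⟨-((T + N1) / (2 * N1)), ?_, ?_⟩
    · have h1 := Int.emod_add_mul_ediv (T + N1) (2 * N1)
      have h2 := Int.emod_nonneg (T + N1) (show 2 * N1 ≠ 0 by omega)
      nlinarith
    · have h1 := Int.emod_add_mul_ediv (T + N1) (2 * N1)
      have h2 := Int.emod_lt_of_pos (T + N1) (show 0 < 2 * N1 by omega)
      nlinarith
  have he' : e2 + j • e1 ∈ I := I.add_mem he2 (by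
    rw [zsmul_eq_mul]; exact I.mul_mem_left _ he1)
  have he'0 : e2 + j • e1 ≠ 0 := by
    intro h
    have h1 : D.b.repr (e2 + j • e1) = 0 := by rw [h, map_zero]
    have h2 : D.b.repr (e2 + j • e1) 0 = 0 := by rw [h1]; rfl
    have h3 : D.b.repr (e2 + j • e1) 1 = 0 := by rw [h1]; rfl
    simp only [map_add, map_zsmul, Finsupp.add_apply, Finsupp.smul_apply, smul_eq_mul] at h2 h3
    apply hdet0
    rw [← hm1, ← hm2] at h2
    rw [← hu1, ← hu2] at h3
    linear_combination m1 * h3 - u1 * h2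
  have h5 := hmin _ he' he'0
  have h6 : Algebra.norm ℤ (e2 + j • e1) = Nf k (m2 + j * m1) (u2 + j * u1) := by
    rw [D.norm_eq]
    simp only [map_add, map_zsmul, Finsupp.add_apply, Finsupp.smul_apply, smul_eq_mul]
    rw [← hm1, ← hm2, ← hu1, ← hu2]
  rw [h6] at h5
  have h7 : 4 * N1 * Nf k (m2 + j * m1) (u2 + j * u1) - (T + 2 * j * N1) ^ 2 =
      n * (Ideal.absNorm I : ℤ) ^ 2 := by
    rw [hsq, hT, hN1e]
    have hn : (n : ℤ) = 4 * k - 1 := by omega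
    rw [hn]
    unfold Nf
    ring
  rw [← h7]
  have h8 : (T + 2 * j * N1) ^ 2 ≤ N1 ^ 2 := by nlinarith
  nlinarith

theorem exists_quad_of_class (h3 : 3 ∣ Fintype.card (ClassGroup (𝓞 K))) :
    ∃ a b c d : ℤ, Quad n a b c d := by
  haveI : Fact (Nat.Prime 3) := ⟨Nat.prime_three⟩
  obtain ⟨c, hc⟩ := exists_prime_orderOf_dvd_card 3 h3
  obtain ⟨⟨I, hI0⟩, rfl⟩ := ClassGroup.mk0_surjective c
  have hI : I ≠ ⊥ := mem_nonZeroDivisors_iff_ne_zero.1 hI0
  have hnp : ¬ I.IsPrincipal := by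
    intro h
    rw [← ClassGroup.mk0_eq_one_iff hI0] at h
    rw [h, orderOf_one] at hc
    omega
  have h3p : (I ^ 3).IsPrincipal := by
    rw [← ClassGroup.mk0_eq_one_iff (pow_mem hI0 3)]
    have h := pow_orderOf_eq_one (ClassGroup.mk0 ⟨I, hI0⟩)
    rw [hc, ← map_pow] at h
    exact h
  obtain ⟨a0, ha0⟩ := h3p
  have hI3 : I ^ 3 = Ideal.span {a0} := ha0
  obtain ⟨e1, e2, he1, he2, h10, hmin, hdet⟩ := D.exists_min I hI
  obtain ⟨a, b, c, d, hA1, hn1⟩ := D.main_identities I hI a0 hI3 e1 e2 he1 he2 hdet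
  have hred := D.reduced I hI e1 e2 he1 he2 h10 hmin hdet
  have hN1 := D.norm_pos e1 h10
  have hM0 : Ideal.absNorm I ≠ 0 := fun h => hI (Ideal.absNorm_eq_zero_iff.1 h)
  have hM : (0 : ℤ) < Ideal.absNorm I := by exact_mod_cast Nat.pos_of_ne_zero hM0
  have hA : 1 ≤ hA a b c := by
    by_contra h
    push Not at h
    have : (Ideal.absNorm I : ℤ) * hA a b c ≤ 0 := by nlinarith
    omega
  have hA3 : 3 * DH.hA a b c ^ 2 ≤ n := by
    rw [← hA1] at hred
    have h1 : (Ideal.absNorm I : ℤ) ^ 2 * (3 * DH.hA a b c ^ 2) ≤ (Ideal.absNorm I : ℤ) ^ 2 * n := by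
      nlinarith
    exact le_of_mul_le_mul_left h1 (by positivity)
  refine exists_quad n a b c d ?_ hA hA3 hn1
  rintro rfl
  -- then the ideal is principal
  have hb : IsUnit b := by
    have hs : Squarefree (n : ℤ) := Int.squarefree_natCast.2 D.hs
    apply hs
    rw [← hn1]
    exact ⟨3 * c ^ 2 - 4 * b * d, by unfold hn DH.hA hB hC; ring⟩
  have hA' : DH.hA 0 b c = 1 := by
    unfold DH.hA
    rcases Int.isUnit_iff.1 hb with h | h <;> rw [h] <;> ring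
  rw [hA', mul_one] at hA1
  apply hnp
  have hle : Ideal.span {e1} ≤ I := by
    rw [Ideal.span_singleton_le_iff_mem]; exact he1
  obtain ⟨J, hJ⟩ := Ideal.dvd_iff_le.2 hle
  have h5 := D.absNorm_span e1
  rw [← hA1, hJ, map_mul] at h5
  have h6 : Ideal.absNorm J = 1 := by
    have : (Ideal.absNorm I : ℤ) * (Ideal.absNorm J : ℤ) = (Ideal.absNorm I : ℤ) * 1 := by
      rw [mul_one]; exact_mod_cast h5
    exact_mod_cast mul_left_cancel₀ hM.ne' this
  rw [Ideal.absNorm_eq_one_iff] at h6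
  rw [h6, Ideal.mul_top] at hJ
  exact ⟨e1, hJ.symm⟩

end Dat

/-- If three divides the class number, there is a cubic form. -/
theorem exists_quad_of_three_dvd (n : ℕ) (hs : Squarefree n) (h4 : n % 4 = 3) (K : Type) [Field K]
    [NumberField K] (h2 : finrank ℚ K = 2) (hx : ∃ x : K, x ^ 2 = -(n : K))
    (h3 : 3 ∣ Fintype.card (ClassGroup (𝓞 K))) : ∃ a b c d : ℤ, Quad n a b c d := by
  obtain ⟨x, hx⟩ := hx
  obtain ⟨k, ⟨D⟩⟩ := exists_dat h2 hs h4 hx
  exact D.exists_quad_of_class h3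

end

end Pool.Agent.K4H52.DH
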