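import Mathlib

/-! The unimodal function `ω` and its integral. -/

set_option autoImplicit false

namespace Pool.Agent.K4H52.DH

open Real

/-- `ω(u) = 2 (√(1 - 3u²/4) - √(1 - u²)) / u²` -/
noncomputable def om (u : ℝ) : ℝ := 2 * (√(1 - 3 / 4 * u ^ 2) - √(1 - u ^ 2)) / u ^ 2

/-- the constant `q = √3/2` -/
noncomputable def q0 : ℝ := √3 / 2

lemma q0_sq : q0 ^ 2 = 3 / 4 := by
  unfold q0; rw [div_pow, sq_sqrt (by norm_num)]; norm_num

lemma q0_pos : 0 < q0 := by unfold q0; positivity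

lemma q0_lt : q0 < 1 := by
  have := q0_sq
  nlinarith [q0_pos]

/-- the primitive of `1/(1+√(1-u²))` -/
noncomputable def Ph (u : ℝ) : ℝ := arcsin u - u / (1 + √(1 - u ^ 2))

lemma Ph_cont : Continuous Ph := by
  unfold Ph
  refine continuous_arcsin.sub (continuous_id.div (by fun_prop) fun x => ?_)
  positivity

lemma Ph_deriv {u : ℝ} (h0 : 0 < u) (h1 : u < 1) : HasDerivAt Ph (1 / (1 + √(1 - u ^ 2))) u := by
  have hs : 0 < 1 - u ^ 2 := by nlinarith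
  have hsq : 0 < √(1 - u ^ 2) := sqrt_pos.2 hs
  have hss : √(1 - u ^ 2) ^ 2 = 1 - u ^ 2 := sq_sqrt hs.le
  have d1 := hasDerivAt_arcsin (x := u) (by linarith) (by linarith)
  have d2 : HasDerivAt (fun u : ℝ => 1 - u ^ 2) (-(2 * u)) u := by
    have := (hasDerivAt_pow 2 u).const_sub 1
    simpa using this
  have d3 := d2.sqrt hs.ne'
  have d4 : HasDerivAt (fun u : ℝ => 1 + √(1 - u ^ 2)) (-(2 * u) / (2 * √(1 - u ^ 2))) u :=
    d3.const_add 1
  have d5 := (hasDerivAt_id u).div d4 (by positivity)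
  have d6 := d1.sub d5
  have e : 1 / √(1 - u ^ 2) - (1 * (1 + √(1 - u ^ 2)) - id u * (-(2 * u) / (2 * √(1 - u ^ 2)))) /
      (1 + √(1 - u ^ 2)) ^ 2 = 1 / (1 + √(1 - u ^ 2)) := by
    simp only [id]
    have h3 : (1 + √(1 - u ^ 2)) ≠ 0 := by positivity
    field_simp
    have : u ^ 2 = 1 - √(1 - u ^ 2) ^ 2 := by rw [hss]; ring
    nlinarith [this]
  rw [← e]
  exact d6

lemma Ph_deriv_q {u : ℝ} (h0 : 0 < u) (h1 : q0 * u < 1) :
    HasDerivAt (fun u => Ph (q0 * u)) (q0 / (1 + √(1 - 3 / 4 * u ^ 2))) u := by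
  have h := Ph_deriv (u := q0 * u) (mul_pos q0_pos h0) h1
  have h2 : HasDerivAt (fun u : ℝ => q0 * u) q0 u := by
    simpa using (hasDerivAt_id u).const_mul q0
  have h3 := HasDerivAt.comp u h h2
  rw [mul_pow, q0_sq] at h3
  have e : q0 / (1 + √(1 - 3 / 4 * u ^ 2)) = 1 / (1 + √(1 - 3 / 4 * u ^ 2)) * q0 := by ring
  rw [e]
  exact h3

/-- first piece -/
noncomputable def Om1 (u : ℝ) : ℝ := 2 * Ph u - 2 * q0 * Ph (q0 * u)
/-- second piece -/
noncomputable def Om2 (u : ℝ) : ℝ := π - 2 / u - 2 * q0 * Ph (q0 * u)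

/-- The primitive of `ω`. -/
noncomputable def Om (u : ℝ) : ℝ :=
  if u ≤ 1 then Om1 u else if q0 * u ≤ 1 then Om2 u else π * (1 - q0)

lemma om_eq1 {u : ℝ} (h0 : 0 < u) (h1 : u ≤ 1) :
    om u = (1 / 2) / (√(1 - 3 / 4 * u ^ 2) + √(1 - u ^ 2)) := by
  unfold om
  have hs : 0 ≤ 1 - u ^ 2 := by nlinarith
  have hs' : 0 < 1 - 3 / 4 * u ^ 2 := by nlinarith
  have h2 : √(1 - u ^ 2) ^ 2 = 1 - u ^ 2 := sq_sqrt hs
  have h3 : √(1 - 3 / 4 * u ^ 2) ^ 2 = 1 - 3 / 4 * u ^ 2 := sq_sqrt hs'.le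
  have h4 : 0 < √(1 - 3 / 4 * u ^ 2) := sqrt_pos.2 hs'
  have h5 : 0 < √(1 - 3 / 4 * u ^ 2) + √(1 - u ^ 2) := by positivity
  rw [div_eq_div_iff (by positivity) h5.ne']
  linear_combination 2 * h3 - 2 * h2

lemma om_deriv1 {u : ℝ} (h0 : 0 < u) (h1 : u < 1) : HasDerivAt Om1 (om u) u := by
  have hq := q0_lt
  have hq0 := q0_pos
  have d1 := (Ph_deriv h0 h1).const_mul 2
  have d2 := (Ph_deriv_q h0 (by nlinarith)).const_mul (2 * q0)
  have d3 := d1.sub d2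
  have hs : 0 ≤ 1 - u ^ 2 := by nlinarith
  have hs' : 0 < 1 - 3 / 4 * u ^ 2 := by nlinarith
  have h2 : √(1 - u ^ 2) ^ 2 = 1 - u ^ 2 := sq_sqrt hs
  have h3 : √(1 - 3 / 4 * u ^ 2) ^ 2 = 1 - 3 / 4 * u ^ 2 := sq_sqrt hs'.le
  have e : 2 * (1 / (1 + √(1 - u ^ 2))) - 2 * q0 * (q0 / (1 + √(1 - 3 / 4 * u ^ 2))) = om u := by
    have e1 : 1 / (1 + √(1 - u ^ 2)) = (1 - √(1 - u ^ 2)) / u ^ 2 := by
      rw [div_eq_div_iff (by positivity) (by positivity)]
      linear_combination h2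
    have e2 : 2 * q0 * (q0 / (1 + √(1 - 3 / 4 * u ^ 2))) = 2 * (1 - √(1 - 3 / 4 * u ^ 2)) / u ^ 2 := by
      have : 2 * q0 * (q0 / (1 + √(1 - 3 / 4 * u ^ 2))) = 2 * q0 ^ 2 / (1 + √(1 - 3 / 4 * u ^ 2)) := by
        ring
      rw [this, q0_sq, div_eq_div_iff (by positivity) (by positivity)]
      linear_combination 2 * h3
    rw [e1, e2]
    unfold om
    ring
  rw [← e]
  exact d3

lemma om_deriv2 {u : ℝ} (h0 : 1 < u) (h1 : q0 * u < 1) : HasDerivAt Om2 (om u) u := by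
  have hu : 0 < u := by linarith
  have hq0 := q0_pos
  have d1 : HasDerivAt (fun u : ℝ => π - 2 / u) (2 / u ^ 2) u := by
    have h := ((hasDerivAt_inv hu.ne').const_mul 2).const_sub π
    have e : (fun x : ℝ => π - 2 * x⁻¹) = fun u : ℝ => π - 2 / u := by
      funext x; rw [div_eq_mul_inv]
    rw [e] at h
    have e2 : 2 / u ^ 2 = -(2 * -(u ^ 2)⁻¹) := by ring
    rw [e2]
    exact h
  have d2 := (Ph_deriv_q hu h1).const_mul (2 * q0)
  have d3 := d1.sub d2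
  have hs' : 0 < 1 - 3 / 4 * u ^ 2 := by
    rw [← q0_sq]
    have : (q0 * u) ^ 2 < 1 := by nlinarith [mul_pos hq0 hu]
    nlinarith
  have h2 : √(1 - u ^ 2) = 0 := sqrt_eq_zero_of_nonpos (by nlinarith)
  have h3 : √(1 - 3 / 4 * u ^ 2) ^ 2 = 1 - 3 / 4 * u ^ 2 := sq_sqrt hs'.le
  have e : 2 / u ^ 2 - 2 * q0 * (q0 / (1 + √(1 - 3 / 4 * u ^ 2))) = om u := by
    have e2 : 2 * q0 * (q0 / (1 + √(1 - 3 / 4 * u ^ 2))) = 2 * (1 - √(1 - 3 / 4 * u ^ 2)) / u ^ 2 := by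
      have : 2 * q0 * (q0 / (1 + √(1 - 3 / 4 * u ^ 2))) = 2 * q0 ^ 2 / (1 + √(1 - 3 / 4 * u ^ 2)) := by
        ring
      rw [this, q0_sq, div_eq_div_iff (by positivity) (by positivity)]
      linear_combination 2 * h3
    rw [e2]
    unfold om
    rw [h2]
    ring
  rw [← e]
  exact d3

lemma om_eq2 {u : ℝ} (h0 : 1 ≤ u) : om u = 2 * √(1 - 3 / 4 * u ^ 2) / u ^ 2 := by
  unfold om
  have h2 : √(1 - u ^ 2) = 0 := sqrt_eq_zero_of_nonpos (by nlinarith)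
  rw [h2, sub_zero]

lemma om_mono {u v : ℝ} (h0 : 0 < u) (huv : u ≤ v) (h1 : v ≤ 1) : om u ≤ om v := by
  rw [om_eq1 h0 (huv.trans h1), om_eq1 (h0.trans_le huv) h1]
  have h3 : √(1 - 3 / 4 * v ^ 2) ≤ √(1 - 3 / 4 * u ^ 2) := sqrt_le_sqrt (by nlinarith)
  have h4 : √(1 - v ^ 2) ≤ √(1 - u ^ 2) := sqrt_le_sqrt (by nlinarith)
  have h5 : 0 < √(1 - 3 / 4 * v ^ 2) := sqrt_pos.2 (by nlinarith)
  exact div_le_div_of_nonneg_left (by norm_num) (by positivity) (by linarith)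

lemma om_anti {u v : ℝ} (h0 : 1 ≤ u) (huv : u ≤ v) : om v ≤ om u := by
  rw [om_eq2 h0, om_eq2 (h0.trans huv)]
  have h3 : √(1 - 3 / 4 * v ^ 2) ≤ √(1 - 3 / 4 * u ^ 2) := sqrt_le_sqrt (by nlinarith)
  exact div_le_div₀ (by positivity) (by linarith) (by positivity) (by nlinarith)

lemma om_nonneg (u : ℝ) : 0 ≤ om u := by
  unfold om
  have : √(1 - u ^ 2) ≤ √(1 - 3 / 4 * u ^ 2) := sqrt_le_sqrt (by nlinarith [sq_nonneg u])
  have h : 0 ≤ 2 * (√(1 - 3 / 4 * u ^ 2) - √(1 - u ^ 2)) := by linarith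
  positivity

lemma om_le_one {u : ℝ} (h0 : 0 < u) : om u ≤ 1 := by
  have h1 : om 1 = 1 := by
    unfold om
    have e1 : √(1 - 3 / 4 * (1 : ℝ) ^ 2) = 1 / 2 := by
      rw [show (1 - 3 / 4 * (1 : ℝ) ^ 2) = (1 / 2) ^ 2 by norm_num, sqrt_sq (by norm_num)]
    rw [e1]
    norm_num
  rcases le_total u 1 with h | h
  · rw [← h1]; exact om_mono h0 h le_rfl
  · rw [← h1]; exact om_anti le_rfl h

lemma om_zero {u : ℝ} (h0 : 0 < u) (h : 1 ≤ q0 * u) : om u = 0 := by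
  have hq := q0_lt
  have hq0 := q0_pos
  have h1 : 1 ≤ u := by nlinarith
  rw [om_eq2 h1]
  have h2 : √(1 - 3 / 4 * u ^ 2) = 0 := sqrt_eq_zero_of_nonpos (by
    rw [← q0_sq]
    nlinarith)
  rw [h2]
  simp

lemma Om1_cont : Continuous Om1 := by
  unfold Om1
  have := Ph_cont
  fun_prop

lemma Om2_contOn : ContinuousOn Om2 (Set.Ici 1) := by
  unfold Om2
  have := Ph_cont
  refine ContinuousOn.sub (ContinuousOn.sub continuousOn_const (ContinuousOn.div continuousOn_const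
    continuousOn_id fun x hx => ?_)) (by fun_prop)
  have : (1 : ℝ) ≤ x := hx
  exact ne_of_gt (by simpa using (show (0:ℝ) < x by linarith))

/-- mean value inequality, first piece -/
lemma Om1_mv {u v : ℝ} (h0 : 0 ≤ u) (huv : u ≤ v) (h1 : v ≤ 1) {c : ℝ}
    (hc : ∀ t, u < t → t < v → c ≤ om t) : c * (v - u) ≤ Om1 v - Om1 u := by
  refine (convex_Icc u v).mul_sub_le_image_sub_of_le_deriv Om1_cont.continuousOn ?_ ?_ u
    (Set.left_mem_Icc.2 huv) v (Set.right_mem_Icc.2 huv) huv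
  · rw [interior_Icc]
    intro t ht
    exact (om_deriv1 (by linarith [ht.1]) (by linarith [ht.2])).differentiableAt.differentiableWithinAt
  · rw [interior_Icc]
    intro t ht
    rw [(om_deriv1 (by linarith [ht.1]) (by linarith [ht.2])).deriv]
    exact hc t ht.1 ht.2

lemma Om2_mv {u v : ℝ} (h0 : 1 ≤ u) (huv : u ≤ v) (h1 : q0 * v ≤ 1) {c : ℝ}
    (hc : ∀ t, u < t → t < v → c ≤ om t) : c * (v - u) ≤ Om2 v - Om2 u := by
  have hq0 := q0_pos
  have hd : ∀ t ∈ Set.Ioo u v, HasDerivAt Om2 (om t) t := fun t ht =>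
    om_deriv2 (by linarith [ht.1]) (by nlinarith [ht.2])
  refine (convex_Icc u v).mul_sub_le_image_sub_of_le_deriv (Om2_contOn.mono fun x hx => ?_) ?_ ?_ u
    (Set.left_mem_Icc.2 huv) v (Set.right_mem_Icc.2 huv) huv
  · exact h0.trans hx.1
  · rw [interior_Icc]
    intro t ht
    exact (hd t ht).differentiableAt.differentiableWithinAt
  · rw [interior_Icc]
    intro t ht
    rw [(hd t ht).deriv]
    exact hc t ht.1 ht.2

lemma Om_12 : Om1 1 = Om2 1 := by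
  unfold Om1 Om2 Ph
  rw [arcsin_one]
  norm_num
  ring

lemma Om_23 {u : ℝ} (h : q0 * u = 1) : Om2 u = π * (1 - q0) := by
  have hq0 := q0_pos
  unfold Om2 Ph
  rw [h, arcsin_one]
  have hu : u ≠ 0 := by rintro rfl; simp at h
  have h3 : 2 / u = 2 * q0 := by
    rw [div_eq_iff hu]
    linear_combination -2 * h
  rw [h3]
  norm_num
  ring

lemma Om1_mono {u v : ℝ} (h0 : 0 ≤ u) (huv : u ≤ v) (h1 : v ≤ 1) : Om1 u ≤ Om1 v := by
  have := Om1_mv h0 huv h1 (c := 0) (fun t _ _ => om_nonneg t)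
  linarith

lemma Om2_mono {u v : ℝ} (h0 : 1 ≤ u) (huv : u ≤ v) (h1 : q0 * v ≤ 1) : Om2 u ≤ Om2 v := by
  have := Om2_mv h0 huv h1 (c := 0) (fun t _ _ => om_nonneg t)
  linarith

lemma q0_mul_inv : q0 * q0⁻¹ = 1 := mul_inv_cancel₀ q0_pos.ne'

lemma one_le_q0_inv : 1 ≤ q0⁻¹ := by
  rw [one_le_inv₀ q0_pos]; exact q0_lt.le

lemma Om2_le {u : ℝ} (h0 : 1 ≤ u) (h1 : q0 * u ≤ 1) : Om2 u ≤ π * (1 - q0) := by
  have hq0 := q0_pos
  rw [← Om_23 q0_mul_inv]
  refine Om2_mono h0 ?_ q0_mul_inv.le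
  have := q0_mul_inv
  by_contra h
  push Not at h
  nlinarith

lemma Om_mono {u v : ℝ} (h0 : 0 ≤ u) (huv : u ≤ v) : Om u ≤ Om v := by
  have hq0 := q0_pos
  have hq1 := q0_lt
  unfold Om
  by_cases hu : u ≤ 1
  · rw [if_pos hu]
    by_cases hv : v ≤ 1
    · rw [if_pos hv]; exact Om1_mono h0 huv hv
    · rw [if_neg hv]
      have h1 := Om1_mono h0 hu le_rfl
      rw [Om_12] at h1
      push Not at hv
      by_cases hv' : q0 * v ≤ 1
      · rw [if_pos hv']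
        exact h1.trans (Om2_mono le_rfl hv.le hv')
      · rw [if_neg hv']
        exact h1.trans (Om2_le le_rfl (by linarith))
  · rw [if_neg hu]
    push Not at hu
    have hv : ¬ v ≤ 1 := by linarith
    rw [if_neg hv]
    by_cases hu' : q0 * u ≤ 1
    · rw [if_pos hu']
      by_cases hv' : q0 * v ≤ 1
      · rw [if_pos hv']; exact Om2_mono hu.le huv hv'
      · rw [if_neg hv']; exact Om2_le hu.le hu'
    · rw [if_neg hu']
      have hv' : ¬ q0 * v ≤ 1 := by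
        push Not at hu' ⊢
        nlinarith
      rw [if_neg hv']

lemma Om_zero : Om 0 = 0 := by
  unfold Om Om1 Ph
  simp

lemma Om_le {u : ℝ} (h0 : 0 ≤ u) : Om u ≤ π * (1 - q0) := by
  have hq0 := q0_pos
  have h1 := Om_mono h0 (le_max_left u (2 / q0))
  have h2 : Om (max u (2 / q0)) = π * (1 - q0) := by
    have h3 : 2 / q0 ≤ max u (2 / q0) := le_max_right _ _
    have h4 : 2 ≤ q0 * max u (2 / q0) := by
      rw [div_le_iff₀ hq0] at h3
      linarith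
    have h5 : ¬ (max u (2 / q0) ≤ 1) := by
      intro h
      have := q0_lt
      nlinarith
    unfold Om
    rw [if_neg h5, if_neg (by linarith)]
  linarith

/-- increments, increasing part -/
lemma Om_inc {u v : ℝ} (h0 : 0 < u) (huv : u ≤ v) (h1 : v ≤ 1) :
    om u * (v - u) ≤ Om v - Om u := by
  unfold Om
  rw [if_pos h1, if_pos (huv.trans h1)]
  exact Om1_mv h0.le huv h1 fun t ht ht' => om_mono h0 ht.le (ht'.le.trans h1)

/-- increments, decreasing part -/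
lemma Om_dec {u v : ℝ} (h1 : 1 ≤ u) (huv : u ≤ v) :
    om v * (v - u) ≤ Om v - Om u := by
  by_cases hv : q0 * v < 1
  · have hq0 := q0_pos
    have e : ∀ t, 1 ≤ t → q0 * t ≤ 1 → Om t = Om2 t := by
      intro t ht ht'
      unfold Om
      by_cases h : t ≤ 1
      · rw [if_pos h]
        have : t = 1 := le_antisymm h ht
        rw [this, Om_12]
      · rw [if_neg h, if_pos ht']
    rw [e v (h1.trans huv) hv.le, e u h1 (by nlinarith)]
    exact Om2_mv h1 huv hv.le fun t ht ht' => om_anti (h1.trans ht.le) ht'.le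
  · push Not at hv
    rw [om_zero (by linarith) hv, zero_mul, sub_nonneg]
    exact Om_mono (by linarith) huv

end Pool.Agent.K4H52.DH
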