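import Pool.Agent.K4H52.DH.AP
import Pool.Agent.K4H52.DH.Om
import Pool.Agent.K4H52.DH.Quad

/-! Counting the forms: levels `d` and `c`. -/

set_option autoImplicit false

namespace Pool.Agent.K4H52.DH

open Real

/-- the length of the range of `G` -/
noncomputable def Lf (X a A : ℝ) : ℝ := 2 * (√(4 * A ^ 3 - 3 / 4 * X * a ^ 2) - √(4 * A ^ 3 - X * a ^ 2))

lemma Lf_nonneg {X : ℝ} (hX : 0 ≤ X) (a A : ℝ) : 0 ≤ Lf X a A := by
  unfold Lf
  have : √(4 * A ^ 3 - X * a ^ 2) ≤ √(4 * A ^ 3 - 3 / 4 * X * a ^ 2) :=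
    sqrt_le_sqrt (by nlinarith [mul_nonneg hX (sq_nonneg a)])
  linarith

lemma Lf_le {X : ℝ} (hX : 0 ≤ X) {a : ℝ} (ha : 0 ≤ a) (A : ℝ) : Lf X a A ≤ a * √X := by
  unfold Lf
  have h1 : √(4 * A ^ 3 - 3 / 4 * X * a ^ 2) ≤ √(4 * A ^ 3 - X * a ^ 2) + √(1 / 4 * X * a ^ 2) := by
    rcases le_total 0 (4 * A ^ 3 - X * a ^ 2) with h | h
    · have e : 4 * A ^ 3 - 3 / 4 * X * a ^ 2 = (4 * A ^ 3 - X * a ^ 2) + 1 / 4 * X * a ^ 2 := by ring
      rw [e]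
      rw [sqrt_le_iff]
      have hb : 0 ≤ 1 / 4 * X * a ^ 2 := by positivity
      have s1 := sq_sqrt h
      have s2 := sq_sqrt hb
      have s3 := sqrt_nonneg (4 * A ^ 3 - X * a ^ 2)
      have s4 := sqrt_nonneg (1 / 4 * X * a ^ 2)
      exact ⟨by positivity, by nlinarith [mul_nonneg s3 s4]⟩
    · rw [sqrt_eq_zero_of_nonpos h, zero_add]
      exact sqrt_le_sqrt (by linarith)
  have h2 : √(1 / 4 * X * a ^ 2) = 1 / 2 * (a * √X) := by
    have : 1 / 4 * X * a ^ 2 = (1 / 2 * a) ^ 2 * X := by ring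
    rw [this, sqrt_mul (by positivity), sqrt_sq (by positivity)]
    ring
  rw [h2] at h1
  linarith

lemma Lf_mono {X : ℝ} (hX : 0 ≤ X) {a A B : ℝ} (hA : 0 ≤ A) (hAB : A ≤ B)
    (hB : 4 * B ^ 3 ≤ X * a ^ 2) : Lf X a A ≤ Lf X a B := by
  unfold Lf
  have h3 : A ^ 3 ≤ B ^ 3 := pow_le_pow_left₀ hA hAB 3
  rw [sqrt_eq_zero_of_nonpos (show 4 * A ^ 3 - X * a ^ 2 ≤ 0 by linarith),
    sqrt_eq_zero_of_nonpos (show 4 * B ^ 3 - X * a ^ 2 ≤ 0 by linarith)]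
  have : √(4 * A ^ 3 - 3 / 4 * X * a ^ 2) ≤ √(4 * B ^ 3 - 3 / 4 * X * a ^ 2) :=
    sqrt_le_sqrt (by linarith)
  linarith

lemma Lf_anti {X : ℝ} (hX : 0 ≤ X) {a A B : ℝ} (hA : 0 ≤ A) (hAB : A ≤ B)
    (hB : X * a ^ 2 ≤ 4 * A ^ 3) : Lf X a B ≤ Lf X a A := by
  have h3 : A ^ 3 ≤ B ^ 3 := pow_le_pow_left₀ hA hAB 3
  have hXa : 0 ≤ X * a ^ 2 := by positivity
  -- general: √(x+δ) - √x decreasing
  have key : ∀ x y δ : ℝ, 0 ≤ x → x ≤ y → 0 ≤ δ → √(y + δ) - √y ≤ √(x + δ) - √x := by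
    intro x y δ hx hxy hδ
    have h1 := sq_sqrt (show 0 ≤ y + δ by linarith)
    have h2 := sq_sqrt (show 0 ≤ y by linarith)
    have h4 := sq_sqrt (show 0 ≤ x + δ by linarith)
    have h5 := sq_sqrt hx
    have h6 : √x ≤ √y := sqrt_le_sqrt hxy
    have h7 : √(x + δ) ≤ √(y + δ) := sqrt_le_sqrt (by linarith)
    have h8 : √x ≤ √(x + δ) := sqrt_le_sqrt (by linarith)
    have h9 : √y ≤ √(y + δ) := sqrt_le_sqrt (by linarith)
    have h10 := sqrt_nonneg x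
    by_contra hcon
    push Not at hcon
    -- (√(y+δ)-√y)(√(y+δ)+√y) = δ = (√(x+δ)-√x)(√(x+δ)+√x)
    have h11 : (√(y + δ) - √y) * (√(y + δ) + √y) = δ := by linear_combination h1 - h2
    have h12 : (√(x + δ) - √x) * (√(x + δ) + √x) = δ := by linear_combination h4 - h5
    nlinarith
  have h := key (4 * A ^ 3 - X * a ^ 2) (4 * B ^ 3 - X * a ^ 2) (1 / 4 * (X * a ^ 2)) (by linarith)
    (by linarith) (by positivity)
  have e1 : 4 * A ^ 3 - X * a ^ 2 + 1 / 4 * (X * a ^ 2) = 4 * A ^ 3 - 3 / 4 * X * a ^ 2 := by ring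
  have e2 : 4 * B ^ 3 - X * a ^ 2 + 1 / 4 * (X * a ^ 2) = 4 * B ^ 3 - 3 / 4 * X * a ^ 2 := by ring
  rw [e1, e2] at h
  unfold Lf
  linarith

/-- the covariant of degree three at `(1, 0)` -/
def hG (a b c d : ℤ) : ℤ := 2 * b ^ 3 - 3 * a * b * c + a ^ 2 * d

lemma syzygy (a b c d : ℤ) : hG a b c d ^ 2 + hn a b c d * a ^ 2 = 4 * hA a b c ^ 3 := by
  unfold hG hn hA hB hC; ring

/-- one sign of `G` -/
lemma level_d_aux (X N : ℕ) (hN : 0 < N) (a b c : ℤ) (ha : 1 ≤ a) (ε : ℤ) (hε : ε = 1 ∨ ε = -1)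
    (D : Finset ℤ)
    (hD : ∀ d ∈ D, hn a b c d ≤ X ∧ 3 * (X : ℤ) < 4 * hn a b c d ∧ 0 ≤ ε * hG a b c d)
    (hc : ∀ d ∈ D, ∀ d' ∈ D, (N : ℤ) ∣ d - d') :
    (D.card : ℝ) ≤ Lf X a (hA a b c) / 2 / (a ^ 2 * N) + 1 := by
  have hinj : Set.InjOn (fun d => ε * hG a b c d) (D : Set ℤ) := by
    intro x _ y _ h
    have h' : ε * hG a b c x = ε * hG a b c y := h
    have h1 : hG a b c x = hG a b c y := by rcases hε with rfl | rfl <;> linarith
    unfold hG at h1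
    have h2 : a ^ 2 * (x - y) = 0 := by linear_combination h1
    rcases mul_eq_zero.1 h2 with h | h
    · nlinarith
    · omega
  have hX : (0 : ℝ) ≤ X := Nat.cast_nonneg _
  have hsep : Sep (a ^ 2 * N) (D.image fun d => ε * hG a b c d) := by
    intro x hx y hy hxy
    rw [Finset.mem_image] at hx hy
    obtain ⟨d, hd, rfl⟩ := hx
    obtain ⟨d', hd', rfl⟩ := hy
    obtain ⟨k, hk⟩ := hc d' hd' d hd
    have e : ε * hG a b c d' - ε * hG a b c d = a ^ 2 * N * (ε * k) := by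
      unfold hG
      linear_combination ε * a ^ 2 * hk
    have hpos : 0 < a ^ 2 * (N : ℤ) := by positivity
    have : 0 < ε * k := by
      by_contra hcon
      push Not at hcon
      nlinarith
    nlinarith
  rw [← Finset.card_image_of_injOn hinj]
  have h1 := card_sep (s := a ^ 2 * N) (by positivity) hsep
    (x := √(4 * (hA a b c : ℝ) ^ 3 - X * a ^ 2)) (y := √(4 * (hA a b c : ℝ) ^ 3 - 3 / 4 * X * a ^ 2))
    (sqrt_le_sqrt (by nlinarith [mul_nonneg hX (sq_nonneg (a : ℝ))])) (by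
    intro t ht
    rw [Finset.mem_image] at ht
    obtain ⟨d, hd, rfl⟩ := ht
    obtain ⟨h1, h2, h3⟩ := hD d hd
    have h4 := syzygy a b c d
    have h4' : (hG a b c d : ℝ) ^ 2 + hn a b c d * (a : ℝ) ^ 2 = 4 * (hA a b c : ℝ) ^ 3 := by
      exact_mod_cast h4
    have h1' : (hn a b c d : ℝ) ≤ X := by exact_mod_cast h1
    have h2' : 3 * (X : ℝ) < 4 * hn a b c d := by exact_mod_cast h2
    have h3' : (0 : ℝ) ≤ ((ε * hG a b c d : ℤ) : ℝ) := by exact_mod_cast h3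
    have h5 : ((ε * hG a b c d : ℤ) : ℝ) ^ 2 = (hG a b c d : ℝ) ^ 2 := by
      rcases hε with rfl | rfl <;> push_cast <;> ring
    have ha2 : (0 : ℝ) ≤ (a : ℝ) ^ 2 := sq_nonneg _
    constructor
    · rw [sqrt_le_left h3', h5]
      nlinarith
    · apply le_sqrt_of_sq_le
      rw [h5]
      nlinarith)
  have e : (√(4 * (hA a b c : ℝ) ^ 3 - 3 / 4 * X * a ^ 2) - √(4 * (hA a b c : ℝ) ^ 3 - X * a ^ 2)) =
      Lf X a (hA a b c) / 2 := by unfold Lf; ring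
  rw [e] at h1
  push_cast at h1
  exact h1

lemma level_d (X N : ℕ) (hN : 0 < N) (a b c : ℤ) (ha : 1 ≤ a) (D : Finset ℤ)
    (hD : ∀ d ∈ D, hn a b c d ≤ X ∧ 3 * (X : ℤ) < 4 * hn a b c d)
    (hc : ∀ d ∈ D, ∀ d' ∈ D, (N : ℤ) ∣ d - d') :
    (D.card : ℝ) ≤ Lf X a (hA a b c) / (a ^ 2 * N) + 2 := by
  classical
  have h1 := level_d_aux X N hN a b c ha 1 (Or.inl rfl) (D.filter fun d => 0 ≤ hG a b c d)
    (fun d hd => by
      rw [Finset.mem_filter] at hd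
      exact ⟨(hD d hd.1).1, (hD d hd.1).2, by rw [one_mul]; exact hd.2⟩)
    (fun d hd d' hd' => hc d (Finset.mem_filter.1 hd).1 d' (Finset.mem_filter.1 hd').1)
  have h2 := level_d_aux X N hN a b c ha (-1) (Or.inr rfl) (D.filter fun d => ¬ 0 ≤ hG a b c d)
    (fun d hd => by
      rw [Finset.mem_filter] at hd
      exact ⟨(hD d hd.1).1, (hD d hd.1).2, by have := hd.2; omega⟩)
    (fun d hd d' hd' => hc d (Finset.mem_filter.1 hd).1 d' (Finset.mem_filter.1 hd').1)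
  have h3 := Finset.card_filter_add_card_filter_not (s := D) (fun d => 0 ≤ hG a b c d)
  have h4 : (D.card : ℝ) = ((D.filter fun d => 0 ≤ hG a b c d).card : ℝ) +
      ((D.filter fun d => ¬ 0 ≤ hG a b c d).card : ℝ) := by exact_mod_cast h3.symm
  rw [h4]
  have : Lf X a (hA a b c) / (a ^ 2 * N) = Lf X a (hA a b c) / 2 / (a ^ 2 * N) +
    Lf X a (hA a b c) / 2 / (a ^ 2 * N) := by ring
  rw [this]
  linarith

end Pool.Agent.K4H52.DH
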