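import Pool.Agent.K4H52.DH.Cnt1

/-! Counting the forms: level `c`. -/

set_option autoImplicit false

namespace Pool.Agent.K4H52.DH

open Real

/-- the range of `A` -/
noncomputable def SX (X : ℕ) : Finset ℤ := (Finset.Icc (1 : ℤ) X).filter fun A => 3 * A ^ 2 ≤ X

lemma mem_SX {X : ℕ} {A : ℤ} : A ∈ SX X ↔ 1 ≤ A ∧ 3 * A ^ 2 ≤ X := by
  unfold SX
  rw [Finset.mem_filter, Finset.mem_Icc]
  constructor
  · rintro ⟨⟨h1, _⟩, h3⟩; exact ⟨h1, h3⟩
  · rintro ⟨h1, h3⟩
    exact ⟨⟨h1, by nlinarith⟩, h3⟩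

lemma level_A (X N : ℕ) (hN : 0 < N) (a : ℤ) (ha : 1 ≤ a) (TA : Finset ℤ)
    (hTA : ∀ A ∈ TA, 1 ≤ A ∧ 3 * A ^ 2 ≤ X) (hsep : Sep (a * N) TA) :
    ∑ A ∈ TA, Lf X a A ≤ (∑ A ∈ SX X, Lf X a A) / (a * N) + 2 * (a * √X) := by
  classical
  have hX : (0 : ℝ) ≤ X := Nat.cast_nonneg _
  have haR : (1 : ℝ) ≤ a := by exact_mod_cast ha
  -- the truncated function
  set g : ℤ → ℝ := fun A => if 3 * A ^ 2 ≤ X then Lf X a A else 0 with hg
  have hg0 : ∀ A, 0 ≤ g A := by
    intro A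
    simp only [hg]
    split_ifs
    · exact Lf_nonneg hX _ _
    · exact le_rfl
  set W : ℤ → ℝ := fun y => ∑ A ∈ Finset.Ico 1 y, g A with hWd
  -- the peak
  have hex : ∃ A : ℕ, 1 ≤ A ∧ ((X : ℤ) * a ^ 2 ≤ 4 * (A : ℤ) ^ 3 ∨ (X : ℤ) < 3 * (A : ℤ) ^ 2) := by
    refine ⟨X + 1, by omega, Or.inr ?_⟩
    push_cast
    nlinarith
  obtain ⟨p, ⟨hp1, hp2⟩, hpmin⟩ : ∃ p : ℕ, (1 ≤ p ∧ ((X : ℤ) * a ^ 2 ≤ 4 * (p : ℤ) ^ 3 ∨
      (X : ℤ) < 3 * (p : ℤ) ^ 2)) ∧ ∀ m : ℕ, m < p → ¬ (1 ≤ m ∧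
        ((X : ℤ) * a ^ 2 ≤ 4 * (m : ℤ) ^ 3 ∨ (X : ℤ) < 3 * (m : ℤ) ^ 2)) :=
    ⟨Nat.find hex, Nat.find_spec hex, fun m hm => Nat.find_min hex hm⟩
  have hbelow : ∀ A : ℤ, 1 ≤ A → A < p → 4 * A ^ 3 < (X : ℤ) * a ^ 2 ∧ 3 * A ^ 2 ≤ X := by
    intro A hA hAp
    have h := hpmin A.toNat (by omega)
    have e : ((A.toNat : ℕ) : ℤ) = A := Int.toNat_of_nonneg (by omega)
    rw [e] at h
    push Not at h
    exact h (by omega)
  have haN : 0 < a * (N : ℤ) := by positivity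
  have hsplit : ∀ x y : ℤ, 1 ≤ x → x ≤ y → W y - W x = ∑ A ∈ Finset.Ico x y, g A := by
    intro x y hx hxy
    simp only [hWd]
    rw [← Finset.Ico_union_Ico_eq_Ico hx hxy, Finset.sum_union (Finset.Ico_disjoint_Ico_consecutive 1 x y)]
    ring
  have key := sum_unimodal (s := a * N) haN hsep (lo := 1) (fun A hA => (hTA A hA).1)
    (p := (p : ℝ)) (by exact_mod_cast hp1) (w := fun A => Lf X a A) (W := W)
    (C := ∑ A ∈ SX X, Lf X a A) (M := a * √X) (by positivity)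
    (by
      intro x y hx hxy
      have h := hsplit x y hx hxy
      have : 0 ≤ ∑ A ∈ Finset.Ico x y, g A := Finset.sum_nonneg fun A _ => hg0 A
      linarith)
    (by simp [hWd])
    (by
      intro y _
      simp only [hWd, hg]
      rw [← Finset.sum_filter]
      apply Finset.sum_le_sum_of_subset_of_nonneg
      · intro A hA
        rw [Finset.mem_filter, Finset.mem_Ico] at hA
        rw [mem_SX]
        exact ⟨hA.1.1, hA.2⟩
      · intro A _ _
        exact Lf_nonneg hX _ _)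
    (fun A _ => Lf_le hX (by linarith) _)
    (by
      intro x hx hxp
      have hx1 := (hTA x hx).1
      have hxp' : x + a * N ≤ p := by exact_mod_cast hxp
      rw [hsplit x (x + a * N) hx1 (by omega)]
      have h1 : ∑ A ∈ Finset.Ico x (x + a * N), Lf X a x ≤ ∑ A ∈ Finset.Ico x (x + a * N), g A := by
        refine Finset.sum_le_sum fun A hA => ?_
        rw [Finset.mem_Ico] at hA
        obtain ⟨h2, h3⟩ := hbelow A (by omega) (by omega)
        simp only [hg]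
        rw [if_pos h3]
        refine Lf_mono hX (by exact_mod_cast (show (0 : ℤ) ≤ x by omega)) (by exact_mod_cast hA.1) ?_
        exact_mod_cast h2.le
      rw [Finset.sum_const, Int.card_Ico, nsmul_eq_mul] at h1
      have e : (((x + a * N - x).toNat : ℕ) : ℝ) = ((a * N : ℤ) : ℝ) := by
        have : (((x + a * N - x).toNat : ℕ) : ℤ) = a * N := by
          rw [Int.toNat_of_nonneg (by omega)]; ring
        exact_mod_cast this
      rw [e] at h1
      exact h1)
    (by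
      intro x hx hxp
      have hx1 := (hTA x hx).1
      have hx3 := (hTA x hx).2
      have hxp' : (p : ℤ) ≤ x - a * N := by exact_mod_cast hxp
      rw [hsplit (x - a * N) x (by omega) (by omega)]
      have h1 : ∑ A ∈ Finset.Ico (x - a * N) x, Lf X a x ≤ ∑ A ∈ Finset.Ico (x - a * N) x, g A := by
        refine Finset.sum_le_sum fun A hA => ?_
        rw [Finset.mem_Ico] at hA
        have h3 : 3 * A ^ 2 ≤ X := by
          have : A ^ 2 ≤ x ^ 2 := pow_le_pow_left₀ (by omega) hA.2.le 2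
          omega
        simp only [hg]
        rw [if_pos h3]
        have h4 : (X : ℤ) * a ^ 2 ≤ 4 * A ^ 3 := by
          rcases hp2 with h | h
          · have : (p : ℤ) ^ 3 ≤ A ^ 3 := pow_le_pow_left₀ (by omega) (by omega) 3
            omega
          · exfalso
            have : (p : ℤ) ^ 2 ≤ x ^ 2 := pow_le_pow_left₀ (by omega) (by omega) 2
            omega
        refine Lf_anti hX (by exact_mod_cast (show (0 : ℤ) ≤ A by omega)) (by exact_mod_cast hA.2.le) ?_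
        exact_mod_cast h4
      rw [Finset.sum_const, Int.card_Ico, nsmul_eq_mul] at h1
      have e : (((x - (x - a * N)).toNat : ℕ) : ℝ) = ((a * N : ℤ) : ℝ) := by
        have : (((x - (x - a * N)).toNat : ℕ) : ℤ) = a * N := by
          rw [Int.toNat_of_nonneg (by omega)]; ring
        exact_mod_cast this
      rw [e] at h1
      exact h1)
  have haN' : (0 : ℝ) < a * N := by exact_mod_cast haN
  push_cast at key
  have h5 : (a * N : ℝ) * ∑ A ∈ TA, Lf X a A ≤ (a * N : ℝ) * ((∑ A ∈ SX X, Lf X a A) / (a * N) +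
      2 * (a * √X)) := by
    have : (a * N : ℝ) * ((∑ A ∈ SX X, Lf X a A) / (a * N) + 2 * (a * √X)) =
      ∑ A ∈ SX X, Lf X a A + 2 * (a * N) * (a * √X) := by
      field_simp
    rw [this]
    exact key
  exact le_of_mul_le_mul_left h5 haN'

/-- Level `c`. -/
lemma level_c (X N : ℕ) (hN : 0 < N) (a b : ℤ) (ha : 1 ≤ a) (U : Finset (ℤ × ℤ))
    (hU : ∀ q ∈ U, 1 ≤ hA a b q.1 ∧ 3 * hA a b q.1 ^ 2 ≤ X ∧ hn a b q.1 q.2 ≤ X ∧
      3 * (X : ℤ) < 4 * hn a b q.1 q.2)
    (hc : ∀ q ∈ U, ∀ q' ∈ U, (N : ℤ) ∣ q.1 - q'.1 ∧ (N : ℤ) ∣ q.2 - q'.2) :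
    (U.card : ℝ) ≤ (∑ A ∈ SX X, Lf X a A) / (a ^ 3 * N ^ 2) + 4 * √X / a + 2 := by
  classical
  have hX : (0 : ℝ) ≤ X := Nat.cast_nonneg _
  have haR : (1 : ℝ) ≤ a := by exact_mod_cast ha
  have hNR : (1 : ℝ) ≤ N := by exact_mod_cast hN
  set Cs := U.image Prod.fst with hCs
  have hCmem : ∀ c ∈ Cs, ∃ d, (c, d) ∈ U := by
    intro c hcc
    rw [hCs, Finset.mem_image] at hcc
    obtain ⟨⟨c', d⟩, h, rfl⟩ := hcc
    exact ⟨d, h⟩
  have h1 : (U.card : ℝ) ≤ ∑ c ∈ Cs, (Lf X a (hA a b c) / (a ^ 2 * N) + 2) := by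
    rw [card_fib U, ← hCs]
    push_cast
    refine Finset.sum_le_sum fun c hcc => ?_
    refine level_d X N hN a b c ha _ (fun d hd => ?_) (fun d hd d' hd' => ?_)
    · rw [mem_fib] at hd
      have := hU _ hd
      exact ⟨this.2.2.1, this.2.2.2⟩
    · rw [mem_fib] at hd hd'
      exact (hc _ hd _ hd').2
  set TA := Cs.image (fun c => hA a b c) with hTA
  have hinj : Set.InjOn (fun c => hA a b c) (Cs : Set ℤ) := by
    intro x _ y _ h
    have h' : hA a b x = hA a b y := h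
    unfold hA at h'
    have h2 : a * (x - y) = 0 := by linear_combination -h'
    rcases mul_eq_zero.1 h2 with h | h
    · omega
    · omega
  have hTAm : ∀ A ∈ TA, 1 ≤ A ∧ 3 * A ^ 2 ≤ X := by
    intro A hAA
    rw [hTA, Finset.mem_image] at hAA
    obtain ⟨c, hcc, rfl⟩ := hAA
    obtain ⟨d, hd⟩ := hCmem c hcc
    have := hU _ hd
    exact ⟨this.1, this.2.1⟩
  have hsep : Sep (a * N) TA := by
    intro x hx y hy hxy
    rw [hTA, Finset.mem_image] at hx hy
    obtain ⟨c, hcc, rfl⟩ := hx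
    obtain ⟨c', hcc', rfl⟩ := hy
    obtain ⟨d, hd⟩ := hCmem c hcc
    obtain ⟨d', hd'⟩ := hCmem c' hcc'
    obtain ⟨k, hk⟩ := (hc _ hd _ hd').1
    simp only at hk
    have e : hA a b c' - hA a b c = a * N * k := by
      unfold hA
      linear_combination a * hk
    have hpos : 0 < a * (N : ℤ) := by positivity
    have : 0 < k := by
      by_contra hcon
      push Not at hcon
      nlinarith
    nlinarith
  have h2 := level_A X N hN a ha TA hTAm hsep
  rw [hTA, Finset.sum_image hinj] at h2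
  have h3 : (Cs.card : ℝ) ≤ √X / (a * N) + 1 := by
    rw [← Finset.card_image_of_injOn hinj, ← hTA]
    rcases TA.eq_empty_or_nonempty with h | h
    · rw [h]
      simp only [Finset.card_empty, Nat.cast_zero]
      positivity
    · have h4 := card_sep (s := a * N) (by positivity) hsep (x := 0) (y := √X) (sqrt_nonneg _) (by
        intro t ht
        obtain ⟨h5, h6⟩ := hTAm t ht
        have h5' : (1 : ℝ) ≤ t := by exact_mod_cast h5
        have h6' : 3 * (t : ℝ) ^ 2 ≤ X := by exact_mod_cast h6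
        exact ⟨by linarith, le_sqrt_of_sq_le (by nlinarith)⟩)
      push_cast at h4
      rw [sub_zero] at h4
      exact h4
  rw [Finset.sum_add_distrib, ← Finset.sum_div, Finset.sum_const, nsmul_eq_mul] at h1
  have h5 : (∑ c ∈ Cs, Lf X a (hA a b c)) / (a ^ 2 * N) ≤
      ((∑ A ∈ SX X, Lf X a A) / (a * N) + 2 * (a * √X)) / (a ^ 2 * N) := by
    gcongr
  have e1 : ((∑ A ∈ SX X, Lf X a A) / (a * N) + 2 * (a * √X)) / (a ^ 2 * N) =
      (∑ A ∈ SX X, Lf X a A) / (a ^ 3 * N ^ 2) + 2 * √X / (a * N) := by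
    field_simp
  have e2 : 2 * √X / (a * N) ≤ 2 * √X / a := by
    apply div_le_div_of_nonneg_left (by positivity) (by positivity)
    nlinarith
  have e3 : √(X : ℝ) / (a * N) ≤ √X / a := by
    apply div_le_div_of_nonneg_left (by positivity) (by positivity)
    nlinarith
  have e4 : 4 * √(X : ℝ) / a = 2 * √X / a + 2 * (√X / a) := by ring
  rw [e4]
  rw [e1] at h5
  linarith

end Pool.Agent.K4H52.DH
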