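import Pool.Agent.K4H52.DH.Cnt2

/-! Counting the forms: levels `b` and `a`. -/

set_option autoImplicit false

namespace Pool.Agent.K4H52.DH

open Real

/-- Level `b`. -/
lemma level_b (X N : ℕ) (hN : 0 < N) (a : ℤ) (ha : 1 ≤ a) (V : Finset (ℤ × ℤ × ℤ))
    (hV : ∀ q ∈ V, 0 ≤ q.1 ∧ q.1 < a ∧ 1 ≤ hA a q.1 q.2.1 ∧ 3 * hA a q.1 q.2.1 ^ 2 ≤ X ∧
      hn a q.1 q.2.1 q.2.2 ≤ X ∧ 3 * (X : ℤ) < 4 * hn a q.1 q.2.1 q.2.2)
    (hc : ∀ q ∈ V, ∀ q' ∈ V, (N : ℤ) ∣ q.1 - q'.1 ∧ (N : ℤ) ∣ q.2.1 - q'.2.1 ∧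
      (N : ℤ) ∣ q.2.2 - q'.2.2) :
    (V.card : ℝ) ≤ (∑ A ∈ SX X, Lf X a A) * (1 / (a ^ 2 * N ^ 3) + 1 / (a ^ 3 * N ^ 2)) +
      4 * √X + 2 * a := by
  classical
  have hX : (0 : ℝ) ≤ X := Nat.cast_nonneg _
  have haR : (1 : ℝ) ≤ a := by exact_mod_cast ha
  have hNR : (1 : ℝ) ≤ N := by exact_mod_cast hN
  set Bs := V.image Prod.fst with hBs
  have hBmem : ∀ b ∈ Bs, ∃ q, (b, q) ∈ V := by
    intro b hb
    rw [hBs, Finset.mem_image] at hb
    obtain ⟨⟨b', q⟩, h, rfl⟩ := hb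
    exact ⟨q, h⟩
  set E : ℝ := (∑ A ∈ SX X, Lf X a A) / (a ^ 3 * N ^ 2) + 4 * √X / a + 2 with hE
  have h1 : (V.card : ℝ) ≤ ∑ b ∈ Bs, E := by
    rw [card_fib V, ← hBs]
    push_cast
    refine Finset.sum_le_sum fun b hb => ?_
    refine level_c X N hN a b ha _ (fun q hq => ?_) (fun q hq q' hq' => ?_)
    · rw [mem_fib] at hq
      have := hV _ hq
      exact ⟨this.2.2.1, this.2.2.2.1, this.2.2.2.2.1, this.2.2.2.2.2⟩
    · rw [mem_fib] at hq hq'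
      exact (hc _ hq _ hq').2
  have hBr : ∀ b ∈ Bs, 0 ≤ b ∧ b < a := by
    intro b hb
    obtain ⟨q, hq⟩ := hBmem b hb
    exact ⟨(hV _ hq).1, (hV _ hq).2.1⟩
  have hsep : Sep N Bs := by
    intro x hx y hy hxy
    obtain ⟨q, hq⟩ := hBmem x hx
    obtain ⟨q', hq'⟩ := hBmem y hy
    obtain ⟨k, hk⟩ := (hc _ hq' _ hq).1
    simp only at hk
    have hpos : 0 < (N : ℤ) := by positivity
    have : 0 < k := by
      by_contra hcon
      push Not at hcon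
      nlinarith
    nlinarith
  have hc1 : (Bs.card : ℝ) ≤ a / N + 1 := by
    have h4 := card_sep (s := N) (by positivity) hsep (x := 0) (y := a) (by linarith) (by
      intro t ht
      obtain ⟨h5, h6⟩ := hBr t ht
      exact ⟨by exact_mod_cast h5, by exact_mod_cast h6.le⟩)
    rw [sub_zero] at h4
    exact_mod_cast h4
  have hc2 : (Bs.card : ℝ) ≤ a := by
    have h5 : Bs ⊆ Finset.Ico 0 a := fun b hb => Finset.mem_Ico.2 (hBr b hb)
    have h6 := Finset.card_le_card h5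
    rw [Int.card_Ico, sub_zero] at h6
    have h7 : (Bs.card : ℤ) ≤ a := by omega
    exact_mod_cast h7
  rw [Finset.sum_const, nsmul_eq_mul] at h1
  have hS : 0 ≤ ∑ A ∈ SX X, Lf X a A := Finset.sum_nonneg fun A _ => Lf_nonneg hX _ _
  have h2 : (Bs.card : ℝ) * E = (Bs.card : ℝ) * ((∑ A ∈ SX X, Lf X a A) / (a ^ 3 * N ^ 2)) +
      (Bs.card : ℝ) * (4 * √X / a + 2) := by rw [hE]; ring
  have h3 : (Bs.card : ℝ) * ((∑ A ∈ SX X, Lf X a A) / (a ^ 3 * N ^ 2)) ≤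
      (a / N + 1) * ((∑ A ∈ SX X, Lf X a A) / (a ^ 3 * N ^ 2)) :=
    mul_le_mul_of_nonneg_right hc1 (by positivity)
  have h4 : (Bs.card : ℝ) * (4 * √X / a + 2) ≤ a * (4 * √X / a + 2) :=
    mul_le_mul_of_nonneg_right hc2 (by positivity)
  have e1 : (a / N + 1 : ℝ) * ((∑ A ∈ SX X, Lf X a A) / (a ^ 3 * N ^ 2)) =
      (∑ A ∈ SX X, Lf X a A) * (1 / (a ^ 2 * N ^ 3) + 1 / (a ^ 3 * N ^ 2)) := by
    field_simp
  have e2 : (a : ℝ) * (4 * √X / a + 2) = 4 * √X + 2 * a := by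
    field_simp
  rw [e1] at h3
  rw [e2] at h4
  linarith

lemma Lf_om {X a A : ℝ} (hX : 0 < X) (ha : 0 < a) (hA : 0 < A) :
    Lf X a A / a ^ 2 = X / √(4 * A ^ 3) * om (√X / √(4 * A ^ 3) * a) := by
  have hτ : 0 < 4 * A ^ 3 := by positivity
  have hsτ : 0 < √(4 * A ^ 3) := sqrt_pos.2 hτ
  have hsX : 0 < √X := sqrt_pos.2 hX
  have h1 : √(4 * A ^ 3) ^ 2 = 4 * A ^ 3 := sq_sqrt hτ.le
  have h2 : √X ^ 2 = X := sq_sqrt hX.le
  have e0 : (√X / √(4 * A ^ 3) * a) ^ 2 = X * a ^ 2 / (4 * A ^ 3) := by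
    rw [mul_pow, div_pow, h1, h2]; ring
  have e1 : √(1 - 3 / 4 * (√X / √(4 * A ^ 3) * a) ^ 2) =
      √(4 * A ^ 3 - 3 / 4 * X * a ^ 2) / √(4 * A ^ 3) := by
    rw [e0, ← sqrt_div' _ hτ.le]
    congr 1
    field_simp
  have e2 : √(1 - (√X / √(4 * A ^ 3) * a) ^ 2) =
      √(4 * A ^ 3 - X * a ^ 2) / √(4 * A ^ 3) := by
    rw [e0, ← sqrt_div' _ hτ.le]
    congr 1
    field_simp
  unfold om Lf
  rw [e1, e2]
  have e3 : (√X / √(4 * A ^ 3) * a) ^ 2 = X * a ^ 2 / √(4 * A ^ 3) ^ 2 := by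
    rw [mul_pow, div_pow, h2]; ring
  rw [e3]
  field_simp

/-- The sum over `a`. -/
lemma level_w (X N : ℕ) (hN : 0 < N) (hX0 : 0 < X) (A : ℤ) (hA : 1 ≤ A) (As : Finset ℤ)
    (hAs : ∀ a ∈ As, 1 ≤ a) (hsep : Sep N As) :
    ∑ a ∈ As, Lf X a A / (a : ℝ) ^ 2 ≤ √X * (π * (1 - q0)) / N + 2 * (X / √(4 * (A : ℝ) ^ 3)) := by
  have hX : (0 : ℝ) < X := by exact_mod_cast hX0
  have hAR : (1 : ℝ) ≤ A := by exact_mod_cast hA
  have hNR : (1 : ℝ) ≤ N := by exact_mod_cast hN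
  have hτ : 0 < 4 * (A : ℝ) ^ 3 := by positivity
  have hsτ : 0 < √(4 * (A : ℝ) ^ 3) := sqrt_pos.2 hτ
  have hsX : 0 < √(X : ℝ) := sqrt_pos.2 hX
  have hsX2 : √(X : ℝ) ^ 2 = X := sq_sqrt hX.le
  set l : ℝ := √X / √(4 * (A : ℝ) ^ 3) with hl
  have hl0 : 0 < l := by positivity
  have hlX : √(X : ℝ) * l = X / √(4 * (A : ℝ) ^ 3) := by
    rw [hl]
    have : √(X : ℝ) * (√X / √(4 * (A : ℝ) ^ 3)) = √(X : ℝ) ^ 2 / √(4 * (A : ℝ) ^ 3) := by ring
    rw [this, hsX2]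
  have key := sum_unimodal (s := N) (by positivity) hsep (lo := 0) (fun a ha => by
      have := hAs a ha; omega) (p := 1 / l) (by push_cast; positivity)
    (w := fun a => Lf X a A / (a : ℝ) ^ 2) (W := fun z => √X * Om (l * z))
    (C := √X * (π * (1 - q0))) (M := X / √(4 * (A : ℝ) ^ 3)) (by positivity)
    (by
      intro x y hx hxy
      have hx' : (0 : ℝ) ≤ x := by exact_mod_cast hx
      have hxy' : (x : ℝ) ≤ y := by exact_mod_cast hxy
      exact mul_le_mul_of_nonneg_left (Om_mono (by positivity) (by gcongr)) hsX.le)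
    (by simp [Om_zero])
    (by
      intro x hx
      have hx' : (0 : ℝ) ≤ x := by exact_mod_cast hx
      exact mul_le_mul_of_nonneg_left (Om_le (by positivity)) hsX.le)
    (by
      intro a ha
      have ha' : (1 : ℝ) ≤ a := by exact_mod_cast hAs a ha
      rw [Lf_om hX (by linarith) (by linarith), ← hl]
      have := om_le_one (u := l * a) (by positivity)
      have h3 : 0 ≤ (X : ℝ) / √(4 * (A : ℝ) ^ 3) := by positivity
      nlinarith)
    (by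
      intro a ha hap
      have ha' : (1 : ℝ) ≤ a := by exact_mod_cast hAs a ha
      rw [Lf_om hX (by linarith) (by linarith), ← hl, ← hlX]
      have h4 := Om_inc (u := l * a) (v := l * ((a + (N : ℤ) : ℤ) : ℝ)) (by positivity) (by
          push_cast; gcongr; linarith) (by
          rw [le_div_iff₀ hl0] at hap
          push_cast
          push_cast at hap
          linarith)
      have h5 := mul_le_mul_of_nonneg_left h4 hsX.le
      have e : √(X : ℝ) * (om (l * a) * (l * ((a + (N : ℤ) : ℤ) : ℝ) - l * a)) =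
          ((N : ℤ) : ℝ) * (√X * l * om (l * a)) := by push_cast; ring
      rw [e] at h5
      linarith)
    (by
      intro a ha hap
      have ha' : (1 : ℝ) ≤ a := by exact_mod_cast hAs a ha
      rw [Lf_om hX (by linarith) (by linarith), ← hl, ← hlX]
      have h4 := Om_dec (u := l * ((a - (N : ℤ) : ℤ) : ℝ)) (v := l * a) (by
          rw [div_le_iff₀ hl0] at hap
          push_cast
          push_cast at hap
          linarith) (by
          push_cast; gcongr; linarith)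
      have h5 := mul_le_mul_of_nonneg_left h4 hsX.le
      have e : √(X : ℝ) * (om (l * a) * (l * a - l * ((a - (N : ℤ) : ℤ) : ℝ))) =
          ((N : ℤ) : ℝ) * (√X * l * om (l * a)) := by push_cast; ring
      rw [e] at h5
      linarith)
  have hN0 : (0 : ℝ) < N := by linarith
  have e : √(X : ℝ) * (π * (1 - q0)) / N + 2 * (X / √(4 * (A : ℝ) ^ 3)) =
      (√X * (π * (1 - q0)) + 2 * N * (X / √(4 * (A : ℝ) ^ 3))) / N := by
    field_simp
  rw [e, le_div_iff₀ hN0]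
  push_cast at key
  linarith

lemma Lf_zero {X : ℝ} {a A : ℝ} (hX : 0 ≤ X) (ha : 1 ≤ a) (h : 4 * A ^ 3 ≤ 3 / 4 * X) : Lf X a A = 0 := by
  unfold Lf
  have h2 : 1 ≤ a ^ 2 := by nlinarith
  rw [sqrt_eq_zero_of_nonpos (by nlinarith), sqrt_eq_zero_of_nonpos (by nlinarith)]
  simp

end Pool.Agent.K4H52.DH
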