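import Pool.Agent.K4H52.DH.Cnt3

/-! Counting the forms: level `a`. -/

set_option autoImplicit false

namespace Pool.Agent.K4H52.DH

open Real

/-- the forms to be counted -/
def Ok (X : ℕ) (q : ℤ × ℤ × ℤ × ℤ) : Prop :=
  1 ≤ q.1 ∧ 0 ≤ q.2.1 ∧ q.2.1 < q.1 ∧ 1 ≤ hA q.1 q.2.1 q.2.2.1 ∧
    3 * hA q.1 q.2.1 q.2.2.1 ^ 2 ≤ X ∧ hn q.1 q.2.1 q.2.2.1 q.2.2.2 ≤ X ∧
      3 * (X : ℤ) < 4 * hn q.1 q.2.1 q.2.2.1 q.2.2.2

lemma Ok.a_le {X : ℕ} {q : ℤ × ℤ × ℤ × ℤ} (h : Ok X q) (hX : 0 < X) : (q.1 : ℝ) ≤ √(√(2 * X)) := by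
  obtain ⟨a, b, c, d⟩ := q
  obtain ⟨h1, h2, h3, h4, h5, h6, h7⟩ := h
  simp only at h1 h2 h3 h4 h5 h6 h7 ⊢
  have hs := syzygy a b c d
  have h8 : 3 * (X : ℤ) * a ^ 2 ≤ 16 * hA a b c ^ 3 := by
    have := sq_nonneg (hG a b c d)
    nlinarith [sq_nonneg a]
  have hX' : (0 : ℝ) < X := by exact_mod_cast hX
  have h8' : 3 * (X : ℝ) * (a : ℝ) ^ 2 ≤ 16 * (hA a b c : ℝ) ^ 3 := by exact_mod_cast h8
  have h5' : 3 * (hA a b c : ℝ) ^ 2 ≤ X := by exact_mod_cast h5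
  have h4' : (1 : ℝ) ≤ hA a b c := by exact_mod_cast h4
  have h1' : (1 : ℝ) ≤ a := by exact_mod_cast h1
  have h9 : (3 * (X : ℝ) * (a : ℝ) ^ 2) ^ 2 ≤ (16 * (hA a b c : ℝ) ^ 3) ^ 2 :=
    pow_le_pow_left₀ (by positivity) h8' 2
  have h10 : (3 * (hA a b c : ℝ) ^ 2) ^ 3 ≤ (X : ℝ) ^ 3 := pow_le_pow_left₀ (by positivity) h5' 3
  have h11 : 9 * (X : ℝ) ^ 2 * (a : ℝ) ^ 4 ≤ 256 / 27 * (X : ℝ) ^ 3 := by
    have e1 : (3 * (X : ℝ) * (a : ℝ) ^ 2) ^ 2 = 9 * (X : ℝ) ^ 2 * (a : ℝ) ^ 4 := by ring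
    have e2 : (16 * (hA a b c : ℝ) ^ 3) ^ 2 = 256 / 27 * (3 * (hA a b c : ℝ) ^ 2) ^ 3 := by ring
    rw [e1, e2] at h9
    linarith
  have h12 : (a : ℝ) ^ 4 ≤ 2 * X := by
    have h13 : (X : ℝ) ^ 2 * (9 * (a : ℝ) ^ 4) ≤ (X : ℝ) ^ 2 * (256 / 27 * X) := by nlinarith
    have h14 := le_of_mul_le_mul_left h13 (by positivity)
    linarith
  apply le_sqrt_of_sq_le
  apply le_sqrt_of_sq_le
  calc ((a : ℝ) ^ 2) ^ 2 = (a : ℝ) ^ 4 := by ring
    _ ≤ _ := h12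

/-- The bound for one `A`. -/
lemma one_A (X N : ℕ) (hN : 0 < N) (hX0 : 0 < X) (A : ℤ) (hA : 1 ≤ A) (As : Finset ℤ)
    (hAs : ∀ a ∈ As, 1 ≤ a) (hsep : Sep N As) :
    ∑ a ∈ As, Lf X a A / (a : ℝ) ^ 2 * (1 / N ^ 3 + 1 / (a * N ^ 2)) ≤
      101 / 100 * (√X * (π * (1 - q0))) / N ^ 4 + 103 * (X / √(4 * (A : ℝ) ^ 3)) := by
  classical
  have hX : (0 : ℝ) < X := by exact_mod_cast hX0
  have hAR : (1 : ℝ) ≤ A := by exact_mod_cast hA
  have hNR : (1 : ℝ) ≤ N := by exact_mod_cast hN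
  have hsτ : 0 < √(4 * (A : ℝ) ^ 3) := sqrt_pos.2 (by positivity)
  set M : ℝ := X / √(4 * (A : ℝ) ^ 3) with hM
  have hM0 : 0 ≤ M := by positivity
  have h1 := level_w X N hN hX0 A hA As hAs hsep
  rw [← hM] at h1
  set F := As.filter (fun a : ℤ => a < 100 * (N : ℤ)) with hF
  have hw0 : ∀ a : ℤ, 0 ≤ Lf X a A / (a : ℝ) ^ 2 := fun a =>
    div_nonneg (Lf_nonneg hX.le _ _) (sq_nonneg _)
  have hwM : ∀ a ∈ As, Lf X a A / (a : ℝ) ^ 2 ≤ M := by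
    intro a ha
    have ha' : (1 : ℝ) ≤ a := by exact_mod_cast hAs a ha
    rw [Lf_om hX (by linarith) (by linarith), ← hM]
    have hl0 : 0 < √(X : ℝ) / √(4 * (A : ℝ) ^ 3) := by positivity
    have := om_le_one (u := √(X : ℝ) / √(4 * (A : ℝ) ^ 3) * a) (by positivity)
    nlinarith
  have h2 : ∑ a ∈ As, Lf X a A / (a : ℝ) ^ 2 * (1 / N ^ 3 + 1 / (a * N ^ 2)) ≤
      ∑ a ∈ As, (Lf X a A / (a : ℝ) ^ 2 * (101 / 100 / N ^ 3) +
        if a < 100 * (N : ℤ) then M * (1 / N ^ 2) else 0) := by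
    refine Finset.sum_le_sum fun a ha => ?_
    have ha' : (1 : ℝ) ≤ a := by exact_mod_cast hAs a ha
    have hw := hw0 a
    have hwm := hwM a ha
    split_ifs with hlt
    · have h3 : (1 : ℝ) / (a * N ^ 2) ≤ 1 / N ^ 2 := by
        apply one_div_le_one_div_of_le (by positivity)
        nlinarith [show (0 : ℝ) < (N : ℝ) ^ 2 by positivity]
      have h4 : Lf X a A / (a : ℝ) ^ 2 * (1 / (a * N ^ 2)) ≤ M * (1 / N ^ 2) :=
        mul_le_mul hwm h3 (by positivity) hM0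
      have h5 : Lf X a A / (a : ℝ) ^ 2 * (1 / N ^ 3) ≤ Lf X a A / (a : ℝ) ^ 2 * (101 / 100 / N ^ 3) := by
        apply mul_le_mul_of_nonneg_left _ hw
        gcongr
        norm_num
      rw [mul_add]
      linarith
    · have hlt' : (100 : ℝ) * N ≤ a := by
        push Not at hlt
        exact_mod_cast hlt
      rw [add_zero]
      apply mul_le_mul_of_nonneg_left _ hw
      have h3 : (1 : ℝ) / (a * N ^ 2) ≤ 1 / (100 * N ^ 3) := by
        apply one_div_le_one_div_of_le (by positivity)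
        nlinarith [show (0 : ℝ) < (N : ℝ) ^ 2 by positivity]
      have h4 : (1 : ℝ) / (100 * N ^ 3) = 1 / 100 / N ^ 3 := by field_simp
      rw [h4] at h3
      have h5 : (101 / 100 / N ^ 3 : ℝ) = 1 / N ^ 3 + 1 / 100 / N ^ 3 := by field_simp; norm_num
      rw [h5]
      linarith
  rw [Finset.sum_add_distrib, ← Finset.sum_mul, ← Finset.sum_filter, ← hF, Finset.sum_const,
    nsmul_eq_mul] at h2
  have hFc : (F.card : ℝ) ≤ 100 * N := by
    have h5 : F ⊆ Finset.Ico 1 (100 * (N : ℤ)) := fun a ha => by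
      rw [hF, Finset.mem_filter] at ha
      rw [Finset.mem_Ico]
      exact ⟨hAs a ha.1, ha.2⟩
    have h6 := Finset.card_le_card h5
    rw [Int.card_Ico] at h6
    have h7 : F.card ≤ 100 * N := by omega
    exact_mod_cast h7
  have h3 : (F.card : ℝ) * (M * (1 / N ^ 2)) ≤ 100 * N * (M * (1 / N ^ 2)) :=
    mul_le_mul_of_nonneg_right hFc (by positivity)
  have h4 : 100 * N * (M * (1 / N ^ 2)) ≤ 100 * M := by
    have : 100 * N * (M * (1 / (N : ℝ) ^ 2)) = 100 * M / N := by field_simp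
    rw [this, div_le_iff₀ (by positivity)]
    nlinarith
  have h5 : (∑ a ∈ As, Lf X a A / (a : ℝ) ^ 2) * (101 / 100 / N ^ 3) ≤
      (√X * (π * (1 - q0)) / N + 2 * M) * (101 / 100 / N ^ 3) :=
    mul_le_mul_of_nonneg_right h1 (by positivity)
  have h6 : (√X * (π * (1 - q0)) / N + 2 * M) * (101 / 100 / N ^ 3) =
      101 / 100 * (√X * (π * (1 - q0))) / N ^ 4 + 2 * M * (101 / 100 / N ^ 3) := by
    field_simp
  have h7 : 2 * M * (101 / 100 / (N : ℝ) ^ 3) ≤ 3 * M := by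
    have : 101 / 100 / (N : ℝ) ^ 3 ≤ 101 / 100 := by
      apply div_le_self (by norm_num)
      exact one_le_pow₀ hNR
    nlinarith
  rw [h6] at h5
  linarith

/-- Level `a`. -/
theorem level_a (X N : ℕ) (hN : 0 < N) (hX0 : 0 < X) (T : Finset (ℤ × ℤ × ℤ × ℤ))
    (hT : ∀ q ∈ T, Ok X q)
    (hc : ∀ q ∈ T, ∀ q' ∈ T, (N : ℤ) ∣ q.1 - q'.1 ∧ (N : ℤ) ∣ q.2.1 - q'.2.1 ∧
      (N : ℤ) ∣ q.2.2.1 - q'.2.2.1 ∧ (N : ℤ) ∣ q.2.2.2 - q'.2.2.2) :
    (T.card : ℝ) ≤ 101 / 100 * (π * (1 - q0)) / √3 / N ^ 4 * X +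
      103 * X * ∑ A ∈ (SX X).filter (fun A : ℤ => 3 / 4 * (X : ℝ) < 4 * (A : ℝ) ^ 3),
        1 / √(4 * (A : ℝ) ^ 3) + √(√(2 * X)) * (4 * √X + 2 * √(√(2 * X))) := by
  classical
  have hX : (0 : ℝ) < X := by exact_mod_cast hX0
  have hNR : (1 : ℝ) ≤ N := by exact_mod_cast hN
  set As := T.image Prod.fst with hAs
  have hAmem : ∀ a ∈ As, ∃ q, (a, q) ∈ T := by
    intro a ha
    rw [hAs, Finset.mem_image] at ha
    obtain ⟨⟨a', q⟩, h, rfl⟩ := ha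
    exact ⟨q, h⟩
  have hA1 : ∀ a ∈ As, 1 ≤ a := by
    intro a ha
    obtain ⟨q, hq⟩ := hAmem a ha
    exact (hT _ hq).1
  have hAR : ∀ a ∈ As, (a : ℝ) ≤ √(√(2 * X)) := by
    intro a ha
    obtain ⟨q, hq⟩ := hAmem a ha
    exact (hT _ hq).a_le hX0
  have hsep : Sep N As := by
    intro x hx y hy hxy
    obtain ⟨q, hq⟩ := hAmem x hx
    obtain ⟨q', hq'⟩ := hAmem y hy
    obtain ⟨k, hk⟩ := (hc _ hq' _ hq).1
    simp only at hk
    have hpos : 0 < (N : ℤ) := by positivity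
    have : 0 < k := by
      by_contra hcon
      push Not at hcon
      nlinarith
    nlinarith
  set R : ℝ := √(√(2 * X)) with hR
  have hR0 : 0 ≤ R := sqrt_nonneg _
  have h1 : (T.card : ℝ) ≤ ∑ a ∈ As, ((∑ A ∈ SX X, Lf X a A) * (1 / (a ^ 2 * N ^ 3) +
      1 / (a ^ 3 * N ^ 2)) + (4 * √X + 2 * R)) := by
    rw [card_fib T, ← hAs]
    push_cast
    refine Finset.sum_le_sum fun a ha => ?_
    have h2 := level_b X N hN a (hA1 a ha) (fib T a) (fun q hq => by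
      rw [mem_fib] at hq
      have := hT _ hq
      exact this.2) (fun q hq q' hq' => by
      rw [mem_fib] at hq hq'
      exact (hc _ hq _ hq').2)
    have := hAR a ha
    linarith
  rw [Finset.sum_add_distrib, Finset.sum_const, nsmul_eq_mul] at h1
  -- error term
  have hcA : (As.card : ℝ) ≤ R := by
    rcases As.eq_empty_or_nonempty with h | h
    · rw [h]; simpa using hR0
    · have hR1 : 1 ≤ R := by
        obtain ⟨a, ha⟩ := h
        have h2 : (1 : ℝ) ≤ a := by exact_mod_cast hA1 a ha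
        linarith [hAR a ha]
      have h4 := card_sep (s := N) (by positivity) hsep (x := 1) (y := R) hR1 (by
        intro t ht
        exact ⟨by exact_mod_cast hA1 t ht, hAR t ht⟩)
      have h5 : (R - 1) / ((N : ℤ) : ℝ) ≤ R - 1 := by
        apply div_le_self (by linarith)
        exact_mod_cast hNR
      linarith
  have h2 : (As.card : ℝ) * (4 * √X + 2 * R) ≤ R * (4 * √X + 2 * R) :=
    mul_le_mul_of_nonneg_right hcA (by positivity)
  -- main term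
  have h3 : ∑ a ∈ As, (∑ A ∈ SX X, Lf X a A) * (1 / ((a : ℝ) ^ 2 * N ^ 3) + 1 / (a ^ 3 * N ^ 2)) =
      ∑ A ∈ SX X, ∑ a ∈ As, Lf X a A / (a : ℝ) ^ 2 * (1 / N ^ 3 + 1 / (a * N ^ 2)) := by
    rw [Finset.sum_comm]
    refine Finset.sum_congr rfl fun a ha => ?_
    rw [Finset.sum_mul]
    refine Finset.sum_congr rfl fun A _ => ?_
    have ha' : (1 : ℝ) ≤ a := by exact_mod_cast hA1 a ha
    field_simp
  have h4 : ∑ A ∈ SX X, ∑ a ∈ As, Lf X a A / (a : ℝ) ^ 2 * (1 / N ^ 3 + 1 / (a * N ^ 2)) ≤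
      ∑ A ∈ SX X, (101 / 100 * (√X * (π * (1 - q0))) / N ^ 4 +
        if 3 / 4 * (X : ℝ) < 4 * (A : ℝ) ^ 3 then 103 * X * (1 / √(4 * (A : ℝ) ^ 3)) else 0) := by
    refine Finset.sum_le_sum fun A hA => ?_
    rw [mem_SX] at hA
    have hq := q0_lt
    split_ifs with h
    · have := one_A X N hN hX0 A hA.1 As hA1 hsep
      have e : 103 * (X : ℝ) * (1 / √(4 * (A : ℝ) ^ 3)) = 103 * (X / √(4 * (A : ℝ) ^ 3)) := by ring
      rw [e]
      exact this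
    · rw [Finset.sum_eq_zero, add_zero]
      · have : 0 ≤ π * (1 - q0) := mul_nonneg pi_pos.le (by linarith)
        positivity
      · intro a ha
        have ha' : (1 : ℝ) ≤ a := by exact_mod_cast hA1 a ha
        rw [Lf_zero hX.le ha' (by linarith)]
        simp
  rw [Finset.sum_add_distrib, Finset.sum_const, nsmul_eq_mul, ← Finset.sum_filter,
    ← Finset.mul_sum] at h4
  have hcS : ((SX X).card : ℝ) ≤ √X / √3 := by
    have h5 : (SX X : Finset ℤ) ⊆ Finset.Icc 1 ⌊√(X : ℝ) / √3⌋ := by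
      intro A hA
      rw [mem_SX] at hA
      rw [Finset.mem_Icc]
      refine ⟨hA.1, Int.le_floor.2 ?_⟩
      rw [← sqrt_div' _ (by norm_num)]
      apply le_sqrt_of_sq_le
      have : 3 * (A : ℝ) ^ 2 ≤ X := by exact_mod_cast hA.2
      linarith
    have h6 := Finset.card_le_card h5
    rw [Int.card_Icc] at h6
    have h7 : 0 ≤ ⌊√(X : ℝ) / √3⌋ := Int.floor_nonneg.2 (by positivity)
    have h8 : ((SX X).card : ℤ) ≤ ⌊√(X : ℝ) / √3⌋ := by omega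
    have h9 : ((SX X).card : ℝ) ≤ (⌊√(X : ℝ) / √3⌋ : ℝ) := by exact_mod_cast h8
    exact h9.trans (Int.floor_le _)
  have hq := q0_lt
  have hpq : 0 ≤ π * (1 - q0) := mul_nonneg pi_pos.le (by linarith)
  have h5 : ((SX X).card : ℝ) * (101 / 100 * (√X * (π * (1 - q0))) / N ^ 4) ≤
      √X / √3 * (101 / 100 * (√X * (π * (1 - q0))) / N ^ 4) :=
    mul_le_mul_of_nonneg_right hcS (by positivity)
  have h6 : √X / √3 * (101 / 100 * (√X * (π * (1 - q0))) / N ^ 4) =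
      101 / 100 * (π * (1 - q0)) / √3 / N ^ 4 * X := by
    have : (X : ℝ) = √X * √X := (mul_self_sqrt hX.le).symm
    rw [this]
    rw [sqrt_mul_self (sqrt_nonneg _)]
    ring
  rw [h3] at h1
  rw [h6] at h5
  linarith

end Pool.Agent.K4H52.DH
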