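import Pool.Agent.K4H52.DH.Cnt4

/-! Counting the forms: asymptotics. -/

set_option autoImplicit false

namespace Pool.Agent.K4H52.DH

open Real Filter

lemma summable_aux : Summable (fun k : ℕ => 1 / √(4 * (k : ℝ) ^ 3)) := by
  have h : Summable (fun k : ℕ => 1 / (k : ℝ) ^ (3 / 2 : ℝ)) :=
    Real.summable_one_div_nat_rpow.2 (by norm_num)
  refine (h.mul_left (1 / 2)).congr fun k => ?_
  have e : √(4 * (k : ℝ) ^ 3) = 2 * (k : ℝ) ^ (3 / 2 : ℝ) := by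
    rw [sqrt_mul (by norm_num), show (4 : ℝ) = 2 ^ 2 by norm_num, sqrt_sq (by norm_num)]
    congr 1
    rw [sqrt_eq_rpow, ← rpow_natCast, ← rpow_mul (Nat.cast_nonneg k)]
    norm_num
  rw [e, one_div, one_div, one_div, mul_inv]

lemma tail_small {ε : ℝ} (hε : 0 < ε) : ∀ᶠ X : ℕ in atTop,
    ∑ A ∈ (SX X).filter (fun A : ℤ => 3 / 4 * (X : ℝ) < 4 * (A : ℝ) ^ 3),
      1 / √(4 * (A : ℝ) ^ 3) < ε := by
  classical
  obtain ⟨s, hs⟩ := summable_iff_vanishing_norm.1 summable_aux ε hε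
  obtain ⟨B, hB⟩ := s.bddAbove
  filter_upwards [eventually_gt_atTop (6 * B ^ 3)] with X hX
  set F := (SX X).filter (fun A : ℤ => 3 / 4 * (X : ℝ) < 4 * (A : ℝ) ^ 3) with hF
  have hinj : Set.InjOn Int.toNat (F : Set ℤ) := by
    intro x hx y hy h
    rw [Finset.mem_coe, hF, Finset.mem_filter, mem_SX] at hx hy
    have := hx.1.1
    have := hy.1.1
    omega
  have h1 := hs (F.image Int.toNat) (by
    rw [Finset.disjoint_left]
    intro k hk hks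
    rw [Finset.mem_image] at hk
    obtain ⟨A, hA, rfl⟩ := hk
    rw [hF, Finset.mem_filter, mem_SX] at hA
    have h2 : A.toNat ≤ B := hB hks
    have h3 : (A : ℤ) ≤ B := by omega
    have h4 : (A : ℝ) ≤ B := by exact_mod_cast h3
    have h5 : (1 : ℝ) ≤ A := by exact_mod_cast hA.1.1
    have h6 : (A : ℝ) ^ 3 ≤ (B : ℝ) ^ 3 := pow_le_pow_left₀ (by linarith) h4 3
    have h7 : (6 * (B : ℝ) ^ 3) < X := by exact_mod_cast hX
    linarith [hA.2])
  rw [Finset.sum_image hinj] at h1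
  have e : ∑ A ∈ F, 1 / √(4 * ((A.toNat : ℕ) : ℝ) ^ 3) = ∑ A ∈ F, 1 / √(4 * (A : ℝ) ^ 3) := by
    refine Finset.sum_congr rfl fun A hA => ?_
    rw [hF, Finset.mem_filter, mem_SX] at hA
    have h2 : ((A.toNat : ℕ) : ℤ) = A := Int.toNat_of_nonneg (by have := hA.1.1; omega)
    have h3 : ((A.toNat : ℕ) : ℝ) = (A : ℝ) := by exact_mod_cast h2
    rw [h3]
  rw [e] at h1
  exact (le_abs_self _).trans_lt h1

lemma error_small {ε : ℝ} (hε : 0 < ε) : ∀ᶠ X : ℕ in atTop,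
    √(√(2 * X)) * (4 * √X + 2 * √(√(2 * X))) ≤ ε * X := by
  have ht : Tendsto (fun X : ℕ => √(X : ℝ)) atTop atTop :=
    tendsto_sqrt_atTop.comp tendsto_natCast_atTop_atTop
  filter_upwards [ht.eventually_ge_atTop (8 * (8 / ε + 1) / ε), eventually_gt_atTop 0] with X hX hX0
  have hXR : (0 : ℝ) < X := by exact_mod_cast hX0
  set t : ℝ := √(X : ℝ) with htd
  have htt : t ^ 2 = X := sq_sqrt hXR.le
  have ht0 : 0 < t := sqrt_pos.2 hXR
  set R : ℝ := √(√(2 * X)) with hR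
  have hR0 : 0 ≤ R := sqrt_nonneg _
  have hR2 : R ^ 2 ≤ 2 * t := by
    rw [hR, sq_sqrt (sqrt_nonneg _), sqrt_mul (by norm_num), ← htd]
    have : √(2 : ℝ) ≤ 2 := by
      rw [sqrt_le_left (by norm_num)]; norm_num
    nlinarith
  rw [← htt]
  -- 4 R t ≤ (8/ε) R² + (ε/2) t²
  have h1 : 4 * R * t ≤ 8 / ε * R ^ 2 + ε / 2 * t ^ 2 := by
    have h2 : 0 ≤ (4 / ε * R - t) ^ 2 * (ε / 2) := by positivity
    have h3 : (4 / ε * R - t) ^ 2 * (ε / 2) = 8 / ε * R ^ 2 - 4 * R * t + ε / 2 * t ^ 2 := by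
      field_simp
      ring
    rw [h3] at h2
    linarith
  have h4 : 8 / ε * R ^ 2 ≤ 8 / ε * (2 * t) := mul_le_mul_of_nonneg_left hR2 (by positivity)
  have h5 : 8 * (8 / ε + 1) ≤ ε * t := by
    rw [div_le_iff₀ hε] at hX
    linarith
  have h6 : 8 * (8 / ε + 1) * t ≤ ε * t * t := mul_le_mul_of_nonneg_right h5 ht0.le
  have e : R * (4 * t + 2 * R) = 4 * R * t + 2 * R ^ 2 := by ring
  rw [e]
  have h7 : 0 < 8 / ε := by positivity
  nlinarith

/-- the constant `V` -/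
noncomputable def Vc : ℝ := π * (1 - q0) / √3

/-- **Counting theorem**. -/
theorem count_forms (N : ℕ) (hN : 0 < N) {ε : ℝ} (hε : 0 < ε) : ∀ᶠ X : ℕ in atTop,
    ∀ T : Finset (ℤ × ℤ × ℤ × ℤ), (∀ q ∈ T, Ok X q) →
    (∀ q ∈ T, ∀ q' ∈ T, (N : ℤ) ∣ q.1 - q'.1 ∧ (N : ℤ) ∣ q.2.1 - q'.2.1 ∧
      (N : ℤ) ∣ q.2.2.1 - q'.2.2.1 ∧ (N : ℤ) ∣ q.2.2.2 - q'.2.2.2) →
    (T.card : ℝ) ≤ (101 / 100 * Vc / N ^ 4 + ε) * X := by
  filter_upwards [tail_small (show 0 < ε / 206 by positivity), error_small (show 0 < ε / 2 by positivity),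
    eventually_gt_atTop 0] with X h1 h2 hX T hT hc
  have h3 := level_a X N hN hX T hT hc
  have hXR : (0 : ℝ) < X := by exact_mod_cast hX
  have h4 := mul_le_mul_of_nonneg_left h1.le (show (0 : ℝ) ≤ 103 * X by positivity)
  have e : 101 / 100 * (π * (1 - q0)) / √3 / (N : ℝ) ^ 4 * X = 101 / 100 * Vc / N ^ 4 * X := by
    unfold Vc; ring
  rw [e] at h3
  have : 103 * (X : ℝ) * (ε / 206) = ε / 2 * X := by ring
  rw [this] at h4
  rw [add_mul]
  linarith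

lemma Vc_lt : Vc < 27 / 100 := by
  unfold Vc q0
  have h1 := pi_lt_d2
  have h3 : (1.73 : ℝ) < √3 := by
    apply lt_sqrt_of_sq_lt; norm_num
  have h0 : (0 : ℝ) < √3 := by linarith
  rw [div_lt_iff₀ h0]
  have h4 : √3 < 2 := by
    rw [sqrt_lt' (by norm_num)]; norm_num
  nlinarith [pi_pos]

lemma Vc_nonneg : 0 ≤ Vc := by
  unfold Vc
  have := q0_lt
  have : 0 ≤ π * (1 - q0) := mul_nonneg pi_pos.le (by linarith)
  positivity

end Pool.Agent.K4H52.DH
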