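import Mathlib

/-! Local counts. -/

set_option autoImplicit false

namespace Pool.Agent.K4H52.DH

open Classical in
/-- the non-squares -/
noncomputable def NR (l : ℕ) [NeZero l] : Finset (ZMod l) := Finset.univ.filter fun x => ¬ IsSquare x

/-- minus `hn`, over a ring -/
def Dr {R : Type*} [CommRing R] (a b c d : R) : R :=
  (b * c - a * d) ^ 2 - 4 * (b ^ 2 - a * c) * (c ^ 2 - b * d)

open Classical in
/-- the forms modulo `l` whose discriminant is a non-square -/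
noncomputable def Hl (l : ℕ) [NeZero l] : Finset (ZMod l × ZMod l × ZMod l × ZMod l) :=
  Finset.univ.filter fun q => ¬ IsSquare (Dr q.1 q.2.1 q.2.2.1 q.2.2.2)

section
variable {l : ℕ} [Fact l.Prime]

lemma mem_NR (x : ZMod l) : x ∈ NR l ↔ ¬ IsSquare x := by
  unfold NR; simp

lemma mem_Hl (q : ZMod l × ZMod l × ZMod l × ZMod l) :
    q ∈ Hl l ↔ ¬ IsSquare (Dr q.1 q.2.1 q.2.2.1 q.2.2.2) := by
  unfold Hl; simp

lemma sq_of_mul {F : Type*} [Field F] {x y z : F} (hz : z ≠ 0) (h : x * z ^ 2 = y ^ 2) : IsSquare x :=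
  ⟨y / z, by field_simp; exact h⟩

lemma card_Hl (h5 : 5 ≤ l) : (Hl l).card ≤ l ^ 3 * (NR l).card := by
  classical
  have h4 : (4 : ZMod l) ≠ 0 := by
    intro h
    have h1 : ((4 : ℕ) : ZMod l) = 0 := by exact_mod_cast h
    rw [ZMod.natCast_eq_zero_iff] at h1
    have := Nat.le_of_dvd (by norm_num) h1
    omega
  set Z : Finset (ZMod l) := Finset.univ.filter fun x => x ≠ 0 with hZ
  have hZc : Z.card = l - 1 := by
    rw [hZ, Finset.filter_ne', Finset.card_erase_of_mem (Finset.mem_univ _), Finset.card_univ,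
      ZMod.card]
  set P1 := (Hl l).filter fun q => q.1 ≠ 0 with hP1
  set P0 := (Hl l).filter fun q => ¬ q.1 ≠ 0 with hP0
  have hsum : (Hl l).card = P1.card + P0.card :=
    (Finset.card_filter_add_card_filter_not (s := Hl l) (fun q => q.1 ≠ 0)).symm
  -- a ≠ 0
  have key : ∀ q ∈ P1, q.1 ≠ 0 ∧ ¬ IsSquare (Dr q.1 q.2.1 q.2.2.1 q.2.2.2) ∧
      q.2.1 ^ 2 - q.1 * q.2.2.1 ≠ 0 := by
    rintro ⟨a, b, c, d⟩ hq
    rw [hP1, Finset.mem_filter, mem_Hl] at hq
    obtain ⟨h1, h2⟩ := hq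
    refine ⟨h2, h1, fun h => h1 ?_⟩
    simp only at h h2 ⊢
    refine sq_of_mul (z := a) (y := 2 * b ^ 3 - 3 * a * b * c + a ^ 2 * d) h2 ?_
    unfold Dr
    linear_combination (-4 * (b ^ 2 - a * c) ^ 2) * h
  have hc1 : P1.card ≤ (Z ×ˢ (Finset.univ : Finset (ZMod l)) ×ˢ (Finset.univ : Finset (ZMod l)) ×ˢ
      NR l).card := by
    refine Finset.card_le_card_of_injOn (fun q => (q.1, q.2.1,
      (2 * q.2.1 ^ 3 - 3 * q.1 * q.2.1 * q.2.2.1 + q.1 ^ 2 * q.2.2.2) / (q.2.1 ^ 2 - q.1 * q.2.2.1),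
      ((2 * q.2.1 ^ 3 - 3 * q.1 * q.2.1 * q.2.2.1 + q.1 ^ 2 * q.2.2.2) /
        (q.2.1 ^ 2 - q.1 * q.2.2.1)) ^ 2 - 4 * (q.2.1 ^ 2 - q.1 * q.2.2.1))) ?_ ?_
    · rintro ⟨a, b, c, d⟩ hq
      obtain ⟨h1, h2, h3⟩ := key _ hq
      simp only at h1 h2 h3
      simp only [Finset.coe_product, Set.mem_prod, Finset.mem_coe, Finset.mem_univ, true_and, hZ,
        Finset.mem_filter, mem_NR]
      refine ⟨h1, fun hsq => h2 ?_⟩
      obtain ⟨s, hs⟩ := hsq
      refine sq_of_mul (z := a) (y := s * (b ^ 2 - a * c)) h1 ?_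
      have e : (s * (b ^ 2 - a * c)) ^ 2 = (s * s) * (b ^ 2 - a * c) ^ 2 := by ring
      rw [e, ← hs]
      have e2 : (((2 * b ^ 3 - 3 * a * b * c + a ^ 2 * d) / (b ^ 2 - a * c)) ^ 2 -
          4 * (b ^ 2 - a * c)) * (b ^ 2 - a * c) ^ 2 =
          (2 * b ^ 3 - 3 * a * b * c + a ^ 2 * d) ^ 2 - 4 * (b ^ 2 - a * c) ^ 3 := by
        field_simp
      rw [e2]
      unfold Dr
      ring
    · rintro ⟨a, b, c, d⟩ hq ⟨a', b', c', d'⟩ hq' h
      obtain ⟨h1, h2, h3⟩ := key _ hq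
      obtain ⟨h1', h2', h3'⟩ := key _ hq'
      simp only [Prod.mk.injEq] at h h1 h2 h3 h1' h2' h3'
      obtain ⟨rfl, rfl, hg, hv⟩ := h
      rw [hg] at hv
      have hA : b ^ 2 - a * c = b ^ 2 - a * c' := by
        have : 4 * (b ^ 2 - a * c) = 4 * (b ^ 2 - a * c') := by linear_combination -hv
        exact mul_left_cancel₀ h4 this
      have hcc : c = c' := by
        have : a * c = a * c' := by linear_combination -hA
        exact mul_left_cancel₀ h1 this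
      subst hcc
      rw [div_left_inj' h3] at hg
      have hdd : d = d' := by
        have : a ^ 2 * d = a ^ 2 * d' := by linear_combination hg
        exact mul_left_cancel₀ (pow_ne_zero 2 h1) this
      subst hdd
      rfl
  -- a = 0
  have key0 : ∀ q ∈ P0, q.1 = 0 ∧ q.2.1 ≠ 0 ∧
      ¬ IsSquare (4 * q.2.1 * q.2.2.2 - 3 * q.2.2.1 ^ 2) := by
    rintro ⟨a, b, c, d⟩ hq
    rw [hP0, Finset.mem_filter, mem_Hl] at hq
    obtain ⟨h1, h2⟩ := hq
    simp only [ne_eq, not_not] at h1 h2 ⊢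
    subst h2
    refine ⟨rfl, fun h => h1 ?_, fun h => h1 ?_⟩
    · subst h
      unfold Dr
      exact ⟨0, by ring⟩
    · obtain ⟨s, hs⟩ := h
      refine ⟨b * s, ?_⟩
      unfold Dr
      linear_combination b ^ 2 * hs
  have hc0 : P0.card ≤ (Z ×ˢ (Finset.univ : Finset (ZMod l)) ×ˢ NR l).card := by
    refine Finset.card_le_card_of_injOn (fun q => (q.2.1, q.2.2.1,
      4 * q.2.1 * q.2.2.2 - 3 * q.2.2.1 ^ 2)) ?_ ?_
    · rintro ⟨a, b, c, d⟩ hq
      obtain ⟨h1, h2, h3⟩ := key0 _ hq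
      simp only at h1 h2 h3
      simp only [Finset.coe_product, Set.mem_prod, Finset.mem_coe, Finset.mem_univ, true_and, hZ,
        Finset.mem_filter, mem_NR]
      exact ⟨h2, h3⟩
    · rintro ⟨a, b, c, d⟩ hq ⟨a', b', c', d'⟩ hq' h
      obtain ⟨h1, h2, h3⟩ := key0 _ hq
      obtain ⟨h1', h2', h3'⟩ := key0 _ hq'
      simp only [Prod.mk.injEq] at h h1 h2 h3 h1' h2' h3'
      obtain ⟨rfl, rfl, hv⟩ := h
      subst h1
      subst h1'
      have hdd : d = d' := by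
        have : (4 * b) * d = (4 * b) * d' := by linear_combination hv
        exact mul_left_cancel₀ (mul_ne_zero h4 h2) this
      subst hdd
      rfl
  simp only [Finset.card_product, hZc, Finset.card_univ, ZMod.card] at hc1 hc0
  rw [hsum]
  obtain ⟨m, hm⟩ : ∃ m, l = m + 1 := ⟨l - 1, by omega⟩
  have h6 : P1.card + P0.card ≤ (l - 1) * (l * (l * (NR l).card)) + (l - 1) * (l * (NR l).card) :=
    Nat.add_le_add hc1 hc0
  refine h6.trans ?_
  have e : (l - 1) * (l * (l * (NR l).card)) + (l - 1) * (l * (NR l).card) =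
      ((l - 1) * l * (l + 1)) * (NR l).card := by ring
  rw [e]
  refine Nat.mul_le_mul_right _ ?_
  have h7 : l - 1 = m := by omega
  rw [h7, hm]
  ring_nf
  nlinarith

lemma NR_pos (h5 : 5 ≤ l) : 0 < (NR l).card := by
  rw [Finset.card_pos]
  obtain ⟨a, ha⟩ := FiniteField.exists_nonsquare (F := ZMod l) (by
    rw [ZMod.ringChar_zmod_n]; omega)
  exact ⟨a, (mem_NR a).2 ha⟩

end

/-- the forms modulo 2 -/
def H2 : Finset (ZMod 2 × ZMod 2 × ZMod 2 × ZMod 2) :=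
  Finset.univ.filter fun q => q.2.1 * q.2.2.1 - q.1 * q.2.2.2 = 1 ∧
    (q.2.1 ^ 2 - q.1 * q.2.2.1) * (q.2.2.1 ^ 2 - q.2.1 * q.2.2.2) = 0

lemma card_H2 : H2.card = 3 := by decide

/-- the forms modulo 3 -/
def H3 : Finset (ZMod 3 × ZMod 3 × ZMod 3 × ZMod 3) :=
  Finset.univ.filter fun q => Dr q.1 q.2.1 q.2.2.1 q.2.2.2 ≠ 0

lemma card_H3 : H3.card = 48 := by decide +kernel

end Pool.Agent.K4H52.DH
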