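import Pool.Agent.K4H52.DH.AP

/-! Lower bound for the number of squarefree integers in a residue class. -/

set_option autoImplicit false

namespace Pool.Agent.K4H52.DH

open Real

lemma class_card (X M r : ℕ) (hM : 0 < M) : (X : ℝ) / (4 * M) - 1 ≤
    (((Finset.Ioc (3 * X / 4) X).filter (fun n => n ≡ r [MOD M])).card : ℝ) := by
  have h := Nat.Ioc_filter_modEq_card (3 * X / 4) X hM r
  have h1 : (⌊((X : ℚ) - r) / (M : ℚ)⌋ - ⌊(((3 * X / 4 : ℕ) : ℚ) - r) / (M : ℚ)⌋ : ℤ) ≤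
      (((Finset.Ioc (3 * X / 4) X).filter (fun n => n ≡ r [MOD M])).card : ℤ) := by
    rw [h]; exact le_max_left _ _
  have hMq : (0 : ℚ) < M := by exact_mod_cast hM
  have h2 := Int.lt_floor_add_one (((X : ℚ) - r) / (M : ℚ))
  have h3 := Int.floor_le ((((3 * X / 4 : ℕ) : ℚ) - r) / (M : ℚ))
  have h4 : ((3 * X / 4 : ℕ) : ℚ) ≤ 3 * X / 4 := by
    have : 4 * (3 * X / 4) ≤ 3 * X := Nat.mul_div_le _ _
    have h5 : (4 : ℚ) * ((3 * X / 4 : ℕ) : ℚ) ≤ 3 * X := by exact_mod_cast this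
    linarith
  have h5 : ((⌊((X : ℚ) - r) / (M : ℚ)⌋ - ⌊(((3 * X / 4 : ℕ) : ℚ) - r) / (M : ℚ)⌋ : ℤ) : ℚ) ≤
      (((Finset.Ioc (3 * X / 4) X).filter (fun n => n ≡ r [MOD M])).card : ℚ) := by exact_mod_cast h1
  push_cast at h5
  have h6 : ((X : ℚ) - r) / M - (((3 * X / 4 : ℕ) : ℚ) - r) / M = (X - ((3 * X / 4 : ℕ) : ℚ)) / M := by
    ring
  have h7 : (X : ℚ) / 4 / M ≤ (X - ((3 * X / 4 : ℕ) : ℚ)) / M := by
    apply div_le_div_of_nonneg_right _ hMq.le
    linarith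
  have h8 : (X : ℚ) / (4 * M) - 1 ≤
      (((Finset.Ioc (3 * X / 4) X).filter (fun n => n ≡ r [MOD M])).card : ℚ) := by
    have e : (X : ℚ) / (4 * M) = (X : ℚ) / 4 / M := by field_simp
    rw [e]
    linarith
  have h9 := (Rat.cast_le (K := ℝ)).2 h8
  push_cast at h9
  exact h9

lemma class_sq (X M r m : ℕ) (hM : 0 < M) (hm : Nat.Coprime M m) (hm0 : 0 < m) :
    (((Finset.Ioc (3 * X / 4) X).filter (fun n => n ≡ r [MOD M] ∧ m ^ 2 ∣ n)).card : ℝ) ≤
      (X : ℝ) / (4 * M) * (1 / (m : ℝ) ^ 2) + 1 := by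
  classical
  set F := (Finset.Ioc (3 * X / 4) X).filter (fun n => n ≡ r [MOD M] ∧ m ^ 2 ∣ n) with hF
  have hinj : Set.InjOn (fun n : ℕ => (n : ℤ)) (F : Set ℕ) := fun x _ y _ h => by
    have : (x : ℤ) = y := h
    omega
  have hsep : Sep ((M * m ^ 2 : ℕ) : ℤ) (F.image fun n : ℕ => (n : ℤ)) := by
    intro x hx y hy hxy
    rw [Finset.mem_image] at hx hy
    obtain ⟨u, hu, rfl⟩ := hx
    obtain ⟨v, hv, rfl⟩ := hy
    rw [hF, Finset.mem_filter] at hu hv
    have h1 : u ≡ v [MOD M] := hu.2.1.trans hv.2.1.symm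
    have huv : u < v := by omega
    have h2 : M ∣ v - u := (Nat.modEq_iff_dvd' huv.le).1 h1
    have h3 : m ^ 2 ∣ v - u := Nat.dvd_sub hv.2.2 hu.2.2
    have h4 : M * m ^ 2 ∣ v - u := Nat.Coprime.mul_dvd_of_dvd_of_dvd (Nat.Coprime.pow_right 2 hm) h2 h3
    have h5 := Nat.le_of_dvd (by omega) h4
    omega
  have hMR : (0 : ℝ) < M := by exact_mod_cast hM
  have hmR : (0 : ℝ) < m := by exact_mod_cast hm0
  have h := card_sep (s := ((M * m ^ 2 : ℕ) : ℤ)) (by positivity) hsep (x := 3 * X / 4) (y := X)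
    (by have : (0 : ℝ) ≤ X := Nat.cast_nonneg _; linarith) (by
    intro t ht
    rw [Finset.mem_image] at ht
    obtain ⟨u, hu, rfl⟩ := ht
    rw [hF, Finset.mem_filter, Finset.mem_Ioc] at hu
    have h1 := hu.1.1
    have h2 : 3 * X ≤ 4 * u := by omega
    have h3 : (3 : ℝ) * X ≤ 4 * u := by exact_mod_cast h2
    have h4 : (u : ℝ) ≤ X := by exact_mod_cast hu.1.2
    push_cast
    constructor <;> linarith)
  rw [Finset.card_image_of_injOn hinj] at h
  refine h.trans (le_of_eq ?_)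
  push_cast
  field_simp
  ring

lemma sum_inv_sq (K : ℕ) : ∑ m ∈ Finset.Icc 5 K, 1 / (m : ℝ) ^ 2 ≤ 1 / 4 := by
  have key : ∀ K : ℕ, 4 ≤ K → ∑ m ∈ Finset.Icc 5 K, 1 / (m : ℝ) ^ 2 ≤ 1 / 4 - 1 / (K : ℝ) := by
    intro K hK
    induction K, hK using Nat.le_induction with
    | base => norm_num
    | succ k hk ih =>
      rw [Finset.sum_Icc_succ_top (by omega)]
      have hk' : (4 : ℝ) ≤ k := by exact_mod_cast hk
      have : 1 / ((k + 1 : ℕ) : ℝ) ^ 2 ≤ 1 / (k : ℝ) - 1 / ((k + 1 : ℕ) : ℝ) := by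
        push_cast
        rw [div_sub_div _ _ (by positivity) (by positivity), div_le_div_iff₀ (by positivity) (by positivity)]
        nlinarith
      linarith
  rcases le_total 4 K with h | h
  · have h1 := key K h
    have : (0 : ℝ) ≤ 1 / (K : ℝ) := by positivity
    linarith
  · rw [Finset.Icc_eq_empty (by omega)]
    norm_num

/-- squarefree integers in a residue class -/
lemma class_sqfree (X M r : ℕ) (hM : 0 < M) (h6 : 6 ∣ M) (hr : Nat.Coprime r M) :
    3 / 16 * X / M - 2 - √X ≤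
    (((Finset.Ioc (3 * X / 4) X).filter (fun n => n ≡ r [MOD M] ∧ Squarefree n)).card : ℝ) := by
  classical
  set C := (Finset.Ioc (3 * X / 4) X).filter (fun n => n ≡ r [MOD M]) with hC
  set P := (Finset.Icc 5 (Nat.sqrt X)).filter (fun m => Nat.Coprime M m) with hP
  have hsub : C ⊆ ((Finset.Ioc (3 * X / 4) X).filter (fun n => n ≡ r [MOD M] ∧ Squarefree n)) ∪
      P.biUnion (fun m => (Finset.Ioc (3 * X / 4) X).filter (fun n => n ≡ r [MOD M] ∧ m ^ 2 ∣ n)) := by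
    intro n hn
    rw [hC, Finset.mem_filter] at hn
    rw [Finset.mem_union]
    by_cases hs : Squarefree n
    · left
      rw [Finset.mem_filter]
      exact ⟨hn.1, hn.2, hs⟩
    · right
      rw [Nat.squarefree_iff_prime_squarefree] at hs
      push Not at hs
      obtain ⟨p, hp, hpn⟩ := hs
      rw [Finset.mem_Ioc] at hn
      have hn0 : 0 < n := by omega
      have hcop : Nat.Coprime n M := by
        have h1 : Nat.gcd n M = Nat.gcd r M := hn.2.gcd_eq
        unfold Nat.Coprime at hr ⊢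
        rw [h1, hr]
      have hpn' : p ∣ n := dvd_trans (dvd_mul_right _ _) hpn
      have hpM : Nat.Coprime M p := (hcop.coprime_dvd_left hpn').symm
      have hpM' : ¬ p ∣ M := by
        intro h
        have := Nat.Coprime.eq_one_of_dvd hpM.symm h
        exact hp.one_lt.ne' this
      have h2 : p ≠ 2 := by rintro rfl; exact hpM' (dvd_trans (by norm_num) h6)
      have h3 : p ≠ 3 := by rintro rfl; exact hpM' (dvd_trans (by norm_num) h6)
      have h4 : p ≠ 4 := by rintro rfl; exact absurd hp (by norm_num)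
      have h2' := hp.two_le
      rw [Finset.mem_biUnion]
      refine ⟨p, ?_, ?_⟩
      · rw [hP, Finset.mem_filter, Finset.mem_Icc]
        refine ⟨⟨by omega, ?_⟩, hpM⟩
        rw [Nat.le_sqrt]
        exact (Nat.le_of_dvd hn0 hpn).trans hn.1.2
      · rw [Finset.mem_filter, Finset.mem_Ioc, sq]
        exact ⟨hn.1, hn.2, hpn⟩
  have h1 := (Finset.card_le_card hsub).trans (Finset.card_union_le _ _)
  have h2 := class_card X M r hM
  rw [← hC] at h2
  have h3 : ((P.biUnion (fun m => (Finset.Ioc (3 * X / 4) X).filter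
      (fun n => n ≡ r [MOD M] ∧ m ^ 2 ∣ n))).card : ℝ) ≤ X / (4 * M) * (1 / 4) + √X := by
    have h4 : ((P.biUnion (fun m => (Finset.Ioc (3 * X / 4) X).filter
      (fun n => n ≡ r [MOD M] ∧ m ^ 2 ∣ n))).card : ℝ) ≤ ∑ m ∈ P, ((X : ℝ) / (4 * M) * (1 / (m : ℝ) ^ 2) + 1) := by
      have h5 := Finset.card_biUnion_le (s := P) (t := fun m => (Finset.Ioc (3 * X / 4) X).filter
        (fun n => n ≡ r [MOD M] ∧ m ^ 2 ∣ n))
      have h6 : ((P.biUnion (fun m => (Finset.Ioc (3 * X / 4) X).filter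
        (fun n => n ≡ r [MOD M] ∧ m ^ 2 ∣ n))).card : ℝ) ≤ ∑ m ∈ P, (((Finset.Ioc (3 * X / 4) X).filter
        (fun n => n ≡ r [MOD M] ∧ m ^ 2 ∣ n)).card : ℝ) := by exact_mod_cast h5
      refine h6.trans (Finset.sum_le_sum fun m hm => ?_)
      rw [hP, Finset.mem_filter, Finset.mem_Icc] at hm
      exact class_sq X M r m hM hm.2 (by omega)
    refine h4.trans ?_
    have h7 : ∑ m ∈ P, ((X : ℝ) / (4 * M) * (1 / (m : ℝ) ^ 2) + 1) ≤
        ∑ m ∈ Finset.Icc 5 (Nat.sqrt X), ((X : ℝ) / (4 * M) * (1 / (m : ℝ) ^ 2) + 1) :=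
      Finset.sum_le_sum_of_subset_of_nonneg (Finset.filter_subset _ _) fun m _ _ => by positivity
    refine h7.trans ?_
    rw [Finset.sum_add_distrib, ← Finset.mul_sum, Finset.sum_const, nsmul_eq_mul, mul_one]
    have h8 : ((Finset.Icc 5 (Nat.sqrt X)).card : ℝ) ≤ √X := by
      have h9 : (Finset.Icc 5 (Nat.sqrt X)).card ≤ Nat.sqrt X := by
        rw [Nat.card_Icc]; omega
      have h10 : (Nat.sqrt X : ℝ) ≤ √X := by
        apply le_sqrt_of_sq_le
        have := Nat.sqrt_le' X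
        exact_mod_cast this
      exact le_trans (by exact_mod_cast h9) h10
    have h9 : (X : ℝ) / (4 * M) * ∑ m ∈ Finset.Icc 5 (Nat.sqrt X), 1 / (m : ℝ) ^ 2 ≤
        (X : ℝ) / (4 * M) * (1 / 4) := mul_le_mul_of_nonneg_left (sum_inv_sq _) (by positivity)
    linarith
  have h1' : (C.card : ℝ) ≤ (((Finset.Ioc (3 * X / 4) X).filter
      (fun n => n ≡ r [MOD M] ∧ Squarefree n)).card : ℝ) + ((P.biUnion (fun m =>
        (Finset.Ioc (3 * X / 4) X).filter (fun n => n ≡ r [MOD M] ∧ m ^ 2 ∣ n))).card : ℝ) := by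
    exact_mod_cast h1
  have hMR : (0 : ℝ) < M := by exact_mod_cast hM
  have e : 3 / 16 * (X : ℝ) / M = X / (4 * M) - X / (4 * M) * (1 / 4) := by
    field_simp
    ring
  rw [e]
  linarith

end Pool.Agent.K4H52.DH
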