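import Pool.Agent.K4H52.DH.Cnt5
import Pool.Agent.K4H52.DH.Loc

/-! Upper bound for the number of forms with local conditions. -/

set_option autoImplicit false

namespace Pool.Agent.K4H52.DH

open Real Filter

/-- the number of non-squares modulo `l` -/
noncomputable def nr (l : ℕ) : ℕ := Nat.card {x : ZMod l // ¬ IsSquare x}

lemma card_NR (l : ℕ) [NeZero l] : (NR l).card = nr l := by
  classical
  unfold nr NR
  rw [Nat.card_eq_fintype_card, Fintype.card_subtype]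

/-- the local conditions -/
def Cond (S : Finset ℕ) (n : ℤ) : Prop :=
  n % 8 = 7 ∧ ¬ (3 : ℤ) ∣ n ∧ ∀ l ∈ S, jacobiSym (-n) l = -1

/-- reduction of a quadruple -/
def cast4 (m : ℕ) (q : ℤ × ℤ × ℤ × ℤ) : ZMod m × ZMod m × ZMod m × ZMod m :=
  ((q.1 : ZMod m), (q.2.1 : ZMod m), (q.2.2.1 : ZMod m), (q.2.2.2 : ZMod m))

lemma cast4_eq {m : ℕ} {q q' : ℤ × ℤ × ℤ × ℤ} (h : cast4 m q = cast4 m q') :
    (m : ℤ) ∣ q.1 - q'.1 ∧ (m : ℤ) ∣ q.2.1 - q'.2.1 ∧ (m : ℤ) ∣ q.2.2.1 - q'.2.2.1 ∧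
      (m : ℤ) ∣ q.2.2.2 - q'.2.2.2 := by
  unfold cast4 at h
  simp only [Prod.mk.injEq] at h
  obtain ⟨h1, h2, h3, h4⟩ := h
  have key : ∀ x y : ℤ, (x : ZMod m) = (y : ZMod m) → (m : ℤ) ∣ x - y := by
    intro x y hxy
    rw [← ZMod.intCast_zmod_eq_zero_iff_dvd]
    push_cast
    rw [hxy, sub_self]
  exact ⟨key _ _ h1, key _ _ h2, key _ _ h3, key _ _ h4⟩

lemma Dr_cast (m : ℕ) (a b c d : ℤ) : Dr (a : ZMod m) (b : ZMod m) (c : ZMod m) (d : ZMod m) =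
    ((-hn a b c d : ℤ) : ZMod m) := by
  unfold Dr hn hA hB hC
  push_cast
  ring

lemma cast4_H2 {q : ℤ × ℤ × ℤ × ℤ} (h : hn q.1 q.2.1 q.2.2.1 q.2.2.2 % 8 = 7) : cast4 2 q ∈ H2 := by
  obtain ⟨a, b, c, d⟩ := q
  simp only at h
  unfold hn at h
  have h1 : hB a b c d % 2 = 1 := by
    rcases Int.emod_two_eq_zero_or_one (hB a b c d) with h0 | h0
    · exfalso
      obtain ⟨k, hk⟩ : ∃ k, hB a b c d = 2 * k := ⟨hB a b c d / 2, by omega⟩
      rw [hk] at h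
      have : 4 * hA a b c * hC b c d - (2 * k) ^ 2 = 4 * (hA a b c * hC b c d - k ^ 2) := by ring
      omega
    · exact h0
  have h2 : (hA a b c * hC b c d) % 2 = 0 := by
    rcases Int.emod_two_eq_zero_or_one (hA a b c * hC b c d) with h0 | h0
    · exact h0
    · exfalso
      obtain ⟨k, hk⟩ : ∃ k, hB a b c d = 2 * k + 1 := ⟨hB a b c d / 2, by omega⟩
      obtain ⟨m, hm⟩ : ∃ m, hA a b c * hC b c d = 2 * m + 1 := ⟨hA a b c * hC b c d / 2, by omega⟩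
      obtain ⟨j, hj⟩ : ∃ j, k * (k + 1) = 2 * j := by
        obtain ⟨j, hj⟩ := Int.even_mul_succ_self k
        exact ⟨j, by omega⟩
      have : 4 * hA a b c * hC b c d - hB a b c d ^ 2 = 8 * (m - j) + 3 := by
        rw [hk]
        linear_combination 4 * hm - 4 * hj
      omega
  unfold H2 cast4
  simp only [Finset.mem_filter, Finset.mem_univ, true_and]
  constructor
  · have e : ((b : ZMod 2) * c - a * d) = ((hB a b c d : ℤ) : ZMod 2) := by
      unfold hB; push_cast; ring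
    rw [e]
    have : ((hB a b c d : ℤ) : ZMod 2) = ((1 : ℤ) : ZMod 2) := by
      rw [ZMod.intCast_eq_intCast_iff]
      exact h1
    rw [this]; simp
  · have e : ((b : ZMod 2) ^ 2 - a * c) * ((c : ZMod 2) ^ 2 - b * d) =
        ((hA a b c * hC b c d : ℤ) : ZMod 2) := by
      unfold hA hC; push_cast; ring
    rw [e, ZMod.intCast_zmod_eq_zero_iff_dvd]
    push_cast
    omega

lemma cast4_H3 {q : ℤ × ℤ × ℤ × ℤ} (h : ¬ (3 : ℤ) ∣ hn q.1 q.2.1 q.2.2.1 q.2.2.2) :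
    cast4 3 q ∈ H3 := by
  unfold H3 cast4
  simp only [Finset.mem_filter, Finset.mem_univ, true_and]
  rw [Dr_cast, Ne, ZMod.intCast_zmod_eq_zero_iff_dvd, dvd_neg]
  exact h

lemma cast4_Hl {l : ℕ} [Fact l.Prime] {q : ℤ × ℤ × ℤ × ℤ}
    (h : jacobiSym (-hn q.1 q.2.1 q.2.2.1 q.2.2.2) l = -1) : cast4 l q ∈ Hl l := by
  rw [mem_Hl]
  unfold cast4
  simp only
  rw [Dr_cast]
  exact ZMod.nonsquare_iff_jacobiSym_eq_neg_one.1 h

/-- the modulus -/
def NN (S : Finset ℕ) : ℕ := 6 * ∏ l ∈ S, l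

lemma NN_dvd {S : Finset ℕ} (hS : ∀ l ∈ S, l.Prime ∧ 5 ≤ l) {z : ℤ} (h2 : (2 : ℤ) ∣ z)
    (h3 : (3 : ℤ) ∣ z) (hl : ∀ l ∈ S, (l : ℤ) ∣ z) : (NN S : ℤ) ∣ z := by
  have h6 : (6 : ℤ) ∣ z := by omega
  have hp : (∏ l ∈ S, (l : ℤ)) ∣ z := by
    refine Finset.prod_dvd_of_coprime ?_ hl
    intro x hx y hy hxy
    exact Nat.isCoprime_iff_coprime.2 ((Nat.coprime_primes (hS x hx).1 (hS y hy).1).2 hxy)
  unfold NN
  push_cast
  refine IsCoprime.mul_dvd ?_ h6 hp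
  refine IsCoprime.prod_right fun l hl => ?_
  have h1 := hS l hl
  have : Nat.Coprime 6 l := by
    have e : 6 = 2 * 3 := by norm_num
    rw [e, Nat.coprime_mul_iff_left]
    exact ⟨(Nat.coprime_primes Nat.prime_two h1.1).2 (by omega),
      (Nat.coprime_primes Nat.prime_three h1.1).2 (by omega)⟩
  exact_mod_cast Nat.isCoprime_iff_coprime.2 this

/-- the density of the local conditions at the primes of `S` -/
noncomputable def rho (S : Finset ℕ) : ℝ := ∏ l ∈ S, (nr l : ℝ) / l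

theorem upper (S : Finset ℕ) (hS : ∀ l ∈ S, l.Prime ∧ 5 ≤ l) {ε : ℝ} (hε : 0 < ε) :
    ∀ᶠ X : ℕ in atTop, ∀ T : Finset (ℤ × ℤ × ℤ × ℤ),
    (∀ q ∈ T, Ok X q ∧ Cond S (hn q.1 q.2.1 q.2.2.1 q.2.2.2)) →
    (T.card : ℝ) ≤ (1 / 9 * rho S * (101 / 100 * Vc) + ε) * X := by
  classical
  have inst1 : ∀ l : S, Fact (l : ℕ).Prime := fun l => ⟨(hS l l.2).1⟩
  have inst2 : ∀ l : S, NeZero (l : ℕ) := fun l => ⟨(hS l l.2).1.ne_zero⟩
  have hN : 0 < NN S := by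
    unfold NN
    have : 0 < ∏ l ∈ S, l := Finset.prod_pos fun l hl => (hS l hl).1.pos
    omega
  set Kc : ℕ := 3 * (48 * ∏ l ∈ S, (l ^ 3 * nr l)) with hKc
  have hε' : 0 < ε / (Kc + 1) := by positivity
  filter_upwards [count_forms (NN S) hN hε', eventually_gt_atTop 0] with X hX hX0 T hT
  have hXR : (0 : ℝ) < X := by exact_mod_cast hX0
  set κ : ℤ × ℤ × ℤ × ℤ → (ZMod 2 × ZMod 2 × ZMod 2 × ZMod 2) × (ZMod 3 × ZMod 3 × ZMod 3 × ZMod 3) ×
      ((l : S) → (ZMod l × ZMod l × ZMod l × ZMod l)) :=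
    fun q => (cast4 2 q, cast4 3 q, fun l => cast4 l q) with hκ
  have himg : T.image κ ⊆ H2 ×ˢ (H3 ×ˢ Fintype.piFinset (fun l : S => Hl (l : ℕ))) := by
    intro r hr
    rw [Finset.mem_image] at hr
    obtain ⟨q, hq, rfl⟩ := hr
    obtain ⟨h1, h2, h3, h4⟩ := hT q hq
    rw [Finset.mem_product, Finset.mem_product, Fintype.mem_piFinset]
    exact ⟨cast4_H2 h2, cast4_H3 h3, fun l => cast4_Hl (h4 l l.2)⟩
  have hcard : (T.image κ).card ≤ Kc := by
    refine (Finset.card_le_card himg).trans ?_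
    rw [Finset.card_product, Finset.card_product, card_H2, card_H3, Fintype.card_piFinset, hKc]
    refine Nat.mul_le_mul_left _ (Nat.mul_le_mul_left _ ?_)
    rw [← Finset.prod_coe_sort S (fun l => l ^ 3 * nr l)]
    refine Finset.prod_le_prod' fun l _ => ?_
    rw [← card_NR]
    exact card_Hl (hS l l.2).2
  set B : ℝ := (101 / 100 * Vc / (NN S : ℝ) ^ 4 + ε / (Kc + 1)) * X with hB
  have hNR : (0 : ℝ) < NN S := by exact_mod_cast hN
  have hV := Vc_nonneg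
  have hB0 : 0 ≤ B := by positivity
  have h1 : (T.card : ℝ) ≤ ∑ r ∈ T.image κ, B := by
    rw [Finset.card_eq_sum_card_image κ T]
    push_cast
    refine Finset.sum_le_sum fun r _ => ?_
    refine hX _ (fun q hq => (hT q (Finset.mem_filter.1 hq).1).1) (fun q hq q' hq' => ?_)
    have e : κ q = κ q' := (Finset.mem_filter.1 hq).2.trans (Finset.mem_filter.1 hq').2.symm
    simp only [hκ, Prod.mk.injEq] at e
    obtain ⟨e1, e2, e3⟩ := e
    have d1 := cast4_eq e1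
    have d2 := cast4_eq e2
    have d3 : ∀ l ∈ S, _ := fun l hl => cast4_eq (congrFun e3 ⟨l, hl⟩)
    exact ⟨NN_dvd hS (by exact_mod_cast d1.1) (by exact_mod_cast d2.1) (fun l hl => (d3 l hl).1),
      NN_dvd hS (by exact_mod_cast d1.2.1) (by exact_mod_cast d2.2.1) (fun l hl => (d3 l hl).2.1),
      NN_dvd hS (by exact_mod_cast d1.2.2.1) (by exact_mod_cast d2.2.2.1) (fun l hl => (d3 l hl).2.2.1),
      NN_dvd hS (by exact_mod_cast d1.2.2.2) (by exact_mod_cast d2.2.2.2) (fun l hl => (d3 l hl).2.2.2)⟩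
  rw [Finset.sum_const, nsmul_eq_mul] at h1
  have h2 : ((T.image κ).card : ℝ) * B ≤ Kc * B :=
    mul_le_mul_of_nonneg_right (by exact_mod_cast hcard) hB0
  have h3 : (Kc : ℝ) * (101 / 100 * Vc / (NN S : ℝ) ^ 4) = 1 / 9 * rho S * (101 / 100 * Vc) := by
    have hp : (∏ l ∈ S, (l : ℝ)) ≠ 0 := Finset.prod_ne_zero_iff.2 fun l hl => by
      exact_mod_cast (hS l hl).1.ne_zero
    have e1 : (Kc : ℝ) = 144 * ((∏ l ∈ S, (l : ℝ)) ^ 3 * ∏ l ∈ S, (nr l : ℝ)) := by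
      rw [hKc]
      push_cast
      rw [Finset.prod_mul_distrib, Finset.prod_pow]
      ring
    have e2 : ((NN S : ℕ) : ℝ) = 6 * ∏ l ∈ S, (l : ℝ) := by unfold NN; push_cast; ring
    rw [e1, e2]
    unfold rho
    rw [Finset.prod_div_distrib]
    field_simp
    ring
  have h4 : (Kc : ℝ) * (ε / (Kc + 1)) ≤ ε := by
    rw [mul_div_assoc', div_le_iff₀ (by positivity)]
    nlinarith [show (0 : ℝ) ≤ Kc by positivity]
  have h5 : (Kc : ℝ) * B ≤ (1 / 9 * rho S * (101 / 100 * Vc) + ε) * X := by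
    rw [hB, ← mul_assoc, mul_add, h3]
    exact mul_le_mul_of_nonneg_right (by linarith) hXR.le
  linarith

end Pool.Agent.K4H52.DH
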