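import Pool.Agent.K4H52.DH.Lower1
import Pool.Agent.K4H52.DH.Upper

/-! Lower bound for the number of squarefree integers with local conditions. -/

set_option autoImplicit false

namespace Pool.Agent.K4H52.DH

open Real Filter

/-- the modulus for `n` -/
def MM (S : Finset ℕ) : ℕ := 24 * ∏ l ∈ S, l

open Classical in
/-- the integers with local conditions -/
noncomputable def GG (S : Finset ℕ) (X : ℕ) : Finset ℕ :=
  (Finset.Ioc (3 * X / 4) X).filter fun n => Squarefree n ∧ Cond S n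

lemma exists_class (S : Finset ℕ) (hS : ∀ l ∈ S, l.Prime ∧ 5 ≤ l) (v3 : ZMod 3) (v : (l : S) → ZMod l) :
    ∃ r : ℕ, r % 8 = 7 ∧ (r : ZMod 3) = v3 ∧ ∀ l : S, -((r : ℕ) : ZMod l) = v l := by
  have inst2 : ∀ l : S, NeZero (l : ℕ) := fun l => ⟨(hS l l.2).1.ne_zero⟩
  have hpp : Set.Pairwise ((Finset.univ : Finset S) : Set S) (Function.onFun Nat.Coprime fun l : S => (l : ℕ)) := by
    intro x _ y _ hxy
    exact (Nat.coprime_primes (hS x x.2).1 (hS y y.2).1).2 fun h => hxy (Subtype.ext h)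
  obtain ⟨r0, hr0⟩ := Nat.chineseRemainderOfFinset (fun l : S => (-(v l)).val) (fun l : S => (l : ℕ))
    Finset.univ (fun l _ => (hS l l.2).1.ne_zero) hpp
  have hc24 : Nat.Coprime 24 (∏ l ∈ S, l) := by
    refine Nat.Coprime.prod_right fun l hl => ?_
    have h1 := hS l hl
    have e : 24 = 2 ^ 3 * 3 := by norm_num
    rw [e]
    refine Nat.Coprime.mul_left ?_ ?_
    · exact Nat.Coprime.pow_left 3 ((Nat.coprime_primes Nat.prime_two h1.1).2 (by omega))
    · exact (Nat.coprime_primes Nat.prime_three h1.1).2 (by omega)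
  obtain ⟨r1, hr1a, hr1b⟩ := Nat.chineseRemainder (show Nat.Coprime 8 3 by norm_num) 7 v3.val
  obtain ⟨r, hra, hrb⟩ := Nat.chineseRemainder hc24 r1 r0
  refine ⟨r, ?_, ?_, fun l => ?_⟩
  · have h1 : r ≡ r1 [MOD 8] := hra.of_dvd (by norm_num)
    have h2 : r ≡ 7 [MOD 8] := h1.trans hr1a
    exact h2
  · have h1 : r ≡ r1 [MOD 3] := hra.of_dvd (by norm_num)
    have h2 : r ≡ v3.val [MOD 3] := h1.trans hr1b
    rw [← ZMod.natCast_eq_natCast_iff] at h2
    rw [h2, ZMod.natCast_zmod_val]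
  · have h1 : r ≡ r0 [MOD (l : ℕ)] := hrb.of_dvd (Finset.dvd_prod_of_mem (fun l => l) l.2)
    have h2 : r ≡ (-(v l)).val [MOD (l : ℕ)] := h1.trans (hr0 l (Finset.mem_univ _))
    rw [← ZMod.natCast_eq_natCast_iff] at h2
    rw [h2, ZMod.natCast_zmod_val, neg_neg]

theorem lower (S : Finset ℕ) (hS : ∀ l ∈ S, l.Prime ∧ 5 ≤ l) {ε : ℝ} (hε : 0 < ε) :
    ∀ᶠ X : ℕ in atTop, (1 / 12 * rho S * (3 / 16) - ε) * X ≤ ((GG S X).card : ℝ) := by
  classical
  have inst1 : ∀ l : S, Fact (l : ℕ).Prime := fun l => ⟨(hS l l.2).1⟩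
  have inst2 : ∀ l : S, NeZero (l : ℕ) := fun l => ⟨(hS l l.2).1.ne_zero⟩
  have hp0 : 0 < ∏ l ∈ S, l := Finset.prod_pos fun l hl => (hS l hl).1.pos
  have hM : 0 < MM S := by unfold MM; omega
  set Vs : Finset (ZMod 3 × ((l : S) → ZMod l)) :=
    (Finset.univ.filter fun x : ZMod 3 => x ≠ 0) ×ˢ Fintype.piFinset (fun l : S => NR (l : ℕ)) with hVs
  have hVc : Vs.card = 2 * ∏ l ∈ S, nr l := by
    rw [hVs, Finset.card_product, Fintype.card_piFinset]
    have e1 : (Finset.univ.filter fun x : ZMod 3 => x ≠ 0).card = 2 := by decide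
    rw [e1, ← Finset.prod_coe_sort S (fun l => nr l)]
    congr 1
    refine Finset.prod_congr rfl fun l _ => ?_
    rw [card_NR]
  have ht : Tendsto (fun X : ℕ => √(X : ℝ)) atTop atTop :=
    tendsto_sqrt_atTop.comp tendsto_natCast_atTop_atTop
  filter_upwards [ht.eventually_ge_atTop (3 * (Vs.card : ℝ) / ε + 1), eventually_gt_atTop 0] with X hX hX0
  have hXR : (0 : ℝ) < X := by exact_mod_cast hX0
  set κ : ℕ → ZMod 3 × ((l : S) → ZMod l) := fun n => ((n : ZMod 3), fun l => -((n : ℕ) : ZMod l))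
    with hκ
  have hmaps : ∀ n ∈ GG S X, κ n ∈ Vs := by
    intro n hn
    unfold GG at hn
    rw [Finset.mem_filter] at hn
    obtain ⟨_, _, h8, h3, hl⟩ := hn
    rw [hVs, Finset.mem_product, Finset.mem_filter, Fintype.mem_piFinset]
    refine ⟨⟨Finset.mem_univ _, fun h => h3 ?_⟩, fun l => ?_⟩
    · rw [hκ] at h
      simp only at h
      rw [ZMod.natCast_eq_zero_iff] at h
      exact_mod_cast h
    · rw [mem_NR]
      have h1 := ZMod.nonsquare_iff_jacobiSym_eq_neg_one.1 (hl l l.2)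
      push_cast at h1
      exact h1
  have hmain : ∀ v ∈ Vs, 3 / 16 * (X : ℝ) / MM S - 2 - √X ≤
      (((GG S X).filter (fun n => κ n = v)).card : ℝ) := by
    rintro ⟨v3, v⟩ hv
    rw [hVs, Finset.mem_product, Finset.mem_filter, Fintype.mem_piFinset] at hv
    obtain ⟨⟨_, hv3⟩, hvl⟩ := hv
    simp only at hv3 hvl
    obtain ⟨r, hr8, hr3, hrl⟩ := exists_class S hS v3 v
    have hrl0 : ∀ l ∈ S, ¬ l ∣ r := by
      intro l hl hlr
      have h1 := hvl ⟨l, hl⟩
      rw [mem_NR, ← hrl ⟨l, hl⟩] at h1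
      apply h1
      have : ((r : ℕ) : ZMod l) = 0 := (ZMod.natCast_eq_zero_iff _ _).2 hlr
      have h2 : -((r : ℕ) : ZMod ((⟨l, hl⟩ : S) : ℕ)) = 0 := by
        show -((r : ℕ) : ZMod l) = 0
        rw [this, neg_zero]
      rw [h2]
      exact ⟨0, by simp⟩
    have hr3' : ¬ 3 ∣ r := by
      intro h
      apply hv3
      rw [← hr3]
      exact (ZMod.natCast_eq_zero_iff _ _).2 h
    have hcop : Nat.Coprime r (MM S) := by
      unfold MM
      refine Nat.Coprime.mul_right ?_ (Nat.Coprime.prod_right fun l hl => ?_)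
      · have e : 24 = 2 ^ 3 * 3 := by norm_num
        rw [e]
        refine Nat.Coprime.mul_right ?_ ?_
        · exact Nat.Coprime.pow_right 3
            ((Nat.Prime.coprime_iff_not_dvd Nat.prime_two).2 (by omega)).symm
        · exact ((Nat.Prime.coprime_iff_not_dvd Nat.prime_three).2 hr3').symm
      · exact ((Nat.Prime.coprime_iff_not_dvd (hS l hl).1).2 (hrl0 l hl)).symm
    have h1 := class_sqfree X (MM S) r hM (by unfold MM; exact ⟨4 * ∏ l ∈ S, l, by ring⟩) hcop
    refine h1.trans ?_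
    have hsub : (Finset.Ioc (3 * X / 4) X).filter (fun n => n ≡ r [MOD (MM S)] ∧ Squarefree n) ⊆
        (GG S X).filter (fun n => κ n = (v3, v)) := by
      intro n hn
      rw [Finset.mem_filter] at hn
      obtain ⟨hn1, hn2, hn3⟩ := hn
      have m8 : n ≡ r [MOD 8] := hn2.of_dvd (by unfold MM; exact ⟨3 * ∏ l ∈ S, l, by ring⟩)
      have m3 : n ≡ r [MOD 3] := hn2.of_dvd (by unfold MM; exact ⟨8 * ∏ l ∈ S, l, by ring⟩)
      have ml : ∀ l ∈ S, n ≡ r [MOD l] := fun l hl => hn2.of_dvd (by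
        unfold MM; exact (Finset.dvd_prod_of_mem (fun l => l) hl).mul_left _)
      have e3 : (n : ZMod 3) = v3 := by
        rw [← hr3]; exact (ZMod.natCast_eq_natCast_iff _ _ _).2 m3
      have el : ∀ l : S, -((n : ℕ) : ZMod l) = v l := by
        intro l
        rw [← hrl l, (ZMod.natCast_eq_natCast_iff _ _ _).2 (ml l l.2)]
      rw [Finset.mem_filter]
      constructor
      · unfold GG
        rw [Finset.mem_filter]
        refine ⟨hn1, hn3, ?_, ?_, ?_⟩
        · have h7 : n % 8 = r % 8 := m8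
          omega
        · intro h
          apply hv3
          rw [← e3]
          exact (ZMod.natCast_eq_zero_iff _ _).2 (by exact_mod_cast h)
        · intro l hl
          haveI : Fact l.Prime := ⟨(hS l hl).1⟩
          rw [ZMod.nonsquare_iff_jacobiSym_eq_neg_one]
          push_cast
          have h7 := hvl ⟨l, hl⟩
          rw [mem_NR, ← el ⟨l, hl⟩] at h7
          exact h7
      · rw [hκ]
        simp only [Prod.mk.injEq]
        exact ⟨e3, funext el⟩
    exact_mod_cast Finset.card_le_card hsub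
  have hcount : ((GG S X).card : ℝ) = ∑ v ∈ Vs, (((GG S X).filter (fun n => κ n = v)).card : ℝ) := by
    have := Finset.card_eq_sum_card_fiberwise (f := κ) (s := GG S X) (t := Vs)
      (fun n hn => Finset.mem_coe.2 (hmaps n hn))
    exact_mod_cast this
  rw [hcount]
  have h2 : ∑ v ∈ Vs, (3 / 16 * (X : ℝ) / MM S - 2 - √X) ≤
      ∑ v ∈ Vs, (((GG S X).filter (fun n => κ n = v)).card : ℝ) := Finset.sum_le_sum hmain
  refine le_trans ?_ h2
  rw [Finset.sum_const, nsmul_eq_mul]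
  have hMR : (0 : ℝ) < MM S := by exact_mod_cast hM
  have hpR : (∏ l ∈ S, (l : ℝ)) ≠ 0 := Finset.prod_ne_zero_iff.2 fun l hl => by
    exact_mod_cast (hS l hl).1.ne_zero
  have e1 : (Vs.card : ℝ) * (3 / 16 * (X : ℝ) / MM S) = 1 / 12 * rho S * (3 / 16) * X := by
    have e2 : ((MM S : ℕ) : ℝ) = 24 * ∏ l ∈ S, (l : ℝ) := by unfold MM; push_cast; ring
    rw [hVc, e2]
    unfold rho
    rw [Finset.prod_div_distrib]
    push_cast
    field_simp
    ring
  have h3 : (Vs.card : ℝ) * (2 + √X) ≤ ε * X := by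
    have hs1 : 1 ≤ √(X : ℝ) := by
      have : 0 ≤ 3 * (Vs.card : ℝ) / ε := by positivity
      linarith
    have hsX : √(X : ℝ) * √X = X := mul_self_sqrt hXR.le
    have h4 : 3 * (Vs.card : ℝ) ≤ ε * √X := by
      have : 3 * (Vs.card : ℝ) / ε ≤ √X := by linarith
      rw [div_le_iff₀ hε] at this
      linarith
    have hV0 : (0 : ℝ) ≤ Vs.card := by positivity
    calc (Vs.card : ℝ) * (2 + √X) ≤ (Vs.card : ℝ) * (3 * √X) := by
          apply mul_le_mul_of_nonneg_left _ hV0; linarith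
      _ = 3 * (Vs.card : ℝ) * √X := by ring
      _ ≤ ε * √X * √X := mul_le_mul_of_nonneg_right h4 (sqrt_nonneg _)
      _ = ε * X := by rw [mul_assoc, hsX]
  have e4 : (Vs.card : ℝ) * (3 / 16 * (X : ℝ) / MM S - 2 - √X) =
      (Vs.card : ℝ) * (3 / 16 * (X : ℝ) / MM S) - (Vs.card : ℝ) * (2 + √X) := by ring
  rw [e4, e1]
  linarith

end Pool.Agent.K4H52.DH
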