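import Pool.Agent.K4H52.DH.Lower2
import Pool.Agent.K4H52.DH.Alg4

/-! A positive proportion of imaginary quadratic fields, with local conditions, have class number
prime to three (Davenport–Heilbronn, in a weak form). -/

set_option autoImplicit false

namespace Pool.Agent.K4H52.DH

open Real Filter NumberField Module

/-- `n` is good: local conditions, and three does not divide the class number of `ℚ(√-n)` -/
def Good (S : Finset ℕ) (n : ℕ) : Prop :=
  Squarefree n ∧ n % 8 = 7 ∧ ¬ 3 ∣ n ∧ (∀ l ∈ S, jacobiSym (-(n : ℤ)) l = -1) ∧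
    ∀ (K : Type) [Field K] [NumberField K], finrank ℚ K = 2 → (∃ x : K, x ^ 2 = -(n : K)) →
      ¬ 3 ∣ Fintype.card (ClassGroup (𝓞 K))

lemma rho_pos (S : Finset ℕ) (hS : ∀ l ∈ S, l.Prime ∧ 5 ≤ l) : 0 < rho S := by
  unfold rho
  refine Finset.prod_pos fun l hl => ?_
  haveI : Fact l.Prime := ⟨(hS l hl).1⟩
  have h1 := NR_pos (l := l) (hS l hl).2
  rw [card_NR] at h1
  have h2 : (0 : ℝ) < nr l := by exact_mod_cast h1
  have h3 : (0 : ℝ) < l := by exact_mod_cast (hS l hl).1.pos
  positivity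

open Classical in
theorem P1 (S : Finset ℕ) (hS : ∀ l ∈ S, l.Prime ∧ 5 ≤ l) :
    ∃ d > (0 : ℝ), ∀ᶠ X : ℕ in atTop,
      d * X ≤ (((Finset.range (X + 1)).filter (Good S)).card : ℝ) := by
  have hρ := rho_pos S hS
  set δ : ℝ := rho S / 10000 with hδ
  have hδ0 : 0 < δ := by positivity
  refine ⟨δ, hδ0, ?_⟩
  filter_upwards [lower S hS hδ0, upper S hS hδ0] with X hlow hup
  set Gs := (Finset.range (X + 1)).filter (Good S) with hGs
  set Bad := (GG S X).filter (fun n => ¬ Good S n) with hBad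
  -- each bad integer has two forms
  have hex : ∀ n ∈ Bad, ∃ q1 q2 : ℤ × ℤ × ℤ × ℤ, q1 ≠ q2 ∧ Ok X q1 ∧ Ok X q2 ∧
      hn q1.1 q1.2.1 q1.2.2.1 q1.2.2.2 = n ∧ hn q2.1 q2.2.1 q2.2.2.1 q2.2.2.2 = n := by
    intro n hn'
    rw [hBad, Finset.mem_filter] at hn'
    obtain ⟨hnG, hnb⟩ := hn'
    unfold GG at hnG
    rw [Finset.mem_filter, Finset.mem_Ioc] at hnG
    obtain ⟨⟨hn1, hn2⟩, hsq, h8, h3, hl⟩ := hnG
    have h8' : n % 8 = 7 := by omega
    have h3' : ¬ 3 ∣ n := fun h => h3 (by exact_mod_cast h)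
    have : ∃ (K : Type) (_ : Field K) (_ : NumberField K), finrank ℚ K = 2 ∧
        (∃ x : K, x ^ 2 = -(n : K)) ∧ 3 ∣ Fintype.card (ClassGroup (𝓞 K)) := by
      by_contra hcon
      push Not at hcon
      exact hnb ⟨hsq, h8', h3', hl, fun K _ _ hK hx => hcon K _ _ hK hx⟩
    obtain ⟨K, _, _, hK, hx, hdiv⟩ := this
    obtain ⟨a, b, c, d, hq⟩ := exists_quad_of_three_dvd n hsq (by omega) K hK hx hdiv
    obtain ⟨b', c', d', hq', hne⟩ := exists_other n a b c d (Int.squarefree_natCast.2 hsq)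
      (by omega) hq
    have hok : ∀ a b c d : ℤ, Quad n a b c d → Ok X (a, b, c, d) := by
      intro a b c d h
      obtain ⟨h1, h2, h3, h4, h5, h6⟩ := h
      exact ⟨h1, h2, h3, h4, by simp only; omega, by simp only; omega, by simp only; omega⟩
    exact ⟨(a, b, c, d), (a, b', c', d'), hne.symm, hok _ _ _ _ hq, hok _ _ _ _ hq', hq.2.2.2.2.2,
      hq'.2.2.2.2.2⟩
  choose! f1 f2 hne hok1 hok2 hv1 hv2 using hex
  have hinj1 : Set.InjOn f1 (Bad : Set ℕ) := by
    intro x hx y hy h
    have h1 := hv1 x hx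
    have h2 := hv1 y hy
    rw [h] at h1
    exact_mod_cast h1.symm.trans h2
  have hinj2 : Set.InjOn f2 (Bad : Set ℕ) := by
    intro x hx y hy h
    have h1 := hv2 x hx
    have h2 := hv2 y hy
    rw [h] at h1
    exact_mod_cast h1.symm.trans h2
  have hdisj : Disjoint (Bad.image f1) (Bad.image f2) := by
    rw [Finset.disjoint_left]
    intro q hq hq'
    rw [Finset.mem_image] at hq hq'
    obtain ⟨x, hx, rfl⟩ := hq
    obtain ⟨y, hy, hxy⟩ := hq'
    have h1 := hv1 x hx
    have h2 := hv2 y hy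
    rw [hxy] at h2
    have h3 : (x : ℤ) = y := h1.symm.trans h2
    have h4 : x = y := by exact_mod_cast h3
    subst h4
    exact hne x hx hxy.symm
  have hT := hup (Bad.image f1 ∪ Bad.image f2) (by
    intro q hq
    rw [Finset.mem_union, Finset.mem_image, Finset.mem_image] at hq
    have hcond : ∀ n ∈ Bad, Cond S n := by
      intro n hn'
      rw [hBad, Finset.mem_filter] at hn'
      have := hn'.1
      unfold GG at this
      rw [Finset.mem_filter] at this
      exact this.2.2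
    rcases hq with ⟨x, hx, rfl⟩ | ⟨x, hx, rfl⟩
    · exact ⟨hok1 x hx, by rw [hv1 x hx]; exact hcond x hx⟩
    · exact ⟨hok2 x hx, by rw [hv2 x hx]; exact hcond x hx⟩)
  rw [Finset.card_union_of_disjoint hdisj, Finset.card_image_of_injOn hinj1,
    Finset.card_image_of_injOn hinj2] at hT
  push_cast at hT
  -- the rest is good
  have hsub : (GG S X).filter (fun n => Good S n) ⊆ Gs := by
    intro n hn'
    rw [Finset.mem_filter] at hn'
    obtain ⟨hnG, hg⟩ := hn'
    unfold GG at hnG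
    rw [Finset.mem_filter, Finset.mem_Ioc] at hnG
    rw [hGs, Finset.mem_filter, Finset.mem_range]
    exact ⟨by omega, hg⟩
  have h1 := Finset.card_le_card hsub
  have h2 := Finset.card_filter_add_card_filter_not (s := GG S X) (fun n => Good S n)
  rw [← hBad] at h2
  have h3 : ((GG S X).card : ℝ) ≤ (Gs.card : ℝ) + (Bad.card : ℝ) := by
    have : (GG S X).card ≤ Gs.card + Bad.card := by omega
    exact_mod_cast this
  have hX : (0 : ℝ) ≤ X := Nat.cast_nonneg _
  have hV := Vc_lt
  have hV0 := Vc_nonneg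
  have h4 : (1 / 9 * rho S * (101 / 100 * Vc) + δ) * X ≤
      (1 / 9 * rho S * (101 / 100 * (27 / 100)) + δ) * X := by
    apply mul_le_mul_of_nonneg_right _ hX
    have : rho S * Vc ≤ rho S * (27 / 100) := mul_le_mul_of_nonneg_left hV.le hρ.le
    linarith
  have h5 : δ * X = rho S * X / 10000 := by rw [hδ]; ring
  have h6 : 0 ≤ rho S * X := by positivity
  have h7 : (1 / 9 * rho S * (101 / 100 * (27 / 100)) + δ) * X = rho S * X * (303 / 10000) + rho S * X / 10000 := by
    rw [add_mul, h5]; ring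
  have h8 : (1 / 12 * rho S * (3 / 16) - δ) * X = rho S * X / 64 - rho S * X / 10000 := by
    rw [sub_mul, h5]; ring
  rw [h7] at h4
  rw [h8] at hlow
  rw [h5]
  linarith

end Pool.Agent.K4H52.DH
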